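import Pool.Agent.TH801.LG.Step

/-! The counting theorem for separable relations over an abstract well distributed set. -/

set_option autoImplicit false

open Finset MeasureTheory Complex
open scoped ComplexConjugate

namespace Pool.Agent.TH801.LG

open Pool.Agent.TH801.LU
open Pool.Agent.TH801.LR (Sx Sx_le Sx_sq cell)

/-- frequencies of a cluster -/
lemma freq4 (b s L T d u κ c0 D G : ℝ) (K Q : ℕ) (hb : 0 < b) (hs : 0 < s) (hL : 1 ≤ L)
    (hT : 0 < T) (hQ : 1 ≤ Q) (hκ : 0 < κ) (hKQ : (K : ℝ) ≤ c0 * Q)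
    (hgap : G * b ≤ |d| * (T * L)) (hnear : |d| ≤ s / Q) (hu1 : κ * L / b < |u|)
    (hu2 : |u| ≤ L / (2 * Real.pi * b) * (b / s)) (hG : D ≤ 2 * Real.pi * κ * G)
    (k : ℤ) (hk : k ≠ 0) (hkK : |k| ≤ K) :
    D / T ≤ |2 * Real.pi * k * u * d| ∧ |2 * Real.pi * k * u * d| ≤ c0 * L := by
  have hpi := Real.pi_pos
  have hL0 : 0 < L := by linarith
  have hQ0 : (0 : ℝ) < Q := by exact_mod_cast hQ
  have e1 : |2 * Real.pi * k * u * d| = |(k : ℝ)| * (2 * Real.pi * (|d| * |u|)) := by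
    have : 2 * Real.pi * k * u * d = k * (2 * Real.pi * (d * u)) := by ring
    rw [this, abs_mul, abs_mul, abs_mul d, abs_of_pos (by positivity : 0 < 2 * Real.pi)]
  rw [e1]
  have hk1 : (1 : ℝ) ≤ |(k : ℝ)| := by
    have : (1 : ℤ) ≤ |k| := Int.one_le_abs hk
    exact_mod_cast this
  have hk2 : |(k : ℝ)| ≤ K := by
    have : ((|k| : ℤ) : ℝ) ≤ ((K : ℤ) : ℝ) := by exact_mod_cast hkK
    rw [Int.cast_abs] at this
    simpa using this
  constructor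
  · have h1 : |d| * (κ * L / b) ≤ |d| * |u| := mul_le_mul_of_nonneg_left hu1.le (abs_nonneg _)
    have h2 : D / T ≤ 2 * Real.pi * (|d| * (κ * L / b)) := by
      rw [div_le_iff₀ hT]
      calc D ≤ 2 * Real.pi * κ * G := hG
        _ = 2 * Real.pi * κ / b * (G * b) := by field_simp
        _ ≤ 2 * Real.pi * κ / b * (|d| * (T * L)) :=
            mul_le_mul_of_nonneg_left hgap (by positivity)
        _ = _ := by field_simp
    have h4 : 2 * Real.pi * (|d| * (κ * L / b)) ≤ 2 * Real.pi * (|d| * |u|) :=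
      mul_le_mul_of_nonneg_left h1 (by positivity)
    have h5 : 0 ≤ 2 * Real.pi * (|d| * |u|) := by positivity
    calc D / T ≤ 2 * Real.pi * (|d| * |u|) := h2.trans h4
      _ ≤ |(k : ℝ)| * (2 * Real.pi * (|d| * |u|)) := le_mul_of_one_le_left h5 hk1
  · have h1 : |d| * |u| ≤ s / Q * (L / (2 * Real.pi * b) * (b / s)) :=
      mul_le_mul hnear hu2 (abs_nonneg _) (by positivity)
    have h2 : 2 * Real.pi * (s / Q * (L / (2 * Real.pi * b) * (b / s))) = L / Q := by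
      field_simp
    have h3 : 2 * Real.pi * (|d| * |u|) ≤ L / Q := by
      rw [← h2]; exact mul_le_mul_of_nonneg_left h1 (by positivity)
    calc |(k : ℝ)| * (2 * Real.pi * (|d| * |u|)) ≤ K * (L / Q) :=
          mul_le_mul hk2 h3 (by positivity) (Nat.cast_nonneg _)
      _ ≤ c0 * Q * (L / Q) := mul_le_mul_of_nonneg_right hKQ (by positivity)
      _ = c0 * L := by field_simp

/-- the saving -/
lemma sav4 (ε K : ℝ) (hε : 0 < ε) (hε1 : ε < 1) (hK : 1 / ε ≤ K) (Q m v M : ℕ) (hQK : (Q : ℝ) ≤ K)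
    (hm : m ≤ v + 2) : (1 - ε) ^ (v - Q * M) ≤ 8 * Real.exp (M - m / K) := by
  have hK0 : 0 < K := lt_of_lt_of_le (by positivity) hK
  have hle1 : (1 - ε) ^ (v - Q * M) ≤ 1 := pow_le_one₀ (by linarith) (by linarith)
  rcases le_or_gt (m : ℝ) (K * M) with h | h
  · have h1 : 0 ≤ (M : ℝ) - m / K := by
      rw [sub_nonneg, div_le_iff₀ hK0]; linarith
    have h2 := Real.add_one_le_exp ((M : ℝ) - m / K)
    linarith
  · have h1 : (1 - ε) ^ (v - Q * M) ≤ (Real.exp (-ε)) ^ (v - Q * M) :=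
      pow_le_pow_left₀ (by linarith) (by have := Real.add_one_le_exp (-ε); linarith) _
    refine h1.trans ?_
    rw [← Real.exp_nat_mul]
    have h3 : (m : ℝ) - 2 - K * M ≤ ((v - Q * M : ℕ) : ℝ) := by
      have h4 : (v : ℝ) - Q * M ≤ ((v - Q * M : ℕ) : ℝ) := by
        have : ((Q * M : ℕ) : ℝ) = Q * M := by push_cast; rfl
        rw [← this, sub_le_iff_le_add]
        have : v ≤ (v - Q * M) + Q * M := by omega
        exact_mod_cast this
      have h5 : (m : ℝ) ≤ v + 2 := by exact_mod_cast hm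
      have h6 : (Q : ℝ) * M ≤ K * M := mul_le_mul_of_nonneg_right hQK (Nat.cast_nonneg _)
      linarith
    have h7 : ((v - Q * M : ℕ) : ℝ) * -ε ≤ 2 + (M - m / K) := by
      have h8 : ε * ((m : ℝ) - 2 - K * M) ≤ ε * ((v - Q * M : ℕ) : ℝ) :=
        mul_le_mul_of_nonneg_left h3 hε.le
      have h9 : (m - K * M) / K ≤ ε * (m - K * M) := by
        rw [div_eq_mul_one_div, mul_comm]
        refine mul_le_mul_of_nonneg_right ?_ (by linarith)
        rw [div_le_iff₀ hK0]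
        rw [div_le_iff₀ hε] at hK
        linarith
      have h10 : (m - K * M) / K = m / K - M := by
        field_simp
      linarith
    refine (Real.exp_le_exp.2 h7).trans ?_
    rw [Real.exp_add]
    refine mul_le_mul_of_nonneg_right ?_ (Real.exp_pos _).le
    have h11 : Real.exp 2 = Real.exp 1 * Real.exp 1 := by
      rw [← Real.exp_add]; norm_num
    rw [h11]
    have := Real.exp_one_lt_d9
    have h12 := Real.exp_pos 1
    nlinarith

/-- refined cells -/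
lemma cells (s c c' : ℝ) (Q σ σ' M : ℕ) (hs : 0 < s) (hQ : 1 ≤ Q) :
    (σ < M → σ * (Q + 2) + (⌊c * Q / s⌋ % (Q + 2)).toNat ∈ range (M * (Q + 2))) ∧
    (σ * (Q + 2) + (⌊c * Q / s⌋ % (Q + 2)).toNat = σ' * (Q + 2) +
      (⌊c' * Q / s⌋ % (Q + 2)).toNat → σ = σ') ∧
    (σ * (Q + 2) + (⌊c * Q / s⌋ % (Q + 2)).toNat = σ' * (Q + 2) +
      (⌊c' * Q / s⌋ % (Q + 2)).toNat → |c - c'| ≤ s → |c - c'| ≤ s / Q) := by
  have hQ0 : (0 : ℝ) < Q := by exact_mod_cast hQ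
  have hp : (0 : ℤ) < Q + 2 := by positivity
  obtain ⟨F, hF⟩ : ∃ F : ℤ, F = ⌊c * Q / s⌋ := ⟨_, rfl⟩
  obtain ⟨F', hF'⟩ : ∃ F' : ℤ, F' = ⌊c' * Q / s⌋ := ⟨_, rfl⟩
  rw [← hF, ← hF']
  have b1 := Int.emod_nonneg F hp.ne'
  have b2 := Int.emod_lt_of_pos F hp
  have b3 := Int.emod_nonneg F' hp.ne'
  have b4 := Int.emod_lt_of_pos F' hp
  obtain ⟨x, hx⟩ : ∃ x : ℕ, (x : ℤ) = F % (Q + 2) := ⟨(F % (Q + 2)).toNat, Int.toNat_of_nonneg b1⟩
  obtain ⟨x', hx'⟩ : ∃ x' : ℕ, (x' : ℤ) = F' % (Q + 2) :=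
    ⟨(F' % (Q + 2)).toNat, Int.toNat_of_nonneg b3⟩
  rw [← hx, ← hx', Int.toNat_natCast, Int.toNat_natCast]
  rw [← hx] at b2
  rw [← hx'] at b4
  have hx2 : x < Q + 2 := by exact_mod_cast b2
  have hx2' : x' < Q + 2 := by exact_mod_cast b4
  have huniq : σ * (Q + 2) + x = σ' * (Q + 2) + x' → σ = σ' ∧ x = x' := by
    intro h
    have h1 : (σ * (Q + 2) + x) / (Q + 2) = σ := by
      rw [mul_comm, Nat.mul_add_div (by omega), Nat.div_eq_of_lt hx2, add_zero]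
    have h2 : (σ' * (Q + 2) + x') / (Q + 2) = σ' := by
      rw [mul_comm, Nat.mul_add_div (by omega), Nat.div_eq_of_lt hx2', add_zero]
    have h3 : σ = σ' := by rw [← h1, ← h2, h]
    refine ⟨h3, ?_⟩
    rw [h3] at h
    exact Nat.add_left_cancel h
  refine ⟨?_, fun h => (huniq h).1, ?_⟩
  · intro hσ
    rw [mem_range]
    have : (σ + 1) * (Q + 2) ≤ M * (Q + 2) := Nat.mul_le_mul_right _ hσ
    rw [add_mul, one_mul] at this
    omega
  · intro h hc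
    have hxx := (huniq h).2
    have hmod : F % (Q + 2) = F' % (Q + 2) := by rw [← hx, ← hx', hxx]
    -- the floors are close
    have f1 := Int.floor_le (c * Q / s)
    have f2 := Int.lt_floor_add_one (c * Q / s)
    have f3 := Int.floor_le (c' * Q / s)
    have f4 := Int.lt_floor_add_one (c' * Q / s)
    rw [← hF] at f1 f2
    rw [← hF'] at f3 f4
    have hdiff : |c * Q / s - c' * Q / s| ≤ Q := by
      have : c * Q / s - c' * Q / s = (c - c') * (Q / s) := by ring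
      rw [this, abs_mul, abs_of_pos (by positivity : 0 < (Q : ℝ) / s)]
      calc |c - c'| * (Q / s) ≤ s * (Q / s) := mul_le_mul_of_nonneg_right hc (by positivity)
        _ = Q := by field_simp
    rw [abs_le] at hdiff
    have g1 : (F : ℝ) - F' < Q + 1 := by linarith
    have g2 : (F' : ℝ) - F < Q + 1 := by linarith
    have g3 : F - F' < Q + 1 := by exact_mod_cast g1
    have g4 : F' - F < Q + 1 := by exact_mod_cast g2
    have hFF : F = F' := by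
      have d1 : ((Q : ℤ) + 2) ∣ F - F' :=
        Int.ModEq.dvd (n := (Q : ℤ) + 2) (a := F') (b := F) hmod.symm
      obtain ⟨z, hz⟩ := d1
      have hz0 : z = 0 := by
        by_contra hne
        rcases lt_or_gt_of_ne hne with h0 | h0
        · have : z ≤ -1 := by omega
          nlinarith
        · have : 1 ≤ z := by omega
          nlinarith
      rw [hz0, mul_zero] at hz
      omega
    have hlt : |c * Q / s - c' * Q / s| ≤ 1 := by
      rw [abs_le]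
      have : (F : ℝ) = F' := by exact_mod_cast hFF
      constructor <;> linarith
    have e2 : c * Q / s - c' * Q / s = (c - c') * (Q / s) := by ring
    rw [e2, abs_mul, abs_of_pos (by positivity : 0 < (Q : ℝ) / s)] at hlt
    rw [le_div_iff₀ hQ0]
    have h9 : |c - c'| * Q = |c - c'| * (Q / s) * s := by field_simp
    rw [h9]
    calc |c - c'| * (Q / s) * s ≤ 1 * s := mul_le_mul_of_nonneg_right hlt hs.le
      _ = s := one_mul s

lemma finC (X B0 B1 D Yi R1 κ1 κ Z t SV E2 K : ℝ) (hB1 : 0 ≤ B1)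
    (h : X ≤ B0 * D * Yi * Z / t + B1 * (κ1 * Yi + κ) * Z / t)
    (hκ1 : κ1 ≤ R1 * D) (hYi : 0 ≤ Yi) (hSV : D * Yi = SV) (hSV0 : 0 ≤ SV)
    (hκ : κ ≤ 8 * E2) (hZ : 0 ≤ Z) (ht : 0 < t) (hE2 : 0 ≤ E2)
    (hK1 : B0 + B1 * R1 ≤ K) (hK2 : 8 * B1 ≤ K) :
    X ≤ K * (SV + E2) * Z / t := by
  refine h.trans ?_
  rw [← add_div, ← add_mul]
  refine div_le_div_of_nonneg_right (mul_le_mul_of_nonneg_right ?_ hZ) ht.le
  have h1 : B1 * (κ1 * Yi) ≤ B1 * (R1 * SV) := by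
    refine mul_le_mul_of_nonneg_left ?_ hB1
    calc κ1 * Yi ≤ R1 * D * Yi := mul_le_mul_of_nonneg_right hκ1 hYi
      _ = R1 * SV := by rw [mul_assoc, hSV]
  have h2 : B0 * D * Yi = B0 * SV := by rw [mul_assoc, hSV]
  have h3 : B1 * κ ≤ B1 * (8 * E2) := mul_le_mul_of_nonneg_left hκ hB1
  have h4 : (B0 + B1 * R1) * SV ≤ K * SV := mul_le_mul_of_nonneg_right hK1 hSV0
  have h5 : 8 * B1 * E2 ≤ K * E2 := mul_le_mul_of_nonneg_right hK2 hE2
  rw [h2, mul_add]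
  linarith

theorem absmain3 (η C1 P1 : ℝ) (hη : 0 < η) (hC1 : 1 ≤ C1) (hP1 : 0 < P1) :
    ∃ ε : ℝ, 0 < ε ∧ ∀ c0 D0 : ℝ, 0 < c0 → c0 ≤ 1 / 2 → 0 < D0 → ∃ K T1 : ℝ, 0 < K ∧
    ∀ T L : ℝ, 0 < T → 1 ≤ L → T1 ≤ T * L → ∀ (Γ : Finset ℝ) (w : ℝ → ℝ),
      (∀ x ∈ Γ, 1 ≤ w x) → (∑ x ∈ Γ, w x ≤ C1 * (T * L)) →
    ∀ (n : ℕ) (c : Fin n → ℝ) (g : Fin n → ℝ → ℝ) (A : Fin n → Finset ℝ),
      (∀ k, Set.InjOn (g k) Γ) → (∀ k, ∀ x ∈ Γ, 0 < g k x ∧ g k x ≤ T) →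
      (∀ k, ∑ x ∈ Γ, ∑ y ∈ Γ, (if |g k x - g k y| ≤ 1 / L then (1 : ℝ) else 0) ≤
        P1 * (T * L)) →
      (∀ i, A i ⊆ Γ) → (∀ i, η * (T * L) ≤ (A i).card) →
      ∀ i j, i ≠ j → |c j| ≤ |c i| → (∀ k, k ≠ i → |c k| ≤ |c j|) → c j ≠ 0 →
      ∀ s : ℝ, 0 < s → s ≤ |c j| → ∀ (W : Finset (Fin n)) (M : ℕ) (σ : Fin n → ℕ),
      (∀ p ∈ W, σ p < M) →
      (∀ p ∈ W, ∀ q ∈ W, p ≠ q → σ p = σ q → |c p - c q| ≤ s ∧
        K * |c j| ≤ |c p - c q| * (T * L)) →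
      (∀ p ∈ W, ∀ q ∈ W, p ≠ q → σ p = σ q → ∀ v : ℝ, D0 / T ≤ |v * (c p - c q)| →
        |v * (c p - c q)| ≤ c0 * L →
        ‖∑ x ∈ Γ, (w x : ℂ) * cexp (I * ((v * (c p * g p x - c q * g q x) : ℝ) : ℂ))‖ ≤
          ε * (T * L)) → ∀ y : ℝ,
      (((Fintype.piFinset A).filter (fun x : Fin n → ℝ => |∑ k, c k * g k (x k) - y| ≤
        s / L)).card : ℝ) ≤
      K * (s / Real.sqrt (∑ k ∈ univ.erase i, c k ^ 2) +
        Real.exp (M - W.card / K)) * (∏ k, ((A k).card : ℝ)) / (T * L) := by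
  classical
  have hC10 : 0 < C1 := by linarith
  set S := ∑' d : ℤ, 1 / (1 + (d : ℝ) ^ 2) with hS
  have hS0 : 0 ≤ S := tsum_nonneg fun d => by positivity
  set P : ℝ := 3 * S * P1 with hP
  have hP0 : 0 ≤ P := by positivity
  -- the density constants
  obtain ⟨η', hη'⟩ : ∃ η' : ℝ, η' = min (η / C1) 1 := ⟨_, rfl⟩
  have hη'0 : 0 < η' := by rw [hη']; exact lt_min (by positivity) one_pos
  have hη'1 : η' ≤ 1 := by rw [hη']; exact min_le_right _ _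
  have hη'2 : η' ≤ η / C1 := by rw [hη']; exact min_le_left _ _
  obtain ⟨η1, hη1⟩ : ∃ η1 : ℝ, η1 = min η 1 := ⟨_, rfl⟩
  have hη10 : 0 < η1 := by rw [hη1]; exact lt_min hη one_pos
  have hη11 : η1 ≤ 1 := by rw [hη1]; exact min_le_right _ _
  have hη12 : η1 ≤ η := by rw [hη1]; exact min_le_left _ _
  obtain ⟨κ, hκ⟩ : ∃ κ : ℝ, κ = η1 ^ 2 / (76 * (P1 + 1)) := ⟨_, rfl⟩
  have hκ0 : 0 < κ := by rw [hκ]; positivity
  have hκ2 : κ ≤ 1 / 76 := by
    rw [hκ, div_le_div_iff₀ (by positivity) (by norm_num)]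
    have : η1 ^ 2 ≤ 1 := pow_le_one₀ hη10.le hη11
    nlinarith
  obtain ⟨KF, q, ε, hKF, hε, hε1, hclu⟩ := cluster η' hη'0 hη'1
  refine ⟨ε, hε, fun c0 D0 hc0 hc02 hD00 => ?_⟩
  obtain ⟨Q, hQ⟩ : ∃ Q : ℕ, Q = ⌈(KF : ℝ) / c0⌉₊ := ⟨_, rfl⟩
  have hKQ : (KF : ℝ) ≤ c0 * Q := by
    have h1 : (KF : ℝ) / c0 ≤ Q := by rw [hQ]; exact Nat.le_ceil _
    rw [div_le_iff₀ (by positivity)] at h1
    linarith
  have hQ1 : 1 ≤ Q := by
    by_contra h
    have h0 : Q = 0 := by omega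
    rw [h0] at hKQ
    have : (1 : ℝ) ≤ KF := by exact_mod_cast hKF
    norm_num at hKQ
    linarith
  have hpi := Real.pi_pos
  obtain ⟨B0, hB0⟩ : ∃ B0 : ℝ, B0 = 8 * Real.pi / κ := ⟨_, rfl⟩
  obtain ⟨B1, hB1⟩ : ∃ B1 : ℝ, B1 = 88 * P / η' ^ 2 := ⟨_, rfl⟩
  obtain ⟨R1, hR1⟩ : ∃ R1 : ℝ, R1 = 1 / (2 * κ) := ⟨_, rfl⟩
  obtain ⟨G, hG⟩ : ∃ G : ℝ, G = D0 / (2 * Real.pi * κ) := ⟨_, rfl⟩
  have hG0 : 0 ≤ G := by rw [hG]; positivity
  have hGD : D0 ≤ 2 * Real.pi * κ * G := by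
    rw [hG]
    refine le_of_eq ?_
    field_simp
  have hB00 : 0 ≤ B0 := by rw [hB0]; positivity
  have hB10 : 0 ≤ B1 := by rw [hB1]; positivity
  have hR10 : 0 ≤ R1 := by rw [hR1]; positivity
  obtain ⟨K, hK⟩ : ∃ K : ℝ, K = (B0 + B1 * R1) + 8 * B1 + 1 / ε + q * (Q + 2) + G + 1 :=
    ⟨_, rfl⟩
  have s1 : 0 ≤ B0 + B1 * R1 := by positivity
  have s2 : 0 ≤ 8 * B1 := by positivity
  have s3 : 0 ≤ 1 / ε := by positivity
  have s4 : 0 ≤ (q : ℝ) * (Q + 2) := by positivity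
  have hK0 : 0 < K := by rw [hK]; linarith
  have hGK : G ≤ K := by rw [hK]; linarith
  refine ⟨K, 10 / κ, hK0, ?_⟩
  intro T L hT0 hL1 hTL Γ w hw1 hwN0 n c g A hgi hgr hpair hAG hAc i j hij hji hmax hcj s hs0
    hsb W M σ hσM hgap hexp0 y
  have h10 : 10 ≤ κ * (T * L) := by
    rw [div_le_iff₀ hκ0] at hTL; linarith
  have hL0 : 0 < L := by linarith
  have hgA : ∀ k, Set.InjOn (g k) (A k) := fun k => (hgi k).mono (coe_subset.2 (hAG k))
  -- the images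
  obtain ⟨B, hB⟩ : ∃ B : Fin n → Finset ℝ, ∀ k, B k = (A k).image (g k) :=
    ⟨fun k => (A k).image (g k), fun _ => rfl⟩
  have hBc : ∀ k, ((B k).card : ℝ) = (A k).card := fun k => by
    rw [hB, card_image_of_injOn (hgA k)]
  have hBp : ∀ k, ∑ x ∈ B k, ∑ y ∈ B k, (if |x - y| ≤ 1 / L then (1 : ℝ) else 0) ≤
      P1 * (T * L) := fun k => by
    rw [hB]; exact pairs_image Γ (A k) (hAG k) (g k) (hgi k) (hpair k)
  have hPN0 : ∀ k, ∑ x ∈ B k, ∑ y ∈ B k, 1 / (1 + (L * (x - y)) ^ 2) ≤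
      3 * S * (P1 * (T * L)) := fun k => by
    refine (cell (B k) L (by linarith)).trans ?_
    exact mul_le_mul_of_nonneg_left (hBp k) (by positivity)
  have hpA : ∀ k, ∑ x ∈ B k, ∑ y ∈ B k, (if |x - y| ≤ 1 / L then (1 : ℝ) else 0) ≤
      (P1 + 1) * (T * L) := by
    intro k
    refine (hBp k).trans ?_
    have : 0 ≤ T * L := by positivity
    linarith
  obtain ⟨t, ht⟩ : ∃ t : ℝ, t = T * L := ⟨_, rfl⟩
  have ht0 : 0 < t := by rw [ht]; positivity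
  obtain ⟨N, hN⟩ : ∃ N : ℝ, N = C1 * t := ⟨_, rfl⟩
  have hN0 : 0 < N := by rw [hN]; positivity
  have htN : t ≤ N := by rw [hN]; exact le_mul_of_one_le_left ht0.le hC1
  have hwN : ∑ x ∈ Γ, w x ≤ N := by rw [hN, ht]; exact hwN0
  have hPN : ∀ k, ∑ x ∈ B k, ∑ y ∈ B k, 1 / (1 + (L * (x - y)) ^ 2) ≤ P * N := by
    intro k
    refine (hPN0 k).trans ?_
    rw [← ht, hP, mul_assoc (3 * S)]
    exact mul_le_mul_of_nonneg_left (mul_le_mul_of_nonneg_left htN hP1.le) (by positivity)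
  have hAη : ∀ k, η' * N ≤ (A k).card := by
    intro k
    refine le_trans ?_ (hAc k)
    calc η' * N ≤ η / C1 * N := mul_le_mul_of_nonneg_right hη'2 hN0.le
      _ = η * (T * L) := by rw [hN, ht]; field_simp
  have hBη : ∀ k, η' * N ≤ (B k).card := fun k => by rw [hBc]; exact hAη k
  have hone : ∀ k, ∀ v : ℝ, |v| ≤ κ * L → ‖Sx (B k) (2 * Real.pi * v)‖ ≤
      (B k).card * Real.exp (-(2 * κ ^ 2 * min 1 ((v * T) ^ 2))) := by
    intro k v hv
    refine one (B k) L T (P1 + 1) η1 κ hL0 hT0 (by linarith) hη10 hκ (by linarith) h10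
      ?_ (hpA k) ?_ v hv
    · intro z hz
      rw [hB] at hz
      obtain ⟨x, hx, rfl⟩ := mem_image.1 hz
      exact hgr k x (hAG k hx)
    · rw [hBc]
      refine le_trans ?_ (hAc k)
      exact mul_le_mul_of_nonneg_right hη12 (by positivity)
  have hb : 0 < |c j| := abs_pos.2 hcj
  obtain ⟨m, hm⟩ : ∃ m : ℕ, m = W.card := ⟨_, rfl⟩
  rw [← hm]
  have hct := card_tuples A g hgA c y (s / L)
  have hBf : (fun k => (A k).image (g k)) = B := by funext k; rw [hB]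
  rw [hBf] at hct
  refine hct.trans ?_
  clear hct
  have hpc : ∏ k, ((A k).card : ℝ) = ∏ k, ((B k).card : ℝ) :=
    prod_congr rfl fun k _ => (hBc k).symm
  rw [hpc]
  obtain ⟨V, hV⟩ : ∃ V : ℝ, V = Real.sqrt (∑ k ∈ univ.erase i, c k ^ 2) := ⟨_, rfl⟩
  have hV0 : 0 ≤ V := by rw [hV]; exact Real.sqrt_nonneg _
  rw [← hV]
  obtain ⟨Z, hZ⟩ : ∃ Z : ℝ, Z = ∏ k, ((B k).card : ℝ) := ⟨_, rfl⟩
  have hZ0 : 0 ≤ Z := by rw [hZ]; exact prod_nonneg fun _ _ => Nat.cast_nonneg _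
  have hA1 : ∀ k, A k ⊆ Γ ∧ η' * N ≤ (A k).card := fun k => ⟨hAG k, hAη k⟩
  obtain ⟨rest, hrest⟩ : ∃ rest : Finset (Fin n), rest = (univ.erase i).erase j := ⟨_, rfl⟩
  obtain ⟨VV, hVV⟩ : ∃ VV : Finset (Fin n), VV = (W.erase i).erase j := ⟨_, rfl⟩
  have hVsub : VV ⊆ rest := by
    rw [hVV, hrest]
    exact erase_subset_erase _ (erase_subset_erase _ (subset_univ _))
  have hVc : m ≤ VV.card + 2 := by
    rw [hm, hVV]
    have h1 := pred_card_le_card_erase (s := W) (a := i)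
    have h2 := pred_card_le_card_erase (s := W.erase i) (a := j)
    omega
  have hVW : ∀ v ∈ VV, v ∈ W := by
    intro v hv
    rw [hVV] at hv
    exact (mem_erase.1 (mem_erase.1 hv).2).2
  obtain ⟨κc, hκc⟩ : ∃ κc : ℝ, κc = (1 - ε) ^ (VV.card - q * (M * (Q + 2))) := ⟨_, rfl⟩
  have hκc0 : 0 ≤ κc := by rw [hκc]; exact pow_nonneg (by linarith) _
  have hκcs : κc ≤ 8 * Real.exp (M - m / K) := by
    have e1 : q * (M * (Q + 2)) = (q * (Q + 2)) * M := by ring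
    rw [hκc, e1]
    refine sav4 ε K hε hε1 (by rw [hK]; linarith) (q * (Q + 2)) m VV.card M ?_ hVc
    push_cast
    rw [hK]; linarith
  have hY1 : 1 ≤ |c j| / s := by
    rw [le_div_iff₀ hs0, one_mul]; exact hsb
  obtain ⟨κ1, hκ10, hκ1D, hst⟩ := stepB c B N P L T η' κ (|c j| / s) κc y t
    (s / L) hL0 hT0 ht htN hP0 hη'0 hκ0 hκ2 h10 hPN hBη i j hij hji hmax hb hY1
    hκc0 (le_of_eq (by field_simp)) hone (by
      intro u hu1 hu2
      rw [← hrest, hκc]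
      have e1 : ∀ k ∈ rest, ‖Sx (B k) (2 * Real.pi * c k * u)‖ =
          ‖Sf (A k) (fun x => 2 * Real.pi * c k * u * g k x)‖ := by
        intro k _
        rw [hB, Sx_image (A k) (g k) (hgA k)]
      have e2 : ∀ k ∈ rest, ((B k).card : ℝ) = (A k).card := fun k _ => hBc k
      rw [prod_congr rfl e1, prod_congr rfl e2]
      refine step2g A (fun k x => 2 * Real.pi * c k * u * g k x) Γ w N η' ε KF q hN0 hw1 hwN
        hε hε1 hclu hA1 rest VV hVsub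
        (fun k => σ k * (Q + 2) + (⌊c k * Q / s⌋ % (Q + 2)).toNat) (M * (Q + 2))
        (fun v hv => (cells s (c v) 0 Q (σ v) 0 M hs0 hQ1).1 (hσM v (hVW v hv))) ?_
      intro a ha a' ha' haa hcell k hk hkK
      have hσσ : σ a = σ a' := (cells s (c a) (c a') Q (σ a) (σ a') M hs0 hQ1).2.1 hcell
      obtain ⟨hn1, hn2⟩ := hgap a (hVW a ha) a' (hVW a' ha') haa hσσ
      have hnear : |c a - c a'| ≤ s / Q :=
        (cells s (c a) (c a') Q (σ a) (σ a') M hs0 hQ1).2.2 hcell hn1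
      have hg : G * |c j| ≤ |c a - c a'| * (T * L) :=
        le_trans (mul_le_mul_of_nonneg_right hGK hb.le) hn2
      obtain ⟨f1, f2⟩ := freq4 |c j| s L T (c a - c a') u κ c0 D0 G KF Q hb hs0 hL1 hT0 hQ1
        hκ0 hKQ hg hnear hu1 hu2 hGD k hk hkK
      have h3 := hexp0 a (hVW a ha) a' (hVW a' ha') haa hσσ (2 * Real.pi * k * u) f1 f2
      rw [← ht] at h3
      have e4 : ∀ x ∈ Γ, (w x : ℂ) * cexp (I * ((k * (2 * Real.pi * c a * u * g a x -
          2 * Real.pi * c a' * u * g a' x) : ℝ) : ℂ)) = (w x : ℂ) *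
          cexp (I * ((2 * Real.pi * k * u * (c a * g a x - c a' * g a' x) : ℝ) : ℂ)) := by
        intro x _
        have : (k : ℝ) * (2 * Real.pi * c a * u * g a x - 2 * Real.pi * c a' * u * g a' x) =
            2 * Real.pi * k * u * (c a * g a x - c a' * g a' x) := by ring
        rw [this]
      rw [sum_congr rfl e4]
      exact h3.trans (mul_le_mul_of_nonneg_left htN hε.le))
  rw [← hV, ← hR1] at hκ1D
  rw [← hV, ← hZ, ← hB0, ← hB1] at hst
  rw [← hZ, ← ht]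
  refine finC _ B0 B1 (|c j| / V) (1 / (|c j| / s)) R1 κ1 κc Z t (s / V) _ K hB10 hst hκ1D
    (by positivity) (by field_simp) (by positivity) hκcs hZ0 ht0 (Real.exp_pos _).le
    (by rw [hK]; linarith) (by rw [hK]; linarith)

end Pool.Agent.TH801.LG
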