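import Pool.Agent.TH801.LG.Dls
import Pool.Agent.TH801.LG.Abs3

/-! The counting theorem with equal sets. -/

set_option autoImplicit false

open Finset MeasureTheory Complex
open scoped ComplexConjugate

namespace Pool.Agent.TH801.LG

open Pool.Agent.TH801.LU
open Pool.Agent.TH801.LR (Sx Sx_le Sx_sq cell)

lemma freq5 (b s L T d u κ c0 D G : ℝ) (hb : 0 < b) (hs : 0 < s) (hL : 1 ≤ L)
    (hT : 0 < T) (hκ : 0 < κ) (hc0 : 0 < c0)
    (hgap : G * b ≤ |d| * (T * L)) (hnear : |d| ≤ s) (hu1 : κ * L / b < |u|)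
    (hu2 : |u| ≤ L / (2 * Real.pi * b) * (c0 * b / s)) (hG : D ≤ 2 * Real.pi * κ * G) :
    D / T ≤ |2 * Real.pi * u * d| ∧ |2 * Real.pi * u * d| ≤ c0 * L := by
  have hpi := Real.pi_pos
  have hL0 : 0 < L := by linarith
  have e1 : |2 * Real.pi * u * d| = 2 * Real.pi * (|d| * |u|) := by
    have : 2 * Real.pi * u * d = 2 * Real.pi * (d * u) := by ring
    rw [this, abs_mul, abs_mul d, abs_of_pos (by positivity : 0 < 2 * Real.pi)]
  rw [e1]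
  constructor
  · have h1 : |d| * (κ * L / b) ≤ |d| * |u| := mul_le_mul_of_nonneg_left hu1.le (abs_nonneg _)
    have h2 : D / T ≤ 2 * Real.pi * (|d| * (κ * L / b)) := by
      rw [div_le_iff₀ hT]
      calc D ≤ 2 * Real.pi * κ * G := hG
        _ = 2 * Real.pi * κ / b * (G * b) := by field_simp
        _ ≤ 2 * Real.pi * κ / b * (|d| * (T * L)) :=
            mul_le_mul_of_nonneg_left hgap (by positivity)
        _ = _ := by field_simp
    exact h2.trans (mul_le_mul_of_nonneg_left h1 (by positivity))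
  · have h1 : |d| * |u| ≤ s * (L / (2 * Real.pi * b) * (c0 * b / s)) :=
      mul_le_mul hnear hu2 (abs_nonneg _) hs.le
    have h2 : 2 * Real.pi * (s * (L / (2 * Real.pi * b) * (c0 * b / s))) = c0 * L := by
      field_simp
    rw [← h2]; exact mul_le_mul_of_nonneg_left h1 (by positivity)

lemma finD (X B0 B1 D Yi R1 κ1 κ Z t SV : ℝ) (hB1 : 0 ≤ B1)
    (h : X ≤ B0 * D * Yi * Z / t + B1 * (κ1 * Yi + κ) * Z / t)
    (hκ1 : κ1 ≤ R1 * D) (hYi : 0 ≤ Yi) (hSV : D * Yi = SV) (hZ : 0 ≤ Z) (ht : 0 < t) :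
    X ≤ ((B0 + B1 * R1) * SV + B1 * κ) * Z / t := by
  refine h.trans ?_
  rw [← add_div, ← add_mul]
  refine div_le_div_of_nonneg_right (mul_le_mul_of_nonneg_right ?_ hZ) ht.le
  have h1 : B1 * (κ1 * Yi) ≤ B1 * (R1 * SV) := by
    refine mul_le_mul_of_nonneg_left ?_ hB1
    calc κ1 * Yi ≤ R1 * D * Yi := mul_le_mul_of_nonneg_right hκ1 hYi
      _ = R1 * SV := by rw [mul_assoc, hSV]
  have h2 : B0 * D * Yi = B0 * SV := by rw [mul_assoc, hSV]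
  rw [h2, mul_add]
  linarith

/-- product over classes of equal size -/
lemma classes {n : ℕ} (R W : Finset (Fin n)) (hW : W ⊆ R) (σ : Fin n → ℕ) (M m : ℕ)
    (hσ : ∀ p ∈ W, σ p < M) (F G : Fin n → ℝ) (θ : ℝ) (hθ : 0 ≤ θ) (hF : ∀ k, 0 ≤ F k)
    (hFG : ∀ k, F k ≤ G k)
    (h : ∀ l ∈ range M, ∏ k ∈ W.filter (fun p => σ p = l), F k ≤
      θ ^ m * ∏ k ∈ W.filter (fun p => σ p = l), G k) :
    ∏ k ∈ R, F k ≤ θ ^ (m * M) * ∏ k ∈ R, G k := by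
  classical
  have hf : ∀ p ∈ W, σ p ∈ range M := fun p hp => mem_range.2 (hσ p hp)
  have h1 : ∏ k ∈ W, F k ≤ θ ^ (m * M) * ∏ k ∈ W, G k := by
    rw [← prod_fiberwise_of_maps_to hf F, ← prod_fiberwise_of_maps_to hf G]
    refine (prod_le_prod (fun y _ => prod_nonneg fun v _ => hF v) h).trans (le_of_eq ?_)
    rw [prod_mul_distrib, prod_const, card_range, ← pow_mul]
  have hG : ∀ k, 0 ≤ G k := fun k => (hF k).trans (hFG k)
  rw [← prod_sdiff hW, ← prod_sdiff (f := G) hW]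
  have h2 : ∏ k ∈ R \ W, F k ≤ ∏ k ∈ R \ W, G k := prod_le_prod (fun k _ => hF k) fun k _ => hFG k
  calc (∏ k ∈ R \ W, F k) * ∏ k ∈ W, F k ≤
      (∏ k ∈ R \ W, G k) * (θ ^ (m * M) * ∏ k ∈ W, G k) :=
        mul_le_mul h2 h1 (prod_nonneg fun k _ => hF k) (prod_nonneg fun k _ => hG k)
    _ = _ := by ring

/-- one class -/
lemma one_class {n : ℕ} (Γ : Finset ℝ) (w : ℝ → ℝ) (N η' : ℝ) (m : ℕ) (hm : 1 ≤ m)
    (hN : 0 < N) (hη : 0 < η') (hw : ∀ x ∈ Γ, 1 ≤ w x) (hwN : ∑ x ∈ Γ, w x ≤ N)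
    (A : Fin n → Finset ℝ) (φ : Fin n → ℝ → ℝ) (J : Finset (Fin n)) (hJ : J.card = m)
    (hA : ∀ k ∈ J, A k ⊆ Γ) (hAη : ∀ k ∈ J, η' * N ≤ (A k).card)
    (heq : ∀ p ∈ J, ∀ q ∈ J, A p = A q)
    (h : ∀ a ∈ J, ∀ b ∈ J, a ≠ b →
      ‖∑ x ∈ Γ, (w x : ℂ) * cexp (I * ((φ a x - φ b x : ℝ) : ℂ))‖ ≤ 1 / m * N) :
    ∏ k ∈ J, ‖Sf (A k) (φ k)‖ ≤ Real.sqrt (2 / (η' * m)) ^ m * ∏ k ∈ J, ((A k).card : ℝ) := by
  classical
  have hm0 : (0 : ℝ) < m := by exact_mod_cast hm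
  obtain ⟨p, hp⟩ : J.Nonempty := card_pos.1 (by omega)
  obtain ⟨A0, hA0⟩ : ∃ A0 : Finset ℝ, A0 = A p := ⟨_, rfl⟩
  have hAk : ∀ k ∈ J, A k = A0 := fun k hk => by rw [hA0]; exact heq k hk p hp
  have h1 := dual_sieve Γ A0 (by rw [hA0]; exact hA p hp) w N (1 / m) hN.le (by positivity) hw
    hwN J φ h
  have h2 : ∏ k ∈ J, ‖Sf (A k) (φ k)‖ = ∏ k ∈ J, ‖Sf A0 (φ k)‖ :=
    prod_congr rfl fun k hk => by rw [hAk k hk]
  have h3 : ∏ k ∈ J, ((A k).card : ℝ) = ((A0).card : ℝ) ^ m := by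
    rw [prod_congr rfl fun k hk => by rw [hAk k hk], prod_const, hJ]
  rw [h2, h3, ← mul_pow]
  have hc0 : η' * N ≤ (A0.card : ℝ) := by rw [hA0]; exact hAη p hp
  have hc1 : 0 < (A0.card : ℝ) := lt_of_lt_of_le (by positivity) hc0
  refine am_gm J (fun k => ‖Sf A0 (φ k)‖) m hm hJ _ (h1.trans ?_)
    (mul_nonneg (Real.sqrt_nonneg _) hc1.le)
  rw [mul_pow, Real.sq_sqrt (by positivity), hJ]
  have e1 : (1 : ℝ) + m * (1 / m) = 2 := by field_simp; norm_num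
  rw [e1]
  have e2 : (m : ℝ) * (2 / (η' * m) * (A0.card : ℝ) ^ 2) = 2 * (A0.card / η') * A0.card := by
    field_simp
  rw [e2]
  have h4 : N ≤ A0.card / η' := by
    rw [le_div_iff₀ hη]; linarith
  calc (A0.card : ℝ) * (N * 2) = 2 * N * A0.card := by ring
    _ ≤ 2 * (A0.card / η') * A0.card := by gcongr

theorem absmainB (C1 P1 : ℝ) (hC1 : 1 ≤ C1) (hP1 : 0 < P1) : ∃ C : ℝ, 0 < C ∧
    ∀ (η : ℝ) (m : ℕ), 0 < η → 1 ≤ m →
    ∀ c0 D0 : ℝ, 0 < c0 → c0 ≤ 1 / 2 → 0 < D0 → ∃ K T1 : ℝ, 0 < K ∧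
    ∀ T L : ℝ, 0 < T → 1 ≤ L → T1 ≤ T * L → ∀ (Γ : Finset ℝ) (w : ℝ → ℝ),
      (∀ x ∈ Γ, 1 ≤ w x) → (∑ x ∈ Γ, w x ≤ C1 * (T * L)) →
    ∀ (n : ℕ) (c : Fin n → ℝ) (g : Fin n → ℝ → ℝ) (A : Fin n → Finset ℝ),
      (∀ k, Set.InjOn (g k) Γ) → (∀ k, ∀ x ∈ Γ, 0 < g k x ∧ g k x ≤ T) →
      (∀ k, ∑ x ∈ Γ, ∑ y ∈ Γ, (if |g k x - g k y| ≤ 1 / L then (1 : ℝ) else 0) ≤
        P1 * (T * L)) →
      (∀ i, A i ⊆ Γ) → (∀ i, η * (T * L) ≤ (A i).card) →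
      ∀ i j, i ≠ j → |c j| ≤ |c i| → (∀ k, k ≠ i → |c k| ≤ |c j|) → c j ≠ 0 →
      ∀ s : ℝ, 0 < s → K * s ≤ |c j| → ∀ (W : Finset (Fin n)) (M : ℕ) (σ : Fin n → ℕ),
      i ∉ W → j ∉ W → (∀ p ∈ W, σ p < M) →
      (∀ l, l < M → (W.filter (fun p => σ p = l)).card = m) →
      (∀ p ∈ W, ∀ q ∈ W, p ≠ q → σ p = σ q → A p = A q ∧ |c p - c q| ≤ s ∧
        K * |c j| ≤ |c p - c q| * (T * L)) →
      (∀ p ∈ W, ∀ q ∈ W, p ≠ q → σ p = σ q → ∀ v : ℝ, D0 / T ≤ |v * (c p - c q)| →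
        |v * (c p - c q)| ≤ c0 * L →
        ‖∑ x ∈ Γ, (w x : ℂ) * cexp (I * ((v * (c p * g p x - c q * g q x) : ℝ) : ℂ))‖ ≤
          1 / m * (T * L)) → ∀ y : ℝ,
      (((Fintype.piFinset A).filter (fun x : Fin n → ℝ => |∑ k, c k * g k (x k) - y| ≤
        s / L)).card : ℝ) ≤
      (K * s / Real.sqrt (∑ k ∈ univ.erase i, c k ^ 2) +
        C / η ^ 2 * Real.sqrt (C / (η * m)) ^ (m * M)) * (∏ k, ((A k).card : ℝ)) / (T * L) := by
  classical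
  have hC10 : 0 < C1 := by linarith
  set S := ∑' d : ℤ, 1 / (1 + (d : ℝ) ^ 2) with hS
  have hS0 : 0 ≤ S := tsum_nonneg fun d => by positivity
  set P : ℝ := 3 * S * P1 with hP
  have hP0 : 0 ≤ P := by positivity
  obtain ⟨C, hC⟩ : ∃ C : ℝ, C = 88 * P * C1 ^ 2 + 2 * C1 := ⟨_, rfl⟩
  have hCa : 88 * P * C1 ^ 2 ≤ C := by rw [hC]; linarith
  have hCb : 2 * C1 ≤ C := by
    have : 0 ≤ 88 * P * C1 ^ 2 := by positivity
    rw [hC]; linarith
  have hC0 : 0 < C := by linarith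
  refine ⟨C, hC0, fun η m hη hm1 c0 D0 hc0 hc02 hD00 => ?_⟩
  have hm0 : (0 : ℝ) < m := by exact_mod_cast hm1
  -- the density constants
  obtain ⟨η', hη'⟩ : ∃ η' : ℝ, η' = η / C1 := ⟨_, rfl⟩
  have hη'0 : 0 < η' := by rw [hη']; positivity
  have hη'2 : η' ≤ η / C1 := hη'.le
  obtain ⟨η1, hη1⟩ : ∃ η1 : ℝ, η1 = min η 1 := ⟨_, rfl⟩
  have hη10 : 0 < η1 := by rw [hη1]; exact lt_min hη one_pos
  have hη11 : η1 ≤ 1 := by rw [hη1]; exact min_le_right _ _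
  have hη12 : η1 ≤ η := by rw [hη1]; exact min_le_left _ _
  obtain ⟨κ, hκ⟩ : ∃ κ : ℝ, κ = η1 ^ 2 / (76 * (P1 + 1)) := ⟨_, rfl⟩
  have hκ0 : 0 < κ := by rw [hκ]; positivity
  have hκ2 : κ ≤ 1 / 76 := by
    rw [hκ, div_le_div_iff₀ (by positivity) (by norm_num)]
    have : η1 ^ 2 ≤ 1 := pow_le_one₀ hη10.le hη11
    nlinarith
  have hpi := Real.pi_pos
  obtain ⟨B0, hB0⟩ : ∃ B0 : ℝ, B0 = 8 * Real.pi / κ := ⟨_, rfl⟩
  obtain ⟨B1, hB1⟩ : ∃ B1 : ℝ, B1 = 88 * P / η' ^ 2 := ⟨_, rfl⟩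
  obtain ⟨R1, hR1⟩ : ∃ R1 : ℝ, R1 = 1 / (2 * κ) := ⟨_, rfl⟩
  obtain ⟨G, hG⟩ : ∃ G : ℝ, G = D0 / (2 * Real.pi * κ) := ⟨_, rfl⟩
  have hG0 : 0 ≤ G := by rw [hG]; positivity
  have hGD : D0 ≤ 2 * Real.pi * κ * G := by
    rw [hG]
    refine le_of_eq ?_
    field_simp
  have hB00 : 0 ≤ B0 := by rw [hB0]; positivity
  have hB10 : 0 ≤ B1 := by rw [hB1]; positivity
  have hR10 : 0 ≤ R1 := by rw [hR1]; positivity
  obtain ⟨K, hK⟩ : ∃ K : ℝ, K = (B0 + B1 * R1) / c0 + 1 / c0 + G := ⟨_, rfl⟩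
  have s1 : 0 ≤ (B0 + B1 * R1) / c0 := by positivity
  have s3 : 0 < 1 / c0 := by positivity
  have hK0 : 0 < K := by rw [hK]; linarith
  have hGK : G ≤ K := by rw [hK]; linarith
  have hK1 : (B0 + B1 * R1) / c0 ≤ K := by rw [hK]; linarith
  have hK2 : 1 / c0 ≤ K := by rw [hK]; linarith
  refine ⟨K, 10 / κ, hK0, ?_⟩
  intro T L hT0 hL1 hTL Γ w hw1 hwN0 n c g A hgi hgr hpair hAG hAc i j hij hji hmax hcj s hs0
    hsb W M σ hiW hjW hσM hWm hgap hexp0 y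
  have h10 : 10 ≤ κ * (T * L) := by
    rw [div_le_iff₀ hκ0] at hTL; linarith
  have hL0 : 0 < L := by linarith
  have hgA : ∀ k, Set.InjOn (g k) (A k) := fun k => (hgi k).mono (coe_subset.2 (hAG k))
  -- the images
  obtain ⟨B, hB⟩ : ∃ B : Fin n → Finset ℝ, ∀ k, B k = (A k).image (g k) :=
    ⟨fun k => (A k).image (g k), fun _ => rfl⟩
  have hBc : ∀ k, ((B k).card : ℝ) = (A k).card := fun k => by
    rw [hB, card_image_of_injOn (hgA k)]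
  have hBp : ∀ k, ∑ x ∈ B k, ∑ y ∈ B k, (if |x - y| ≤ 1 / L then (1 : ℝ) else 0) ≤
      P1 * (T * L) := fun k => by
    rw [hB]; exact pairs_image Γ (A k) (hAG k) (g k) (hgi k) (hpair k)
  have hPN0 : ∀ k, ∑ x ∈ B k, ∑ y ∈ B k, 1 / (1 + (L * (x - y)) ^ 2) ≤
      3 * S * (P1 * (T * L)) := fun k => by
    refine (cell (B k) L (by linarith)).trans ?_
    exact mul_le_mul_of_nonneg_left (hBp k) (by positivity)
  have hpA : ∀ k, ∑ x ∈ B k, ∑ y ∈ B k, (if |x - y| ≤ 1 / L then (1 : ℝ) else 0) ≤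
      (P1 + 1) * (T * L) := by
    intro k
    refine (hBp k).trans ?_
    have : 0 ≤ T * L := by positivity
    linarith
  obtain ⟨t, ht⟩ : ∃ t : ℝ, t = T * L := ⟨_, rfl⟩
  have ht0 : 0 < t := by rw [ht]; positivity
  obtain ⟨N, hN⟩ : ∃ N : ℝ, N = C1 * t := ⟨_, rfl⟩
  have hN0 : 0 < N := by rw [hN]; positivity
  have htN : t ≤ N := by rw [hN]; exact le_mul_of_one_le_left ht0.le hC1
  have hwN : ∑ x ∈ Γ, w x ≤ N := by rw [hN, ht]; exact hwN0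
  have hPN : ∀ k, ∑ x ∈ B k, ∑ y ∈ B k, 1 / (1 + (L * (x - y)) ^ 2) ≤ P * N := by
    intro k
    refine (hPN0 k).trans ?_
    rw [← ht, hP, mul_assoc (3 * S)]
    exact mul_le_mul_of_nonneg_left (mul_le_mul_of_nonneg_left htN hP1.le) (by positivity)
  have hAη : ∀ k, η' * N ≤ (A k).card := by
    intro k
    refine le_trans ?_ (hAc k)
    calc η' * N ≤ η / C1 * N := mul_le_mul_of_nonneg_right hη'2 hN0.le
      _ = η * (T * L) := by rw [hN, ht]; field_simp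
  have hBη : ∀ k, η' * N ≤ (B k).card := fun k => by rw [hBc]; exact hAη k
  have hone : ∀ k, ∀ v : ℝ, |v| ≤ κ * L → ‖Sx (B k) (2 * Real.pi * v)‖ ≤
      (B k).card * Real.exp (-(2 * κ ^ 2 * min 1 ((v * T) ^ 2))) := by
    intro k v hv
    refine one (B k) L T (P1 + 1) η1 κ hL0 hT0 (by linarith) hη10 hκ (by linarith) h10
      ?_ (hpA k) ?_ v hv
    · intro z hz
      rw [hB] at hz
      obtain ⟨x, hx, rfl⟩ := mem_image.1 hz
      exact hgr k x (hAG k hx)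
    · rw [hBc]
      refine le_trans ?_ (hAc k)
      exact mul_le_mul_of_nonneg_right hη12 (by positivity)
  have hb : 0 < |c j| := abs_pos.2 hcj
  have hct := card_tuples A g hgA c y (s / L)
  have hBf : (fun k => (A k).image (g k)) = B := by funext k; rw [hB]
  rw [hBf] at hct
  refine hct.trans ?_
  clear hct
  have hpc : ∏ k, ((A k).card : ℝ) = ∏ k, ((B k).card : ℝ) :=
    prod_congr rfl fun k _ => (hBc k).symm
  rw [hpc]
  obtain ⟨V, hV⟩ : ∃ V : ℝ, V = Real.sqrt (∑ k ∈ univ.erase i, c k ^ 2) := ⟨_, rfl⟩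
  have hV0 : 0 ≤ V := by rw [hV]; exact Real.sqrt_nonneg _
  rw [← hV]
  obtain ⟨Z, hZ⟩ : ∃ Z : ℝ, Z = ∏ k, ((B k).card : ℝ) := ⟨_, rfl⟩
  have hZ0 : 0 ≤ Z := by rw [hZ]; exact prod_nonneg fun _ _ => Nat.cast_nonneg _
  obtain ⟨rest, hrest⟩ : ∃ rest : Finset (Fin n), rest = (univ.erase i).erase j := ⟨_, rfl⟩
  have hVsub : W ⊆ rest := by
    intro k hk
    rw [hrest]
    refine mem_erase.2 ⟨fun h => hjW (h ▸ hk), mem_erase.2 ⟨fun h => hiW (h ▸ hk), mem_univ k⟩⟩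
  obtain ⟨θ, hθ⟩ : ∃ θ : ℝ, θ = Real.sqrt (2 / (η' * m)) := ⟨_, rfl⟩
  have hθ0 : 0 ≤ θ := by rw [hθ]; exact Real.sqrt_nonneg _
  have hθC : θ ≤ Real.sqrt (C / (η * m)) := by
    rw [hθ]
    apply Real.sqrt_le_sqrt
    have e1 : 2 / (η' * m) = 2 * C1 / (η * m) := by rw [hη']; field_simp
    rw [e1]
    exact div_le_div_of_nonneg_right hCb (by positivity)
  obtain ⟨κc, hκc⟩ : ∃ κc : ℝ, κc = θ ^ (m * M) := ⟨_, rfl⟩
  have hκc0 : 0 ≤ κc := by rw [hκc]; exact pow_nonneg hθ0 _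
  have hκcs : κc ≤ Real.sqrt (C / (η * m)) ^ (m * M) := by
    rw [hκc]; exact pow_le_pow_left₀ hθ0 hθC _
  have hsb2 : s ≤ c0 * |c j| := by
    have h1 := mul_le_mul_of_nonneg_right hK2 hs0.le
    have h2 := h1.trans hsb
    rw [div_mul_eq_mul_div, one_mul, div_le_iff₀ hc0] at h2
    linarith
  have hY1 : 1 ≤ c0 * |c j| / s := by
    rw [le_div_iff₀ hs0, one_mul]; exact hsb2
  obtain ⟨κ1, hκ10, hκ1D, hst⟩ := stepB c B N P L T η' κ (c0 * |c j| / s) κc y t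
    (s / L) hL0 hT0 ht htN hP0 hη'0 hκ0 hκ2 h10 hPN hBη i j hij hji hmax hb hY1
    hκc0 (by
      rw [div_le_div_iff₀ hL0 (by positivity)]
      have e1 : s * (L * (c0 * |c j| / s)) = c0 * (|c j| * L) := by field_simp
      rw [e1]
      have h1 : 0 ≤ |c j| * L := by positivity
      exact mul_le_of_le_one_left h1 (by linarith)) hone (by
      intro u hu1 hu2
      rw [← hrest, hκc]
      have e1 : ∀ k ∈ rest, ‖Sx (B k) (2 * Real.pi * c k * u)‖ =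
          ‖Sf (A k) (fun x => 2 * Real.pi * c k * u * g k x)‖ := by
        intro k _
        rw [hB, Sx_image (A k) (g k) (hgA k)]
      have e2 : ∀ k ∈ rest, ((B k).card : ℝ) = (A k).card := fun k _ => hBc k
      rw [prod_congr rfl e1, prod_congr rfl e2]
      refine classes rest W hVsub σ M m hσM
        (fun k => ‖Sf (A k) (fun x => 2 * Real.pi * c k * u * g k x)‖)
        (fun k => ((A k).card : ℝ)) θ hθ0 (fun k => norm_nonneg _) (fun k => Sf_le _ _) ?_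
      intro l hl
      have hl2 := mem_range.1 hl
      rw [hθ]
      refine one_class Γ w N η' m hm1 hN0 hη'0 hw1 hwN A
        (fun k x => 2 * Real.pi * c k * u * g k x) (W.filter (fun p => σ p = l)) (hWm l hl2)
        (fun k _ => hAG k) (fun k _ => hAη k) ?_ ?_
      · intro p hp q hq
        rw [mem_filter] at hp hq
        by_cases hpq : p = q
        · rw [hpq]
        · exact (hgap p hp.1 q hq.1 hpq (hp.2.trans hq.2.symm)).1
      · intro a ha a' ha' haa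
        rw [mem_filter] at ha ha'
        have hσσ : σ a = σ a' := ha.2.trans ha'.2.symm
        obtain ⟨_, hn1, hn2⟩ := hgap a ha.1 a' ha'.1 haa hσσ
        have hg : G * |c j| ≤ |c a - c a'| * (T * L) :=
          le_trans (mul_le_mul_of_nonneg_right hGK hb.le) hn2
        obtain ⟨f1, f2⟩ := freq5 |c j| s L T (c a - c a') u κ c0 D0 G hb hs0 hL1 hT0
          hκ0 hc0 hg hn1 hu1 hu2 hGD
        have h3 := hexp0 a ha.1 a' ha'.1 haa hσσ (2 * Real.pi * u) f1 f2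
        rw [← ht] at h3
        have e4 : ∀ x ∈ Γ, (w x : ℂ) * cexp (I * ((2 * Real.pi * c a * u * g a x -
            2 * Real.pi * c a' * u * g a' x : ℝ) : ℂ)) = (w x : ℂ) *
            cexp (I * ((2 * Real.pi * u * (c a * g a x - c a' * g a' x) : ℝ) : ℂ)) := by
          intro x _
          have : 2 * Real.pi * c a * u * g a x - 2 * Real.pi * c a' * u * g a' x =
              2 * Real.pi * u * (c a * g a x - c a' * g a' x) := by ring
          rw [this]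
        rw [sum_congr rfl e4]
        exact h3.trans (mul_le_mul_of_nonneg_left htN (by positivity)))
  rw [← hV, ← hR1] at hκ1D
  rw [← hV, ← hZ, ← hB0, ← hB1] at hst
  rw [← hZ, ← ht]
  have hfin := finD _ B0 B1 (|c j| / V) (1 / (c0 * |c j| / s)) R1 κ1 κc Z t (s / V / c0) hB10 hst
    hκ1D (by positivity) (by field_simp) hZ0 ht0
  refine hfin.trans ?_
  refine div_le_div_of_nonneg_right (mul_le_mul_of_nonneg_right (add_le_add ?_ ?_) hZ0) ht0.le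
  · have h1 : (B0 + B1 * R1) * (s / V / c0) = (B0 + B1 * R1) / c0 * (s / V) := by ring
    rw [h1, mul_div_assoc]
    exact mul_le_mul_of_nonneg_right hK1 (by positivity)
  · have h1 : B1 ≤ C / η ^ 2 := by
      rw [hB1, hη']
      have : 88 * P / (η / C1) ^ 2 = 88 * P * C1 ^ 2 / η ^ 2 := by field_simp
      rw [this]
      exact div_le_div_of_nonneg_right hCa (by positivity)
    exact mul_le_mul h1 hκcs hκc0 (by positivity)

end Pool.Agent.TH801.LG
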