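import Pool.Agent.TH801.LR.Clu2

/-! Exponential sums with general phases over subsets of a well distributed set. -/

set_option autoImplicit false

open Finset Complex
open scoped ComplexConjugate

namespace Pool.Agent.TH801.LG

open Pool.Agent.TH801.LR (norm_ex pow_sub_one_le dir_low double_count)

/-- exponential sum with a general phase over a finite set -/
noncomputable def Sf (B : Finset ℝ) (φ : ℝ → ℝ) : ℂ := ∑ x ∈ B, cexp (I * ((φ x : ℝ) : ℂ))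

lemma Sf_le (B : Finset ℝ) (φ : ℝ → ℝ) : ‖Sf B φ‖ ≤ B.card := by
  unfold Sf
  refine (norm_sum_le _ _).trans ?_
  rw [sum_congr rfl fun x _ => norm_ex (φ x)]
  simp

/-- mean square of the Dirichlet kernel -/
lemma dir_up (Γ : Finset ℝ) (w : ℝ → ℝ) (N ε : ℝ) (hw : ∀ x ∈ Γ, 0 ≤ w x)
    (hN : ∑ x ∈ Γ, w x ≤ N) (hN0 : 0 ≤ N) (hε : 0 ≤ ε) (K : ℕ) (μ : ℝ → ℝ) (ω : ℂ) (hω : ‖ω‖ = 1)
    (h : ∀ j : ℤ, j ≠ 0 → |j| ≤ K →
      ‖∑ x ∈ Γ, (w x : ℂ) * cexp (I * ((j * μ x : ℝ) : ℂ))‖ ≤ ε * N) :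
    ∑ x ∈ Γ, w x * ‖∑ k ∈ range (K + 1), (ω * cexp (I * ((μ x : ℝ) : ℂ))) ^ k‖ ^ 2 ≤
      ((K : ℝ) + 1) * N + ((K : ℝ) + 1) ^ 2 * (ε * N) := by
  have e1 : ((∑ x ∈ Γ, w x * ‖∑ k ∈ range (K + 1), (ω * cexp (I * ((μ x : ℝ) : ℂ))) ^ k‖ ^ 2 :
      ℝ) : ℂ) = ∑ k ∈ range (K + 1), ∑ l ∈ range (K + 1), ω ^ k * conj ω ^ l *
        ∑ x ∈ Γ, (w x : ℂ) * cexp (I * ((((k : ℤ) - (l : ℤ) : ℤ) * μ x : ℝ) : ℂ)) := by
    push_cast
    have e2 : ∀ x : ℝ, ((‖∑ k ∈ range (K + 1), (ω * cexp (I * ((μ x : ℝ) : ℂ))) ^ k‖ : ℂ)) ^ 2 =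
        ∑ k ∈ range (K + 1), ∑ l ∈ range (K + 1), ω ^ k * conj ω ^ l *
          cexp (I * ((((k : ℤ) - (l : ℤ) : ℤ) * μ x : ℝ) : ℂ)) := by
      intro x
      have e3 : ((‖∑ k ∈ range (K + 1), (ω * cexp (I * ((μ x : ℝ) : ℂ))) ^ k‖ : ℂ)) ^ 2 =
          (∑ k ∈ range (K + 1), (ω * cexp (I * ((μ x : ℝ) : ℂ))) ^ k) *
          conj (∑ k ∈ range (K + 1), (ω * cexp (I * ((μ x : ℝ) : ℂ))) ^ k) := by
        rw [Complex.mul_conj, Complex.normSq_eq_norm_sq]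
        push_cast
        rfl
      rw [e3, map_sum, sum_mul_sum]
      refine sum_congr rfl fun k _ => sum_congr rfl fun l _ => ?_
      rw [map_pow, map_mul, mul_pow, mul_pow, ← Complex.exp_conj, ← Complex.exp_nat_mul,
        ← Complex.exp_nat_mul, map_mul, Complex.conj_I, Complex.conj_ofReal]
      have e4 : cexp (I * ((((k : ℤ) - (l : ℤ) : ℤ) * μ x : ℝ) : ℂ)) =
          cexp ((k : ℂ) * (I * ((μ x : ℝ) : ℂ))) * cexp ((l : ℂ) * (-I * ((μ x : ℝ) : ℂ))) := by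
        rw [← Complex.exp_add]
        congr 1
        push_cast
        ring
      rw [e4]; ring
    have e5 : ∀ x ∈ Γ, (w x : ℂ) *
        (‖∑ k ∈ range (K + 1), (ω * cexp (I * (μ x : ℂ))) ^ k‖ : ℂ) ^ 2 =
        ∑ k ∈ range (K + 1), ∑ l ∈ range (K + 1), ω ^ k * conj ω ^ l *
          ((w x : ℂ) * cexp (I * ((((k : ℤ) - (l : ℤ) : ℤ) * μ x : ℝ) : ℂ))) := by
      intro x _
      rw [e2 x, mul_sum]
      refine sum_congr rfl fun k _ => ?_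
      rw [mul_sum]
      refine sum_congr rfl fun l _ => ?_
      ring
    rw [sum_congr rfl e5, sum_comm]
    refine sum_congr rfl fun k _ => ?_
    rw [sum_comm]
    refine sum_congr rfl fun l _ => ?_
    rw [mul_sum]
    refine sum_congr rfl fun x _ => ?_
    push_cast
    ring
  have hpos : 0 ≤ ∑ x ∈ Γ, w x *
      ‖∑ k ∈ range (K + 1), (ω * cexp (I * ((μ x : ℝ) : ℂ))) ^ k‖ ^ 2 :=
    sum_nonneg fun x hx => mul_nonneg (hw x hx) (by positivity)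
  have e2 : ∑ x ∈ Γ, w x * ‖∑ k ∈ range (K + 1), (ω * cexp (I * ((μ x : ℝ) : ℂ))) ^ k‖ ^ 2 =
      ‖((∑ x ∈ Γ, w x * ‖∑ k ∈ range (K + 1), (ω * cexp (I * ((μ x : ℝ) : ℂ))) ^ k‖ ^ 2 :
      ℝ) : ℂ)‖ := by
    rw [Complex.norm_real, Real.norm_of_nonneg hpos]
  rw [e2, e1]
  refine (norm_sum_le _ _).trans ?_
  have h1 : ∀ k ∈ range (K + 1), ‖∑ l ∈ range (K + 1), ω ^ k * conj ω ^ l *
        ∑ x ∈ Γ, (w x : ℂ) * cexp (I * ((((k : ℤ) - (l : ℤ) : ℤ) * μ x : ℝ) : ℂ))‖ ≤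
      N + ((K : ℝ) + 1) * (ε * N) := by
    intro k hk
    refine (norm_sum_le _ _).trans ?_
    have h2 : ∀ l ∈ range (K + 1), ‖ω ^ k * conj ω ^ l *
        ∑ x ∈ Γ, (w x : ℂ) * cexp (I * ((((k : ℤ) - (l : ℤ) : ℤ) * μ x : ℝ) : ℂ))‖ ≤
        (if l = k then N else 0) + ε * N := by
      intro l hl
      have hωl : ‖conj ω‖ = 1 := by rw [RCLike.norm_conj]; exact hω
      rw [norm_mul, norm_mul, norm_pow, norm_pow, hω, hωl, one_pow, one_pow, one_mul, one_mul]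
      by_cases hlk : l = k
      · rw [if_pos hlk]
        have h3 : ‖∑ x ∈ Γ, (w x : ℂ) * cexp (I * ((((k : ℤ) - (l : ℤ) : ℤ) * μ x : ℝ) : ℂ))‖ ≤
            ∑ x ∈ Γ, w x := by
          refine (norm_sum_le _ _).trans (sum_le_sum fun x hx => ?_)
          rw [norm_mul, norm_ex, mul_one, Complex.norm_real, Real.norm_of_nonneg (hw x hx)]
        have : 0 ≤ ε * N := by positivity
        linarith
      · rw [if_neg hlk, zero_add]
        apply h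
        · intro h0
          apply hlk
          omega
        · rw [mem_range] at hk hl
          rw [abs_le]
          constructor <;> omega
    refine (sum_le_sum h2).trans ?_
    rw [sum_add_distrib, sum_ite_eq' (range (K + 1)) k (fun _ => N), if_pos hk, sum_const,
      card_range, nsmul_eq_mul]
    push_cast
    exact le_rfl
  refine (sum_le_sum h1).trans ?_
  rw [sum_const, card_range, nsmul_eq_mul]
  push_cast
  nlinarith

/-- two sets on which different phases are nearly constant have a small intersection -/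
lemma inter_small (Γ : Finset ℝ) (w : ℝ → ℝ) (N ε σ : ℝ) (hw : ∀ x ∈ Γ, 1 ≤ w x)
    (hN : ∑ x ∈ Γ, w x ≤ N) (hN0 : 0 ≤ N) (hε : 0 ≤ ε) (K : ℕ) (l1 l2 : ℝ → ℝ)
    (ω1 ω2 : ℂ) (h1 : ‖ω1‖ = 1) (h2 : ‖ω2‖ = 1) (A B : Finset ℝ) (hA : A ⊆ Γ) (hB : B ⊆ Γ)
    (hsA : ∑ x ∈ A, ‖ω1 * cexp (I * ((l1 x : ℝ) : ℂ)) - 1‖ ≤ σ * N)
    (hsB : ∑ x ∈ B, ‖ω2 * cexp (I * ((l2 x : ℝ) : ℂ)) - 1‖ ≤ σ * N)
    (h : ∀ j : ℤ, j ≠ 0 → |j| ≤ K →
      ‖∑ x ∈ Γ, (w x : ℂ) * cexp (I * ((j * (l1 x - l2 x) : ℝ) : ℂ))‖ ≤ ε * N) :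
    ((A ∩ B).card : ℝ) ≤ (1 / ((K : ℝ) + 1) + ε + 4 * K * σ) * N := by
  obtain ⟨μ, hμ⟩ : ∃ μ : ℝ → ℝ, ∀ x, μ x = l1 x - l2 x := ⟨fun x => l1 x - l2 x, fun _ => rfl⟩
  simp_rw [← hμ] at h
  set ω := ω1 * conj ω2 with hω
  have hω1 : ‖ω‖ = 1 := by rw [hω, norm_mul, RCLike.norm_conj, h1, h2, one_mul]
  have hup := dir_up Γ w N ε (fun x hx => le_trans zero_le_one (hw x hx)) hN hN0 hε K μ ω hω1 h
  have hK : (0 : ℝ) < (K : ℝ) + 1 := by positivity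
  have hsub : A ∩ B ⊆ Γ := inter_subset_left.trans hA
  have hlow : ((K : ℝ) + 1) ^ 2 * (((A ∩ B).card : ℝ) - 4 * K * (σ * N)) ≤
      ∑ x ∈ Γ, w x * ‖∑ k ∈ range (K + 1), (ω * cexp (I * ((μ x : ℝ) : ℂ))) ^ k‖ ^ 2 := by
    have a1 : ∑ x ∈ A ∩ B, ((K : ℝ) + 1) ^ 2 *
        (1 - 2 * K * ‖ω * cexp (I * ((μ x : ℝ) : ℂ)) - 1‖) ≤
        ∑ x ∈ Γ, w x * ‖∑ k ∈ range (K + 1), (ω * cexp (I * ((μ x : ℝ) : ℂ))) ^ k‖ ^ 2 := by
      refine le_trans (sum_le_sum fun x hx => ?_)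
        (sum_le_sum_of_subset_of_nonneg hsub fun x hx _ => ?_)
      · have b1 : ‖ω * cexp (I * ((μ x : ℝ) : ℂ))‖ = 1 := by
          rw [norm_mul, norm_ex, hω1, one_mul]
        have b2 := dir_low _ b1 K
        have b3 : ‖∑ k ∈ range (K + 1), (ω * cexp (I * ((μ x : ℝ) : ℂ))) ^ k‖ ^ 2 ≤
            w x * ‖∑ k ∈ range (K + 1), (ω * cexp (I * ((μ x : ℝ) : ℂ))) ^ k‖ ^ 2 := by
          have := hw x (hsub hx)
          nlinarith [sq_nonneg ‖∑ k ∈ range (K + 1), (ω * cexp (I * ((μ x : ℝ) : ℂ))) ^ k‖]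
        exact b2.trans b3
      · exact mul_nonneg (le_trans zero_le_one (hw x hx)) (by positivity)
    refine le_trans ?_ a1
    rw [← mul_sum]
    refine mul_le_mul_of_nonneg_left ?_ (by positivity)
    rw [sum_sub_distrib, ← mul_sum]
    have a2 : ∑ x ∈ A ∩ B, ‖ω * cexp (I * ((μ x : ℝ) : ℂ)) - 1‖ ≤ 2 * (σ * N) := by
      have b1 : ∀ x ∈ A ∩ B, ‖ω * cexp (I * ((μ x : ℝ) : ℂ)) - 1‖ ≤
          ‖ω1 * cexp (I * ((l1 x : ℝ) : ℂ)) - 1‖ + ‖ω2 * cexp (I * ((l2 x : ℝ) : ℂ)) - 1‖ := by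
        intro x _
        set z1 := ω1 * cexp (I * ((l1 x : ℝ) : ℂ)) with hz1
        set z2 := ω2 * cexp (I * ((l2 x : ℝ) : ℂ)) with hz2
        have c1 : ω * cexp (I * ((μ x : ℝ) : ℂ)) = z1 * conj z2 := by
          rw [hz1, hz2, map_mul, ← Complex.exp_conj, map_mul, Complex.conj_I, Complex.conj_ofReal,
            hω]
          have : cexp (I * ((μ x : ℝ) : ℂ)) =
              cexp (I * ((l1 x : ℝ) : ℂ)) * cexp (-I * ((l2 x : ℝ) : ℂ)) := by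
            rw [← Complex.exp_add]; congr 1; rw [hμ]; push_cast; ring
          rw [this]; ring
        have c2 : ‖z2‖ = 1 := by rw [hz2, norm_mul, norm_ex, h2, one_mul]
        have c3 : z1 * conj z2 - 1 = (z1 - z2) * conj z2 := by
          have : z2 * conj z2 = 1 := by
            rw [Complex.mul_conj, Complex.normSq_eq_norm_sq, c2]; norm_num
          rw [sub_mul, this]
        rw [c1, c3, norm_mul, RCLike.norm_conj, c2, mul_one]
        have c4 : z1 - z2 = (z1 - 1) - (z2 - 1) := by ring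
        rw [c4]
        exact norm_sub_le _ _
      refine (sum_le_sum b1).trans ?_
      rw [sum_add_distrib]
      have b2 : ∑ x ∈ A ∩ B, ‖ω1 * cexp (I * ((l1 x : ℝ) : ℂ)) - 1‖ ≤ σ * N :=
        (sum_le_sum_of_subset_of_nonneg inter_subset_left fun _ _ _ => norm_nonneg _).trans hsA
      have b3 : ∑ x ∈ A ∩ B, ‖ω2 * cexp (I * ((l2 x : ℝ) : ℂ)) - 1‖ ≤ σ * N :=
        (sum_le_sum_of_subset_of_nonneg inter_subset_right fun _ _ _ => norm_nonneg _).trans hsB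
      linarith
    have hK0 : (0 : ℝ) ≤ K := Nat.cast_nonneg K
    have a3 : ∑ x ∈ A ∩ B, (1 : ℝ) = (A ∩ B).card := by simp
    rw [a3]
    nlinarith
  have hfin := hlow.trans hup
  have e : ((K : ℝ) + 1) * N + ((K : ℝ) + 1) ^ 2 * (ε * N) =
      ((K : ℝ) + 1) ^ 2 * (1 / ((K : ℝ) + 1) * N + ε * N) := by
    field_simp
  rw [e] at hfin
  have := le_of_mul_le_mul_left hfin (by positivity)
  linarith

/-- if the exponential sum is close to its trivial bound then the phase is nearly constant -/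
lemma near_const (B : Finset ℝ) (φ : ℝ → ℝ) (ε : ℝ) (hε : 0 ≤ ε) (h : (1 - ε) * B.card ≤ ‖Sf B φ‖) :
    ∃ ω : ℂ, ‖ω‖ = 1 ∧ ∑ x ∈ B, ‖ω * cexp (I * ((φ x : ℝ) : ℂ)) - 1‖ ≤
      Real.sqrt (2 * ε) * B.card := by
  obtain ⟨ω, hω, hωS⟩ : ∃ ω : ℂ, ‖ω‖ = 1 ∧ ω * Sf B φ = (‖Sf B φ‖ : ℂ) := by
    rcases eq_or_ne (Sf B φ) 0 with h0 | h0
    · exact ⟨1, by simp, by simp [h0]⟩
    · refine ⟨conj (Sf B φ) / ‖Sf B φ‖, ?_, ?_⟩
      · rw [norm_div, RCLike.norm_conj, Complex.norm_real, norm_norm]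
        exact div_self (norm_ne_zero_iff.2 h0)
      · have h1 : (‖Sf B φ‖ : ℂ) ≠ 0 := by
          exact_mod_cast norm_ne_zero_iff.2 h0
        rw [div_mul_eq_mul_div, mul_comm (conj (Sf B φ)), Complex.mul_conj,
          Complex.normSq_eq_norm_sq]
        push_cast
        field_simp
  refine ⟨ω, hω, ?_⟩
  have h1 : ∀ x : ℝ, ‖ω * cexp (I * ((φ x : ℝ) : ℂ)) - 1‖ ^ 2 =
      2 - 2 * (ω * cexp (I * ((φ x : ℝ) : ℂ))).re := by
    intro x
    set z := ω * cexp (I * ((φ x : ℝ) : ℂ)) with hz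
    have hz1 : ‖z‖ = 1 := by rw [hz, norm_mul, norm_ex, hω, one_mul]
    have h2 : Complex.normSq z = 1 := by rw [Complex.normSq_eq_norm_sq, hz1]; norm_num
    rw [← Complex.normSq_eq_norm_sq, Complex.normSq_apply]
    rw [Complex.normSq_apply] at h2
    simp only [Complex.sub_re, Complex.sub_im, Complex.one_re, Complex.one_im]
    nlinarith
  have h2 : ∑ x ∈ B, ‖ω * cexp (I * ((φ x : ℝ) : ℂ)) - 1‖ ^ 2 ≤ 2 * ε * B.card := by
    have h3 : ∑ x ∈ B, (ω * cexp (I * ((φ x : ℝ) : ℂ))).re = ‖Sf B φ‖ := by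
      rw [← Complex.re_sum, ← mul_sum]
      have : ω * ∑ x ∈ B, cexp (I * ((φ x : ℝ) : ℂ)) = ω * Sf B φ := rfl
      rw [this, hωS, Complex.ofReal_re]
    rw [sum_congr rfl fun x _ => h1 x, sum_sub_distrib, ← mul_sum, h3]
    simp only [sum_const, nsmul_eq_mul]
    linarith
  have h3 : (∑ x ∈ B, ‖ω * cexp (I * ((φ x : ℝ) : ℂ)) - 1‖) ^ 2 ≤
      (B.card : ℝ) * (2 * ε * B.card) :=
    (sq_sum_le_card_mul_sum_sq).trans (mul_le_mul_of_nonneg_left h2 (Nat.cast_nonneg _))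
  apply le_of_sq_le_sq _ (by positivity)
  rw [mul_pow, Real.sq_sqrt (by positivity)]
  linarith

theorem cluster (η : ℝ) (hη : 0 < η) (hη1 : η ≤ 1) : ∃ (K q : ℕ) (ε : ℝ), 1 ≤ K ∧ 0 < ε ∧ ε < 1 ∧
    ∀ (Γ : Finset ℝ) (w : ℝ → ℝ) (N : ℝ), 0 < N → (∀ x ∈ Γ, 1 ≤ w x) → ∑ x ∈ Γ, w x ≤ N →
    ∀ (ι : Type) (J : Finset ι) (A : ι → Finset ℝ) (lam : ι → ℝ → ℝ),
      (∀ i ∈ J, A i ⊆ Γ ∧ η * N ≤ (A i).card) →
      (∀ i ∈ J, ∀ j ∈ J, i ≠ j → ∀ k : ℤ, k ≠ 0 → |k| ≤ K →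
        ‖∑ x ∈ Γ, (w x : ℂ) * cexp (I * ((k * (lam i x - lam j x) : ℝ) : ℂ))‖ ≤ ε * N) →
      ∏ i ∈ J, ‖Sf (A i) (lam i)‖ ≤ (1 - ε) ^ (J.card - q) * ∏ i ∈ J, ((A i).card : ℝ) := by
  classical
  set K : ℕ := ⌈16 / η ^ 2⌉₊ with hK
  set σ : ℝ := η ^ 2 / (16 * K) with hσ
  set ε : ℝ := σ ^ 2 / 2 with hε
  set q : ℕ := ⌊2 / η ^ 2⌋₊ with hq
  have hη2 : 0 < η ^ 2 := by positivity
  have hη21 : η ^ 2 ≤ 1 := pow_le_one₀ hη.le hη1
  have hKr : 16 / η ^ 2 ≤ K := Nat.le_ceil _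
  have hK16 : (16 : ℝ) ≤ K := by
    refine le_trans ?_ hKr
    rw [le_div_iff₀ hη2]; linarith
  have hK1 : 1 ≤ K := by
    have : (1 : ℝ) ≤ K := by linarith
    exact_mod_cast this
  have hK0 : (0 : ℝ) < K := by linarith
  have hσ0 : 0 < σ := by positivity
  have hσ1 : σ ≤ η ^ 2 / 256 := by
    rw [hσ]
    exact div_le_div_of_nonneg_left hη2.le (by norm_num) (by linarith)
  have hε0 : 0 < ε := by positivity
  have hε1 : ε ≤ η ^ 2 / 256 := by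
    rw [hε]; nlinarith
  have hsq : Real.sqrt (2 * ε) = σ := by
    rw [hε, show 2 * (σ ^ 2 / 2) = σ ^ 2 by ring, Real.sqrt_sq hσ0.le]
  have hτ : 1 / ((K : ℝ) + 1) + ε + 4 * K * σ ≤ η ^ 2 / 2 := by
    have h1 : 1 / ((K : ℝ) + 1) ≤ η ^ 2 / 16 := by
      rw [div_le_div_iff₀ (by positivity) (by norm_num)]
      rw [div_le_iff₀ hη2] at hKr
      nlinarith
    have h2 : 4 * K * σ = η ^ 2 / 4 := by rw [hσ]; field_simp; norm_num
    linarith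
  refine ⟨K, q, ε, hK1, hε0, by linarith, ?_⟩
  intro Γ w N hN0 hw hN ι J A lam hA hsup
  have hΓN : (Γ.card : ℝ) ≤ N := by
    refine le_trans ?_ hN
    calc (Γ.card : ℝ) = ∑ x ∈ Γ, (1 : ℝ) := by simp
      _ ≤ _ := sum_le_sum hw
  have hAN : ∀ i ∈ J, ((A i).card : ℝ) ≤ N := fun i hi =>
    le_trans (by exact_mod_cast card_le_card (hA i hi).1) hΓN
  set B := J.filter (fun i => (1 - ε) * (A i).card ≤ ‖Sf (A i) (lam i)‖) with hB
  -- few bad indices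
  have hBq : B.card ≤ q := by
    have hω : ∀ i : ι, ∃ ω : ℂ, i ∈ B → ‖ω‖ = 1 ∧
        ∑ x ∈ A i, ‖ω * cexp (I * ((lam i x : ℝ) : ℂ)) - 1‖ ≤ σ * N := by
      intro i
      by_cases hi : i ∈ B
      · have hi2 := hi
        rw [hB, mem_filter] at hi2
        obtain ⟨ω, h1, h2⟩ := near_const (A i) (lam i) ε hε0.le hi2.2
        refine ⟨ω, fun _ => ⟨h1, h2.trans ?_⟩⟩
        rw [hsq]
        exact mul_le_mul_of_nonneg_left (hAN i hi2.1) hσ0.le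
      · exact ⟨1, fun h => absurd h hi⟩
    choose ω hω using hω
    have hint : ∀ i ∈ B, ∀ j ∈ B, ((A i ∩ A j).card : ℝ) ≤
        (if j = i then N else 0) + η ^ 2 / 2 * N := by
      intro i hi j hj
      have hiJ : i ∈ J := (mem_filter.1 hi).1
      have hjJ : j ∈ J := (mem_filter.1 hj).1
      by_cases hij : j = i
      · rw [if_pos hij]
        have h1 : ((A i ∩ A j).card : ℝ) ≤ (A i).card := by
          exact_mod_cast card_le_card inter_subset_left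
        have h2 : 0 ≤ η ^ 2 / 2 * N := by positivity
        linarith [hAN i hiJ]
      · rw [if_neg hij, zero_add]
        have h1 := inter_small Γ w N ε σ hw hN hN0.le hε0.le K (lam i) (lam j) (ω i) (ω j)
          (hω i hi).1 (hω j hj).1 (A i) (A j) (hA i hiJ).1 (hA j hjJ).1 (hω i hi).2 (hω j hj).2
          (fun k hk1 hk2 => hsup i hiJ j hjJ (fun h => hij h.symm) k hk1 hk2)
        exact h1.trans (mul_le_mul_of_nonneg_right hτ hN0.le)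
    have hdc := double_count Γ B A (fun i hi => (hA i (mem_filter.1 hi).1).1)
    set s : ℝ := (B.card : ℝ) with hs
    have hs0 : 0 ≤ s := Nat.cast_nonneg _
    have h1 : s * (η * N) ≤ ∑ i ∈ B, ((A i).card : ℝ) := by
      rw [hs, ← nsmul_eq_mul, ← sum_const]
      exact sum_le_sum fun i hi => (hA i (mem_filter.1 hi).1).2
    have h2 : ∑ i ∈ B, ∑ j ∈ B, ((A i ∩ A j).card : ℝ) ≤ s * (N + s * (η ^ 2 / 2 * N)) := by
      have h3 : ∀ i ∈ B, ∑ j ∈ B, ((A i ∩ A j).card : ℝ) ≤ N + s * (η ^ 2 / 2 * N) := by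
        intro i hi
        refine (sum_le_sum (hint i hi)).trans ?_
        rw [sum_add_distrib, sum_ite_eq' B i (fun _ => N), if_pos hi, sum_const, nsmul_eq_mul]
      refine (sum_le_sum h3).trans ?_
      rw [sum_const, nsmul_eq_mul]
    have h4 : (s * (η * N)) ^ 2 ≤ N * (s * (N + s * (η ^ 2 / 2 * N))) := by
      refine (pow_le_pow_left₀ (by positivity) h1 2).trans (hdc.trans ?_)
      refine mul_le_mul hΓN h2 ?_ hN0.le
      exact sum_nonneg fun i _ => sum_nonneg fun j _ => Nat.cast_nonneg _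
    have h5 : N ^ 2 * (s ^ 2 * η ^ 2) ≤ N ^ 2 * (s + s ^ 2 * (η ^ 2 / 2)) := by
      calc N ^ 2 * (s ^ 2 * η ^ 2) = (s * (η * N)) ^ 2 := by ring
        _ ≤ _ := h4
        _ = _ := by ring
    have h6 := le_of_mul_le_mul_left h5 (by positivity)
    rw [hq]
    apply Nat.le_floor
    rw [le_div_iff₀ hη2]
    show s * η ^ 2 ≤ 2
    rcases hs0.lt_or_eq with h0 | h0
    · have h7 : s * (s * η ^ 2) ≤ s * 2 := by nlinarith
      exact le_of_mul_le_mul_left h7 h0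
    · rw [← h0]; norm_num
  -- the product
  have hpt : ∀ i ∈ J, ‖Sf (A i) (lam i)‖ ≤
      (if (1 - ε) * (A i).card ≤ ‖Sf (A i) (lam i)‖ then 1 else (1 - ε)) * (A i).card := by
    intro i _
    split_ifs with h
    · rw [one_mul]; exact Sf_le _ _
    · push Not at h; exact h.le
  refine (prod_le_prod (fun i _ => norm_nonneg _) hpt).trans ?_
  rw [prod_mul_distrib]
  refine mul_le_mul_of_nonneg_right ?_ (prod_nonneg fun i _ => Nat.cast_nonneg _)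
  rw [prod_ite, prod_const_one, one_mul, prod_const]
  apply pow_le_pow_of_le_one (by linarith) (by linarith)
  have h1 := card_filter_add_card_filter_not (s := J)
    (fun i => (1 - ε) * ((A i).card : ℝ) ≤ ‖Sf (A i) (lam i)‖)
  rw [hB] at hBq
  omega


end Pool.Agent.TH801.LG
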