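import Pool.Agent.TH801.LU.Main

/-! The number of near relations: pair bounds for each set. -/

set_option autoImplicit false

open Finset MeasureTheory Complex
open scoped ComplexConjugate

namespace Pool.Agent.TH801.LG

open H177.Lat (tri tri_nonneg tri_zero tri_in tri_integrable KK KK_nonneg KK_le KK_sq)
open Pool.Agent.TH801.LR (Sx Sx_le Sx_sq Sx_cont l2 prod_Sx KK_near ar3)
open Pool.Agent.TH801.LU

theorem count3 {n : ℕ} (c : Fin n → ℝ) (A : Fin n → Finset ℝ) (N P L : ℝ)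
    (hL : 0 < L) (hP : ∀ k, ∑ x ∈ A k, ∑ y ∈ A k, 1 / (1 + (L * (x - y)) ^ 2) ≤ P * N)
    (i0 i1 : Fin n) (h01 : i0 ≠ i1) (b : ℝ) (hb0 : b ≤ |c i0|)
    (hb1 : b ≤ |c i1|) (u1 U0 E0 E a κ1 κ y : ℝ) (hE0 : 0 < E0) (hUE : U0 ≤ E0)
    (hE : E0 ≤ E) (hbE : L ≤ 2 * Real.pi * b * E0)
    (ha : 0 < a) (hκ1 : 0 ≤ κ1) (hκ : 0 ≤ κ)
    (hg : ∀ u : ℝ, |u| ≤ u1 → ∏ i ∈ univ.erase i0, ‖Sx (A i) (2 * Real.pi * c i * u)‖ ≤
        Real.exp (-a * u ^ 2) * ∏ i ∈ univ.erase i0, ((A i).card : ℝ))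
    (hm : ∀ u : ℝ, u1 < |u| → |u| ≤ U0 →
      ∏ i ∈ (univ.erase i0).erase i1, ‖Sx (A i) (2 * Real.pi * c i * u)‖ ≤
        κ1 * ∏ i ∈ (univ.erase i0).erase i1, ((A i).card : ℝ))
    (hcl : ∀ u : ℝ, U0 < |u| → |u| ≤ E →
      ∏ i ∈ (univ.erase i0).erase i1, ‖Sx (A i) (2 * Real.pi * c i * u)‖ ≤
        κ * ∏ i ∈ (univ.erase i0).erase i1, ((A i).card : ℝ)) :
    (((Fintype.piFinset A).filter (fun x : Fin n → ℝ =>
      |∑ i, c i * x i - y| ≤ 1 / (2 * Real.pi * E))).card : ℝ) * E ≤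
      4 / Real.sqrt a * ∏ i, ((A i).card : ℝ) +
      88 * (P * N) * (κ1 * E0 + κ * E) * ∏ i ∈ (univ.erase i0).erase i1, ((A i).card : ℝ) := by
  classical
  have hEpos : 0 < E := hE0.trans_le hE
  have hpi0 := Real.pi_pos
  obtain ⟨Q, hQ⟩ : ∃ Q : ℝ, Q = ∏ i ∈ (univ.erase i0).erase i1, ((A i).card : ℝ) := ⟨_, rfl⟩
  obtain ⟨Q1, hQ1⟩ : ∃ Q1 : ℝ, Q1 = ∏ i, ((A i).card : ℝ) := ⟨_, rfl⟩
  obtain ⟨Q2, hQ2⟩ : ∃ Q2 : ℝ, Q2 = ∏ i ∈ univ.erase i0, ((A i).card : ℝ) := ⟨_, rfl⟩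
  have hQ0 : 0 ≤ Q := by rw [hQ]; exact prod_nonneg fun _ _ => Nat.cast_nonneg _
  have hQ10 : 0 ≤ Q1 := by rw [hQ1]; exact prod_nonneg fun _ _ => Nat.cast_nonneg _
  have hQ1e : Q1 = ((A i0).card : ℝ) * Q2 := by
    rw [hQ1, hQ2]; exact (mul_prod_erase univ _ (mem_univ i0)).symm
  rw [← hQ2] at hg
  rw [← hQ] at hm hcl
  rw [← hQ1, ← hQ]
  obtain ⟨F, hF⟩ : ∃ F : ℝ → ℝ, F = fun u => ‖Sx (A i0) (2 * Real.pi * c i0 * u)‖ ^ 2 +
    ‖Sx (A i1) (2 * Real.pi * c i1 * u)‖ ^ 2 := ⟨_, rfl⟩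
  have hFc : Continuous F := by
    have h1 := Sx_cont (A i0)
    have h2 := Sx_cont (A i1)
    rw [hF]
    fun_prop
  have hF0 : ∀ u, 0 ≤ F u := fun u => by rw [hF]; positivity
  have hFm : ∀ u, ‖Sx (A i0) (2 * Real.pi * c i0 * u)‖ * ‖Sx (A i1) (2 * Real.pi * c i1 * u)‖ ≤
      F u / 2 := fun u => am _ _ _ (by rw [hF])
  -- integrals of F
  have hFint : ∀ e : ℝ, E0 ≤ e → ∫ u in (-e)..e, F u ≤ 88 * e * (P * N) := by
    intro e he
    have he0 : 0 < e := hE0.trans_le he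
    have hbb : ∀ j : Fin n, b ≤ |c j| → L ≤ 2 * Real.pi * |c j| * e := by
      intro j hj
      refine hbE.trans ?_
      have h1 : b * E0 ≤ |c j| * e := mul_le_mul hj he hE0.le (abs_nonneg _)
      calc 2 * Real.pi * b * E0 = 2 * Real.pi * (b * E0) := by ring
        _ ≤ 2 * Real.pi * (|c j| * e) := mul_le_mul_of_nonneg_left h1 (by positivity)
        _ = _ := by ring
    have h1 := l2 (A i0) N P L hL (hP i0) (A i0) subset_rfl (c i0) e he0 (hbb i0 hb0)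
    have h2 := l2 (A i1) N P L hL (hP i1) (A i1) subset_rfl (c i1) e he0 (hbb i1 hb1)
    have c0 : Continuous fun u : ℝ => ‖Sx (A i0) (2 * Real.pi * c i0 * u)‖ ^ 2 := by
      have := Sx_cont (A i0); fun_prop
    have c1 : Continuous fun u : ℝ => ‖Sx (A i1) (2 * Real.pi * c i1 * u)‖ ^ 2 := by
      have := Sx_cont (A i1); fun_prop
    have h3 : ∫ u in (-e)..e, F u = (∫ u in (-e)..e, ‖Sx (A i0) (2 * Real.pi * c i0 * u)‖ ^ 2) +
        ∫ u in (-e)..e, ‖Sx (A i1) (2 * Real.pi * c i1 * u)‖ ^ 2 := by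
      rw [hF]
      exact intervalIntegral.integral_add (c0.intervalIntegrable _ _) (c1.intervalIntegrable _ _)
    rw [h3]
    refine (add_le_add h1 h2).trans (le_of_eq ?_)
    ring
  clear hF
  obtain ⟨hGi, hGint⟩ := maj_int F hFc E0 E a κ1 κ Q Q1 (P * N) hE0 hE ha hκ1 hκ hQ0 hQ10 hFint
  obtain ⟨G, hG⟩ : ∃ G : ℝ → ℝ, G = fun u => Q1 * Real.exp (-a * u ^ 2) +
    Q / 2 * (κ1 * (Set.Icc (-E0) E0).indicator F u + κ * (Set.Icc (-E) E).indicator F u) :=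
    ⟨_, rfl⟩
  have hGu : ∀ u, G u = Q1 * Real.exp (-a * u ^ 2) +
      (Q / 2 * (κ1 * (Set.Icc (-E0) E0).indicator F u) +
        Q / 2 * (κ * (Set.Icc (-E) E).indicator F u)) := by
    intro u
    rw [hG, ← mul_dist]
  rw [← hG] at hGi
  have hGint2 : ∫ u, G u ≤ Q1 * (2 / Real.sqrt a) + 44 * (P * N) * (κ1 * E0 + κ * E) * Q := by
    rw [hG]; exact hGint
  clear hGint hG
  have hindn : ∀ e u : ℝ, 0 ≤ (Set.Icc (-e) e).indicator F u := fun e u =>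
    Set.indicator_nonneg (fun u _ => hF0 u) u
  have t1 : ∀ u, 0 ≤ Q / 2 * (κ1 * (Set.Icc (-E0) E0).indicator F u) := fun u =>
    mul_nonneg (by linarith) (mul_nonneg hκ1 (hindn _ _))
  have t2 : ∀ u, 0 ≤ Q / 2 * (κ * (Set.Icc (-E) E).indicator F u) := fun u =>
    mul_nonneg (by linarith) (mul_nonneg hκ (hindn _ _))
  have t3 : ∀ u, 0 ≤ Q1 * Real.exp (-a * u ^ 2) := fun u => mul_nonneg hQ10 (Real.exp_pos _).le
  -- pointwise bound of the product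
  have hprod : ∀ u : ℝ, |u| ≤ E → ‖∏ i, Sx (A i) (2 * Real.pi * c i * u)‖ ≤ G u := by
    intro u hu
    rw [hGu]
    by_cases hu1 : |u| ≤ u1
    · refine three_a _ _ _ _ ?_ (t1 u) (t2 u)
      rw [factor1 A c i0 u, hQ1e]
      refine (mul_le_mul (Sx_le _ _) (hg u hu1) (prod_nonneg fun _ _ => norm_nonneg _)
        (Nat.cast_nonneg _)).trans (le_of_eq ?_)
      ring
    · rw [not_le] at hu1
      rw [factor A c i0 i1 h01 u]
      have hR0 : 0 ≤ ∏ i ∈ (univ.erase i0).erase i1, ‖Sx (A i) (2 * Real.pi * c i * u)‖ :=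
        prod_nonneg fun _ _ => norm_nonneg _
      by_cases hu2 : |u| ≤ U0
      · have h1 := ar5 _ _ _ (F u) Q κ1 (hFm u) hR0 (hm u hu1 hu2) (hF0 u)
        have e4 : (Set.Icc (-E0) E0).indicator F u = F u :=
          Set.indicator_of_mem (Set.mem_Icc.2 (abs_le.1 (hu2.trans hUE))) _
        refine three_b _ _ _ _ ?_ (t3 u) (t2 u)
        rw [e4]; exact h1
      · rw [not_le] at hu2
        have h1 := ar5 _ _ _ (F u) Q κ (hFm u) hR0 (hcl u hu2 hu) (hF0 u)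
        have e4 : (Set.Icc (-E) E).indicator F u = F u :=
          Set.indicator_of_mem (Set.mem_Icc.2 (abs_le.1 hu)) _
        refine three_c _ _ _ _ ?_ (t3 u) (t1 u)
        rw [e4]; exact h1
  have hG0 : ∀ u, 0 ≤ G u := fun u => by
    rw [hGu]; exact add_nonneg (t3 u) (add_nonneg (t1 u) (t2 u))
  have hti : ∀ x : ℝ, Integrable (fun v => tri E v * Real.cos (2 * Real.pi * v * x)) :=
    fun x => tri_integrable hEpos (by fun_prop)
  have hsum : ∑ x ∈ Fintype.piFinset A, KK E (∑ i, c i * x i - y) ≤ ∫ u, G u := by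
    have e1 : ∑ x ∈ Fintype.piFinset A, KK E (∑ i, c i * x i - y) =
        ∫ u, ∑ x ∈ Fintype.piFinset A,
          tri E u * Real.cos (2 * Real.pi * u * (∑ i, c i * x i - y)) := by
      rw [integral_finsetSum _ fun x _ => hti _]
      rfl
    rw [e1]
    refine integral_mono (integrable_finsetSum _ fun x _ => hti _) hGi ?_
    intro u
    show ∑ x ∈ Fintype.piFinset A,
      tri E u * Real.cos (2 * Real.pi * u * (∑ i, c i * x i - y)) ≤ G u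
    rw [← mul_sum]
    rcases le_or_gt (|u|) E with hu | hu
    · have htr1 : tri E u ≤ 1 := by
        unfold tri
        apply max_le (by norm_num)
        have : 0 ≤ |u| / E := by positivity
        linarith
      have htr0 := tri_nonneg E u
      exact (ar3 _ _ _ htr0 htr1 (tup A c y u) (norm_nonneg _)).trans (hprod u hu)
    · rw [tri_zero hEpos hu.le, zero_mul]
      exact hG0 u
  have hlow : (((Fintype.piFinset A).filter (fun x : Fin n → ℝ =>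
      |∑ i, c i * x i - y| ≤ 1 / (2 * Real.pi * E))).card : ℝ) * (E / 2) ≤
      ∑ x ∈ Fintype.piFinset A, KK E (∑ i, c i * x i - y) := by
    rw [← nsmul_eq_mul, ← sum_const]
    refine le_trans (sum_le_sum fun x hx => ?_)
      (sum_le_sum_of_subset_of_nonneg (filter_subset _ _) fun x _ _ => KK_nonneg hEpos _)
    rw [mem_filter] at hx
    apply KK_near hEpos
    have h1 := hx.2
    rw [le_div_iff₀ (by positivity)] at h1
    calc 2 * Real.pi * E * |∑ i, c i * x i - y| = |∑ i, c i * x i - y| * (2 * Real.pi * E) := by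
          ring
      _ ≤ 1 := h1
  exact last_step _ E (P * N) _ _ Q Q1 ((hlow.trans hsum).trans hGint2)

/-- the counting inequality at one choice of parameters -/
lemma stepB {n : ℕ} (c : Fin n → ℝ) (A : Fin n → Finset ℝ) (N P L T η κ Y κc y t w : ℝ)
    (hL : 0 < L) (hT : 0 < T) (ht : t = T * L) (htN : t ≤ N) (hP0 : 0 ≤ P) (hη : 0 < η)
    (hκ : 0 < κ) (hκ2 : κ ≤ 1 / 76) (h10 : 10 ≤ κ * (T * L))
    (hP : ∀ k, ∑ x ∈ A k, ∑ y ∈ A k, 1 / (1 + (L * (x - y)) ^ 2) ≤ P * N)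
    (hAη : ∀ i, η * N ≤ (A i).card)
    (i j : Fin n) (hij : i ≠ j) (hji : |c j| ≤ |c i|) (hmax : ∀ k, k ≠ i → |c k| ≤ |c j|)
    (hb : 0 < |c j|) (hY : 1 ≤ Y) (hκc : 0 ≤ κc) (hw : w ≤ |c j| / (L * Y))
    (hone : ∀ k, ∀ v : ℝ, |v| ≤ κ * L → ‖Sx (A k) (2 * Real.pi * v)‖ ≤
      (A k).card * Real.exp (-(2 * κ ^ 2 * min 1 ((v * T) ^ 2))))
    (hcl : ∀ u : ℝ, κ * L / |c j| < |u| → |u| ≤ L / (2 * Real.pi * |c j|) * Y →
      ∏ i ∈ (univ.erase i).erase j, ‖Sx (A i) (2 * Real.pi * c i * u)‖ ≤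
        κc * ∏ i ∈ (univ.erase i).erase j, ((A i).card : ℝ)) :
    ∃ κ1 : ℝ, 0 ≤ κ1 ∧
      κ1 ≤ 1 / (2 * κ) * (|c j| / Real.sqrt (∑ k ∈ univ.erase i, c k ^ 2)) ∧
    (((Fintype.piFinset A).filter (fun x : Fin n → ℝ => |∑ i, c i * x i - y| ≤ w)).card : ℝ) ≤
      8 * Real.pi / κ * (|c j| / Real.sqrt (∑ k ∈ univ.erase i, c k ^ 2)) * (1 / Y) *
        (∏ k, ((A k).card : ℝ)) / t +
      88 * P / η ^ 2 * (κ1 * (1 / Y) + κc) * (∏ k, ((A k).card : ℝ)) / t := by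
  classical
  have hpi := Real.pi_pos
  have hY0 : 0 < Y := by linarith
  obtain ⟨b, hbd⟩ : ∃ b : ℝ, b = |c j| := ⟨_, rfl⟩
  rw [← hbd] at hji hmax hb hw hcl ⊢
  obtain ⟨V2, hV2⟩ : ∃ V2 : ℝ, V2 = ∑ k ∈ univ.erase i, c k ^ 2 := ⟨_, rfl⟩
  obtain ⟨W1, hW1⟩ : ∃ W1 : ℝ, W1 = ∑ k ∈ (univ.erase i).erase j, (c k / b) ^ 2 := ⟨_, rfl⟩
  have hjm : j ∈ univ.erase i := mem_erase.2 ⟨hij.symm, mem_univ j⟩
  have hVW : V2 = b ^ 2 * (1 + W1) := by
    rw [hV2, hW1, ← add_sum_erase _ _ hjm, mul_add, mul_sum]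
    congr 1
    · rw [hbd, sq_abs, mul_one]
    · refine sum_congr rfl fun k _ => ?_
      field_simp
  have hW0 : 0 ≤ W1 := by rw [hW1]; exact sum_nonneg fun _ _ => sq_nonneg _
  have hV20 : 0 < V2 := by rw [hVW]; positivity
  have hV : Real.sqrt V2 = b * Real.sqrt (1 + W1) := by
    rw [hVW, Real.sqrt_mul (sq_nonneg b), Real.sqrt_sq hb.le]
  have hV0 : 0 < Real.sqrt V2 := Real.sqrt_pos.2 hV20
  rw [← hV2]
  have hD : b / Real.sqrt V2 = 1 / Real.sqrt (1 + W1) := by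
    rw [hV]
    field_simp
  obtain ⟨κ1, hκ1⟩ : ∃ κ1 : ℝ, κ1 = Real.exp (-(2 * κ ^ 2 * W1)) := ⟨_, rfl⟩
  have hκ10 : 0 ≤ κ1 := by rw [hκ1]; exact (Real.exp_pos _).le
  refine ⟨κ1, hκ10, ?_, ?_⟩
  · rw [hD, hκ1]
    have := sav2 κ (1 + W1) hκ (by linarith) (by linarith)
    have e : 1 + W1 - 1 = W1 := by ring
    rwa [e] at this
  obtain ⟨E0, hE0⟩ : ∃ E0 : ℝ, E0 = L / (2 * Real.pi * b) := ⟨_, rfl⟩
  have hE00 : 0 < E0 := by rw [hE0]; positivity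
  have hUE : κ * L / b ≤ E0 := by
    rw [hE0, div_le_div_iff₀ hb (by positivity)]
    have h1 : κ * (2 * Real.pi) ≤ 1 := by
      have := Real.pi_lt_four
      have h2 : κ * (2 * Real.pi) ≤ 1 / 76 * (2 * 4) := mul_le_mul hκ2 (by linarith)
        (by positivity) (by norm_num)
      linarith
    calc κ * L * (2 * Real.pi * b) = κ * (2 * Real.pi) * (L * b) := by ring
      _ ≤ 1 * (L * b) := mul_le_mul_of_nonneg_right h1 (by positivity)
      _ = L * b := one_mul _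
  have hE : E0 ≤ E0 * Y := le_mul_of_one_le_right hE00.le hY
  have ha0 : 0 < 2 * κ ^ 2 * T ^ 2 * V2 := by positivity
  have h1 := count3 c A N P L hL hP i j hij b hji (le_of_eq hbd) (1 / (b * T)) (κ * L / b)
    E0 (E0 * Y) (2 * κ ^ 2 * T ^ 2 * V2) κ1 κc y hE00 hUE hE
    (le_of_eq (by rw [hE0]; field_simp)) ha0 hκ10 hκc
    (by
      intro u hu
      rw [hV2]
      exact rangeI A c i b T L κ hb hT hL h10 hmax hone u hu)
    (by
      intro u hu1 hu2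
      rw [hκ1, hW1]
      exact rangeII A c i j b T L κ hb hT hmax hone u hu1 hu2)
    (by
      intro u hu1 hu2
      rw [hE0] at hu2
      exact hcl u hu1 hu2)
  obtain ⟨Z, hZ⟩ : ∃ Z : ℝ, Z = ∏ k, ((A k).card : ℝ) := ⟨_, rfl⟩
  obtain ⟨Q, hQ⟩ : ∃ Q : ℝ, Q = ∏ i ∈ (univ.erase i).erase j, ((A i).card : ℝ) := ⟨_, rfl⟩
  rw [← hZ, ← hQ] at h1
  rw [← hZ]
  have hZ0 : 0 ≤ Z := by rw [hZ]; exact prod_nonneg fun _ _ => Nat.cast_nonneg _
  have hQ0 : 0 ≤ Q := by rw [hQ]; exact prod_nonneg fun _ _ => Nat.cast_nonneg _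
  have hs : Real.sqrt (2 * κ ^ 2 * T ^ 2 * V2) = Real.sqrt 2 * (κ * T * Real.sqrt V2) := by
    have e : 2 * κ ^ 2 * T ^ 2 * V2 = 2 * ((κ * T) ^ 2 * V2) := by ring
    rw [e, Real.sqrt_mul (by norm_num), Real.sqrt_mul (sq_nonneg _), Real.sqrt_sq (by positivity)]
  have h2 := divE _ E0 Y κ _ Z (P * N) κ1 κc Q b L T (Real.sqrt V2) hE00 hY h1 hs hE0 hb hL hκ hT
    hV0 hZ0
  rw [ht]
  have ht0 : 0 < T * L := by positivity
  have hηN : 0 ≤ η * N := by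
    have : 0 < N := by linarith
    positivity
  have h3 := num4 N η P (κ1 * (1 / Y) + κc) (T * L) Q Z hη ht0 (by rw [← ht]; exact htN) hP0
    (by positivity) hQ0 (by
      rw [hZ, hQ, ← mul_prod_erase univ _ (mem_univ i), ← mul_prod_erase (univ.erase i) _ hjm]
      exact mul_le_mul (hAη i) (mul_le_mul_of_nonneg_right (hAη j)
        (prod_nonneg fun _ _ => Nat.cast_nonneg _))
        (mul_nonneg hηN (prod_nonneg fun _ _ => Nat.cast_nonneg _)) (Nat.cast_nonneg _))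
  have h4 : (((Fintype.piFinset A).filter (fun x : Fin n → ℝ =>
      |∑ i, c i * x i - y| ≤ w)).card : ℝ) ≤ (((Fintype.piFinset A).filter
        (fun x : Fin n → ℝ => |∑ i, c i * x i - y| ≤ 1 / (2 * Real.pi * (E0 * Y)))).card : ℝ) := by
    have : (Fintype.piFinset A).filter (fun x : Fin n → ℝ => |∑ i, c i * x i - y| ≤ w) ⊆
        (Fintype.piFinset A).filter (fun x : Fin n → ℝ =>
          |∑ i, c i * x i - y| ≤ 1 / (2 * Real.pi * (E0 * Y))) := by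
      intro x hx
      rw [mem_filter] at hx ⊢
      refine ⟨hx.1, hx.2.trans (hw.trans (le_of_eq ?_))⟩
      rw [hE0]
      field_simp
    exact_mod_cast card_le_card this
  refine h4.trans (h2.trans ?_)
  exact add_le_add_right h3 _


end Pool.Agent.TH801.LG
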