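import Pool.Agent.TH801.LG.Step

/-! A dual large sieve inequality over a well distributed set. -/

set_option autoImplicit false

open Finset MeasureTheory Complex
open scoped ComplexConjugate

namespace Pool.Agent.TH801.LG

open Pool.Agent.TH801.LR (norm_ex)

lemma dual_sieve {ι : Type*} [DecidableEq ι] (Γ A : Finset ℝ) (hA : A ⊆ Γ) (w : ℝ → ℝ) (N ε : ℝ)
    (hN : 0 ≤ N) (hε : 0 ≤ ε) (hw : ∀ x ∈ Γ, 1 ≤ w x) (hwN : ∑ x ∈ Γ, w x ≤ N)
    (J : Finset ι) (φ : ι → ℝ → ℝ)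
    (h : ∀ a ∈ J, ∀ b ∈ J, a ≠ b →
      ‖∑ x ∈ Γ, (w x : ℂ) * cexp (I * ((φ a x - φ b x : ℝ) : ℂ))‖ ≤ ε * N) :
    ∑ a ∈ J, ‖Sf A (φ a)‖ ^ 2 ≤ A.card * (N * (1 + J.card * ε)) := by
  classical
  obtain ⟨S, hS⟩ : ∃ S : ι → ℂ, ∀ a, S a = Sf A (φ a) := ⟨_, fun _ => rfl⟩
  simp_rw [← hS]
  obtain ⟨Z, hZ⟩ : ∃ Z : ℝ, Z = ∑ a ∈ J, ‖S a‖ ^ 2 := ⟨_, rfl⟩
  have hZ0 : 0 ≤ Z := by rw [hZ]; exact sum_nonneg fun _ _ => sq_nonneg _
  obtain ⟨G, hG⟩ : ∃ G : ℝ → ℂ, ∀ x, G x = ∑ a ∈ J, conj (S a) * cexp (I * ((φ a x : ℝ) : ℂ)) :=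
    ⟨_, fun _ => rfl⟩
  -- the sum over A
  have h1 : (Z : ℂ) = ∑ x ∈ A, G x := by
    have e1 : ∑ x ∈ A, G x = ∑ a ∈ J, conj (S a) * S a := by
      simp_rw [hG]
      rw [sum_comm]
      refine sum_congr rfl fun a _ => ?_
      rw [← mul_sum]
      congr 1
      rw [hS]
      rfl
    rw [e1, hZ]
    push_cast
    refine sum_congr rfl fun a _ => ?_
    rw [mul_comm, Complex.mul_conj, Complex.normSq_eq_norm_sq]
    push_cast
    rfl
  have h2 : Z ≤ ∑ x ∈ A, ‖G x‖ := by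
    have : Z = ‖(Z : ℂ)‖ := by rw [Complex.norm_real, Real.norm_of_nonneg hZ0]
    rw [this, h1]
    exact norm_sum_le _ _
  have h3 : Z ^ 2 ≤ A.card * ∑ x ∈ Γ, w x * ‖G x‖ ^ 2 := by
    refine (pow_le_pow_left₀ hZ0 h2 2).trans (sq_sum_le_card_mul_sum_sq.trans ?_)
    refine mul_le_mul_of_nonneg_left ?_ (Nat.cast_nonneg _)
    refine (sum_le_sum_of_subset_of_nonneg hA fun x _ _ => sq_nonneg _).trans ?_
    exact sum_le_sum fun x hx => le_mul_of_one_le_left (sq_nonneg _) (hw x hx)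
  -- the weighted mean square
  have h4 : ((∑ x ∈ Γ, w x * ‖G x‖ ^ 2 : ℝ) : ℂ) = ∑ a ∈ J, ∑ b ∈ J, conj (S a) * S b *
      ∑ x ∈ Γ, (w x : ℂ) * cexp (I * ((φ a x - φ b x : ℝ) : ℂ)) := by
    have e2 : ∀ x : ℝ, ((‖G x‖ ^ 2 : ℝ) : ℂ) = ∑ a ∈ J, ∑ b ∈ J, conj (S a) * S b *
        cexp (I * ((φ a x - φ b x : ℝ) : ℂ)) := by
      intro x
      have e3 : ((‖G x‖ ^ 2 : ℝ) : ℂ) = G x * conj (G x) := by
        rw [Complex.mul_conj, Complex.normSq_eq_norm_sq]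
      rw [e3, hG, map_sum, sum_mul_sum]
      refine sum_congr rfl fun a _ => sum_congr rfl fun b _ => ?_
      rw [map_mul, Complex.conj_conj, ← Complex.exp_conj, map_mul, Complex.conj_I,
        Complex.conj_ofReal]
      have e4 : cexp (I * ((φ a x - φ b x : ℝ) : ℂ)) =
          cexp (I * ((φ a x : ℝ) : ℂ)) * cexp (-I * ((φ b x : ℝ) : ℂ)) := by
        rw [← Complex.exp_add]
        congr 1
        push_cast
        ring
      rw [e4]; ring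
    rw [Complex.ofReal_sum]
    have e5 : ∀ x ∈ Γ, ((w x * ‖G x‖ ^ 2 : ℝ) : ℂ) = ∑ a ∈ J, ∑ b ∈ J, conj (S a) * S b *
        ((w x : ℂ) * cexp (I * ((φ a x - φ b x : ℝ) : ℂ))) := by
      intro x _
      rw [Complex.ofReal_mul, e2 x, mul_sum]
      refine sum_congr rfl fun a _ => ?_
      rw [mul_sum]
      refine sum_congr rfl fun b _ => ?_
      ring
    rw [sum_congr rfl e5, sum_comm]
    refine sum_congr rfl fun a _ => ?_
    rw [sum_comm]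
    refine sum_congr rfl fun b _ => ?_
    rw [mul_sum]
  have h5 : ∑ x ∈ Γ, w x * ‖G x‖ ^ 2 ≤ N * (1 + J.card * ε) * Z := by
    have hnn : 0 ≤ ∑ x ∈ Γ, w x * ‖G x‖ ^ 2 :=
      sum_nonneg fun x hx => mul_nonneg (zero_le_one.trans (hw x hx)) (sq_nonneg _)
    have e6 : ∑ x ∈ Γ, w x * ‖G x‖ ^ 2 = ‖((∑ x ∈ Γ, w x * ‖G x‖ ^ 2 : ℝ) : ℂ)‖ := by
      rw [Complex.norm_real, Real.norm_of_nonneg hnn]
    rw [e6, h4]
    have e7 : ∀ a ∈ J, ∀ b ∈ J, ‖conj (S a) * S b *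
        ∑ x ∈ Γ, (w x : ℂ) * cexp (I * ((φ a x - φ b x : ℝ) : ℂ))‖ ≤
        (if a = b then N * ‖S a‖ ^ 2 else 0) + ε * N * (‖S a‖ * ‖S b‖) := by
      intro a ha b hb
      rw [norm_mul, norm_mul, RCLike.norm_conj]
      by_cases hab : a = b
      · rw [if_pos hab, ← hab]
        have h6 : ‖∑ x ∈ Γ, (w x : ℂ) * cexp (I * ((φ a x - φ a x : ℝ) : ℂ))‖ ≤ N := by
          refine (norm_sum_le _ _).trans (le_trans (sum_le_sum fun x hx => ?_) hwN)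
          rw [norm_mul, norm_ex, mul_one, Complex.norm_real,
            Real.norm_of_nonneg (zero_le_one.trans (hw x hx))]
        have h7 := mul_le_mul_of_nonneg_left h6 (mul_nonneg (norm_nonneg (S a)) (norm_nonneg (S a)))
        have h8 : 0 ≤ ε * N * (‖S a‖ * ‖S a‖) := by positivity
        have h9 : ‖S a‖ * ‖S a‖ * N = N * ‖S a‖ ^ 2 := by ring
        linarith
      · rw [if_neg hab, zero_add]
        have h7 := mul_le_mul_of_nonneg_left (h a ha b hb hab)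
          (mul_nonneg (norm_nonneg (S a)) (norm_nonneg (S b)))
        refine h7.trans (le_of_eq ?_)
        ring
    refine (norm_sum_le _ _).trans ((sum_le_sum fun a ha => (norm_sum_le _ _).trans
      (sum_le_sum fun b hb => e7 a ha b hb)).trans ?_)
    have e8 : ∑ a ∈ J, ∑ b ∈ J, ((if a = b then N * ‖S a‖ ^ 2 else 0) +
        ε * N * (‖S a‖ * ‖S b‖)) = N * Z + ε * N * (∑ a ∈ J, ‖S a‖) ^ 2 := by
      simp_rw [sum_add_distrib]
      congr 1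
      · rw [hZ, mul_sum]
        refine sum_congr rfl fun a ha => ?_
        rw [sum_ite_eq J a (fun _ => N * ‖S a‖ ^ 2), if_pos ha]
      · rw [sq, sum_mul_sum, mul_sum]
        refine sum_congr rfl fun a _ => ?_
        rw [mul_sum]
    rw [e8]
    have h10 : (∑ a ∈ J, ‖S a‖) ^ 2 ≤ J.card * Z := by
      rw [hZ]; exact sq_sum_le_card_mul_sum_sq
    have h11 := mul_le_mul_of_nonneg_left h10 (mul_nonneg hε hN)
    calc N * Z + ε * N * (∑ a ∈ J, ‖S a‖) ^ 2 ≤ N * Z + ε * N * (J.card * Z) := by linarith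
      _ = _ := by ring
  rw [← hZ]
  rcases hZ0.lt_or_eq with h0 | h0
  · have h6 : Z * Z ≤ A.card * (N * (1 + J.card * ε)) * Z := by
      calc Z * Z = Z ^ 2 := by ring
        _ ≤ _ := h3
        _ ≤ A.card * (N * (1 + J.card * ε) * Z) :=
            mul_le_mul_of_nonneg_left h5 (Nat.cast_nonneg _)
        _ = _ := by ring
    exact le_of_mul_le_mul_right h6 h0
  · rw [← h0]; positivity

/-- the inequality of the means -/
lemma am_gm {ι : Type*} (J : Finset ι) (f : ι → ℝ) (m : ℕ) (hm : 1 ≤ m)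
    (hJ : J.card = m) (B : ℝ) (hB : ∑ a ∈ J, f a ^ 2 ≤ m * B ^ 2) (hB0 : 0 ≤ B) :
    ∏ a ∈ J, f a ≤ B ^ m := by
  have hm0 : (0 : ℝ) < m := by exact_mod_cast hm
  have h1 := Real.geom_mean_le_arith_mean J (fun _ => (1 : ℝ)) (fun a => f a ^ 2)
    (fun _ _ => zero_le_one) (by rw [sum_const, hJ, nsmul_eq_mul, mul_one]; exact hm0)
    (fun a _ => sq_nonneg _)
  simp only [Real.rpow_one, sum_const, hJ, nsmul_eq_mul, mul_one, one_mul] at h1
  have h2 : (∑ a ∈ J, f a ^ 2) / m ≤ B ^ 2 := by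
    rw [div_le_iff₀ hm0]; linarith
  have hP0 : 0 ≤ ∏ a ∈ J, f a ^ 2 := prod_nonneg fun a _ => sq_nonneg _
  have h3 : ∏ a ∈ J, f a ^ 2 ≤ (B ^ 2) ^ m := by
    have h4 := pow_le_pow_left₀ (Real.rpow_nonneg hP0 _) (h1.trans h2) m
    rw [← Real.rpow_natCast, ← Real.rpow_mul hP0, inv_mul_cancel₀ hm0.ne', Real.rpow_one] at h4
    exact h4
  rw [prod_pow, ← pow_mul, mul_comm 2 m, pow_mul] at h3
  exact le_of_sq_le_sq h3 (pow_nonneg hB0 m)

end Pool.Agent.TH801.LG
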