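import Pool.Agent.TH801.LG.Nrm

/-! Separable relations between ordinates: the main theorem. -/

set_option autoImplicit false

open Finset MeasureTheory Complex
open scoped ComplexConjugate

namespace Pool.Agent.TH801.LG

open Pool.Agent.TH801.LU
open H370 (Zf zset mult NN mem_Zf NN_eq good_zeta)
open Pool.Agent.TH801.LR (norm_ex cell)

theorem main (η Λ : ℝ) (r : ℕ) (hη : 0 < η) (hΛ : 1 ≤ Λ) : ∃ K T₀ : ℝ, 0 < K ∧
    ∀ T : ℝ, T₀ ≤ T → ∀ (n : ℕ) (f : Fin n → ℝ → ℝ) (c : Fin n → ℝ) (A : Fin n → Finset ℝ),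
      (∀ k, ContDiffOn ℝ 2 (f k) (Set.Ioi 0)) → (∀ k, c k = deriv (f k) T) →
      (∀ k, ∀ x : ℝ, T / 2 ^ r ≤ x → x ≤ T → |c k| ≤ Λ * |deriv (f k) x| ∧
        T * |deriv (deriv (f k)) x| ≤ Λ * |c k|) →
      (∀ k, ∀ γ ∈ A k, T / 2 ^ r < γ ∧ γ ≤ T ∧ ∃ s : ℂ, s.im = γ ∧ 0 < s.re ∧ s.re < 1 ∧
        riemannZeta s = 0) →
      (∀ k, η * (T * Real.log T) ≤ (A k).card) →
      ∀ i j, i ≠ j → |c j| ≤ |c i| → (∀ k, k ≠ i → |c k| ≤ |c j|) → c j ≠ 0 →
      ∀ s : ℝ, 0 < s → s ≤ |c j| → ∀ (W : Finset (Fin n)) (M : ℕ) (σ : Fin n → ℕ),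
      (∀ p ∈ W, σ p < M) →
      (∀ p ∈ W, ∀ q ∈ W, p ≠ q → σ p = σ q → |c p - c q| ≤ s ∧
        K * |c j| ≤ |c p - c q| * (T * Real.log T) ∧
        ∀ x : ℝ, T / 2 ^ r ≤ x → x ≤ T → |c p - c q| ≤ Λ * |deriv (f p) x - deriv (f q) x| ∧
          T * |deriv (deriv (f p)) x - deriv (deriv (f q)) x| ≤ Λ * |c p - c q|) → ∀ y : ℝ,
      (((Fintype.piFinset A).filter (fun x : Fin n → ℝ => |∑ k, f k (x k) - y| ≤
        s / Real.log T)).card : ℝ) ≤
      K * (s / Real.sqrt (∑ k ∈ univ.erase i, c k ^ 2) +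
        Real.exp (M - W.card / K)) * (∏ k, ((A k).card : ℝ)) / (T * Real.log T) := by
  classical
  obtain ⟨C1, hC1, hu1⟩ := u1
  obtain ⟨P1, T3, hP1, hT3, hu3⟩ := u3
  have hΛ0 : 0 < Λ := by linarith
  obtain ⟨S, hS⟩ : ∃ S : ℝ, S = ∑' d : ℤ, 1 / (1 + (d : ℝ) ^ 2) := ⟨_, rfl⟩
  have hS0 : 0 ≤ S := by rw [hS]; exact tsum_nonneg fun d => by positivity
  obtain ⟨P2, hP2⟩ : ∃ P2 : ℝ, P2 = (1 + Λ ^ 2) * (3 * S * P1) + 1 := ⟨_, rfl⟩
  have hP20 : 0 < P2 := by rw [hP2]; positivity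
  obtain ⟨ε, hε, habs⟩ := absmain3 (η / (1 + Λ)) C1 P2 (by positivity) hC1 hP20
  obtain ⟨c0, D0, T4, hc0, hc02, hD0, hT4, hzexp⟩ := zexp ε Λ r hε hΛ
  obtain ⟨K, T5, hK, hmain⟩ := habs c0 ((1 + Λ) * D0) hc0 hc02 (by positivity)
  refine ⟨K, max (max T3 (2 ^ r)) (max T4 T5), hK, ?_⟩
  intro T hT n f c A hf hc hreg hA hAc i j hij hji hmax hcj s hs0 hsb W M σ hσM hW y
  have hTT3 : T3 ≤ T := (le_max_left _ _).trans ((le_max_left _ _).trans hT)
  have hTr : (2 : ℝ) ^ r ≤ T := (le_max_right _ _).trans ((le_max_left _ _).trans hT)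
  have hTT4 : T4 ≤ T := (le_max_left _ _).trans ((le_max_right _ _).trans hT)
  have hTT5 : T5 ≤ T := (le_max_right _ _).trans ((le_max_right _ _).trans hT)
  have hT100 : 100 ≤ T := hT3.trans hTT3
  have hT0 : 0 < T := by linarith
  have hL1 : 1 ≤ Real.log T := by
    rw [Real.le_log_iff_exp_le hT0]
    have := Real.exp_one_lt_d9
    linarith
  have h2r : (1 : ℝ) ≤ 2 ^ r := one_le_pow₀ (by norm_num)
  obtain ⟨a, ha⟩ : ∃ a : ℝ, a = T / 2 ^ r := ⟨_, rfl⟩
  have ha1 : 1 ≤ a := by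
    rw [ha, le_div_iff₀ (by positivity)]; linarith
  have haT : a ≤ T := by
    rw [ha]; exact div_le_self hT0.le h2r
  have hQpa := hu3 T hTT3
  have hwN0 : ∑ x ∈ Gam T, wU T x ≤ C1 * (T * Real.log T) := by
    rw [Gam_sum]; exact hu1 T (by linarith)
  have hpairs0 := (Gam_pairs T).trans hQpa
  have hze := hzexp T hTT4
  rw [← ha] at hze hreg hA hW
  -- derivatives
  have hsub : ∀ x ∈ Set.Icc a T, (0 : ℝ) < x := fun x hx => by
    have := hx.1
    linarith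
  have hD1 : ∀ k, ∀ x ∈ Set.Icc a T, HasDerivAt (f k) (deriv (f k) x) x := by
    intro k x hx
    have h1 : DifferentiableOn ℝ (f k) (Set.Ioi 0) := (hf k).differentiableOn (by norm_num)
    exact (h1.differentiableAt (Ioi_mem_nhds (hsub x hx))).hasDerivAt
  have hCD : ∀ k, ContDiffOn ℝ 1 (deriv (f k)) (Set.Ioi 0) := fun k =>
    (hf k).deriv_of_isOpen isOpen_Ioi (by norm_num)
  have hD2 : ∀ k, ∀ x ∈ Set.Icc a T, HasDerivAt (deriv (f k)) (deriv (deriv (f k)) x) x := by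
    intro k x hx
    have h1 : DifferentiableOn ℝ (deriv (f k)) (Set.Ioi 0) := (hCD k).differentiableOn (by norm_num)
    exact (h1.differentiableAt (Ioi_mem_nhds (hsub x hx))).hasDerivAt
  have hC2 : ∀ k, ContinuousOn (deriv (deriv (f k))) (Set.Icc a T) := by
    intro k
    have h1 : ContDiffOn ℝ 0 (deriv (deriv (f k))) (Set.Ioi 0) :=
      (hCD k).deriv_of_isOpen isOpen_Ioi (by norm_num)
    exact h1.continuousOn.mono fun x hx => hsub x hx
  -- normalised functions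
  have hex : ∀ k, ∃ g : ℝ → ℝ, (∀ x ∈ Set.Icc a T, f k x = f k a + c k * g x) ∧
      (∀ x ∈ Set.Icc a T, ∀ y ∈ Set.Icc a T, |x - y| ≤ Λ * |g x - g y|) ∧
      (∀ x ∈ Set.Icc a T, a < x → 0 < g x ∧ g x ≤ (1 + Λ) * T) := fun k =>
    gex a T Λ (c k) (f k) (deriv (f k)) (deriv (deriv (f k))) (by linarith) hT0 hΛ haT (hc k)
      (hD1 k) (hD2 k) (fun x hx => (hreg k x hx.1 hx.2).1) (fun x hx => (hreg k x hx.1 hx.2).2)
  choose g hg1 hg2 hg3 using hex
  obtain ⟨Γ, hΓ⟩ : ∃ Γ : Finset ℝ, Γ = Gar a T := ⟨_, rfl⟩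
  have hΓG : Γ ⊆ Gam T := by rw [hΓ]; exact filter_subset _ _
  have hΓm : ∀ x ∈ Γ, a < x ∧ x ∈ Set.Icc a T := by
    intro x hx
    rw [hΓ] at hx
    have h1 := (mem_filter.1 hx).2
    obtain ⟨s, hs, hsx⟩ := mem_Gam.1 (mem_filter.1 hx).1
    rw [mem_ZZ, hsx] at hs
    exact ⟨h1, h1.le, hs.2.2.2.1⟩
  have hAG : ∀ k, A k ⊆ Γ := by
    intro k γ hγ
    obtain ⟨h1, h2, s, h3, h4, h5, h6⟩ := hA k γ hγ
    rw [hΓ]
    refine mem_filter.2 ⟨?_, h1⟩
    rw [mem_Gam]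
    refine ⟨s, ?_, h3⟩
    rw [mem_ZZ, h3]
    exact ⟨h4, h5, by linarith, h2, h6⟩
  obtain ⟨L, hL⟩ : ∃ L : ℝ, L = Real.log T := ⟨_, rfl⟩
  rw [← hL] at hL1 hAc hwN0 hpairs0 hze hW ⊢
  have hL0 : 0 < L := by linarith
  have hTL0 : 0 < T * L := by positivity
  have hTL' : T * L ≤ (1 + Λ) * T * L := by
    have : 0 ≤ Λ * (T * L) := by positivity
    nlinarith
  have hinj : ∀ k, Set.InjOn (g k) Γ := by
    intro k x hx y hy hxy
    have h1 := hg2 k x (hΓm x hx).2 y (hΓm y hy).2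
    rw [hxy, sub_self, abs_zero, mul_zero] at h1
    have h2 := abs_nonpos_iff.1 h1
    linarith
  have hpairs1 : ∀ k, ∑ x ∈ Γ, ∑ y ∈ Γ, (if |g k x - g k y| ≤ 1 / L then (1 : ℝ) else 0) ≤
      P2 * ((1 + Λ) * T * L) := by
    intro k
    have h1 : ∑ x ∈ Γ, ∑ y ∈ Γ, (if |g k x - g k y| ≤ 1 / L then (1 : ℝ) else 0) ≤
        ∑ x ∈ Γ, ∑ y ∈ Γ, (if |x - y| ≤ Λ / L then (1 : ℝ) else 0) := by
      refine sum_le_sum fun x hx => sum_le_sum fun y hy => ?_
      by_cases h2 : |g k x - g k y| ≤ 1 / L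
      · have h3 : |x - y| ≤ Λ / L := by
          refine (hg2 k x (hΓm x hx).2 y (hΓm y hy).2).trans ?_
          have := mul_le_mul_of_nonneg_left h2 hΛ0.le
          rwa [mul_one_div] at this
        rw [if_pos h2, if_pos h3]
      · rw [if_neg h2]
        split_ifs <;> norm_num
    have h4 := pairs_scale Γ L Λ (P1 * (T * L)) hL0 (pairsB hΓG hpairs0)
    rw [← hS] at h4
    refine h1.trans (h4.trans ?_)
    have h5 : (1 + Λ ^ 2) * (3 * S * (P1 * (T * L))) ≤ P2 * (T * L) := by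
      rw [hP2]
      have : (1 + Λ ^ 2) * (3 * S * (P1 * (T * L))) = (1 + Λ ^ 2) * (3 * S * P1) * (T * L) := by
        ring
      rw [this]
      exact mul_le_mul_of_nonneg_right (by linarith) hTL0.le
    exact h5.trans (mul_le_mul_of_nonneg_left hTL' hP20.le)
  have hfin := hmain ((1 + Λ) * T) L (by positivity) hL1 (by
      refine hTT5.trans (le_trans ?_ hTL')
      exact le_mul_of_one_le_right hT0.le hL1) Γ (wU T) (fun x hx => wU_one (hΓG hx)) (by
      refine (sum_le_sum_of_subset_of_nonneg hΓG fun x _ _ => wU_nonneg T x).trans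
        (hwN0.trans ?_)
      exact mul_le_mul_of_nonneg_left hTL' (by linarith)) n c g A hinj
      (fun k x hx => hg3 k x (hΓm x hx).2 (hΓm x hx).1) hpairs1 hAG (by
      intro k
      refine le_trans (le_of_eq ?_) (hAc k)
      field_simp) i j hij hji hmax hcj s hs0 hsb W M σ hσM (by
      intro p hp q hq hpq hσ
      refine ⟨(hW p hp q hq hpq hσ).1, (hW p hp q hq hpq hσ).2.1.trans ?_⟩
      exact mul_le_mul_of_nonneg_left hTL' (abs_nonneg _)) (by
      intro p hp q hq hpq hσ v hv1 hv2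
      have hW2 := (hW p hp q hq hpq hσ).2
      have hδ : 0 < |c p - c q| := by
        by_contra hcon
        have h0 : |c p - c q| = 0 := le_antisymm (not_lt.1 hcon) (abs_nonneg _)
        have h1 := hW2.1
        rw [h0, zero_mul] at h1
        have : 0 < K * |c j| := mul_pos hK (abs_pos.2 hcj)
        linarith
      rw [abs_mul] at hv1 hv2
      have h1 := hze (fun x => f p x - f q x) (fun x => deriv (f p) x - deriv (f q) x)
        (fun x => deriv (deriv (f p)) x - deriv (deriv (f q)) x) (|c p - c q|) v hδ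
        (by show |deriv (f p) T - deriv (f q) T| = _; rw [← hc, ← hc])
        (fun x hx => (hD1 p x hx).sub (hD1 q x hx))
        (fun x hx => (hD2 p x hx).sub (hD2 q x hx))
        ((hC2 p).sub (hC2 q))
        (fun x hx => (hW2.2 x hx.1 hx.2).1)
        (fun x hx => (hW2.2 x hx.1 hx.2).2)
        (by
          refine le_trans (le_of_eq ?_) hv1
          field_simp) hv2
      have h2 := Gar_sum a T ha1 (fun x => cexp (I * ((v * (f p x - f q x) : ℝ) : ℂ)))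
      rw [← hΓ] at h2
      have h3 : ∑ x ∈ Γ, (wU T x : ℂ) * cexp (I * ((v * (c p * g p x - c q * g q x) : ℝ) : ℂ)) =
          cexp (I * ((-(v * (f p a - f q a)) : ℝ) : ℂ)) *
            ∑ x ∈ Γ, (wU T x : ℂ) * cexp (I * ((v * (f p x - f q x) : ℝ) : ℂ)) := by
        rw [mul_sum]
        refine sum_congr rfl fun x hx => ?_
        have e1 := hg1 p x (hΓm x hx).2
        have e2 := hg1 q x (hΓm x hx).2
        have e3 : cexp (I * ((v * (c p * g p x - c q * g q x) : ℝ) : ℂ)) =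
            cexp (I * ((-(v * (f p a - f q a)) : ℝ) : ℂ)) *
              cexp (I * ((v * (f p x - f q x) : ℝ) : ℂ)) := by
          rw [← Complex.exp_add, ← mul_add, ← Complex.ofReal_add]
          congr 3
          rw [e1, e2]
          ring
        rw [e3]
        ring
      rw [h3, norm_mul, norm_ex, one_mul, h2]
      exact h1.trans (mul_le_mul_of_nonneg_left hTL' hε.le)) (y - ∑ k, f k a)
  have hfilt : (Fintype.piFinset A).filter (fun x : Fin n → ℝ => |∑ k, f k (x k) - y| ≤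
        s / L) = (Fintype.piFinset A).filter (fun x : Fin n → ℝ =>
        |∑ k, c k * g k (x k) - (y - ∑ k, f k a)| ≤ s / L) := by
    refine filter_congr fun x hx => ?_
    rw [Fintype.mem_piFinset] at hx
    have h1 : ∑ k, f k (x k) = ∑ k, f k a + ∑ k, c k * g k (x k) := by
      rw [← sum_add_distrib]
      exact sum_congr rfl fun k _ => hg1 k (x k) (hΓm _ (hAG k (hx k))).2
    have h2 : ∑ k, f k (x k) - y = ∑ k, c k * g k (x k) - (y - ∑ k, f k a) := by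
      rw [h1]; ring
    rw [h2]
  rw [hfilt]
  refine hfin.trans ?_
  refine div_le_div_of_nonneg_left ?_ hTL0 hTL'
  refine mul_nonneg (mul_nonneg hK.le ?_) (prod_nonneg fun _ _ => Nat.cast_nonneg _)
  exact add_nonneg (div_nonneg hs0.le (Real.sqrt_nonneg _)) (Real.exp_pos _).le

end Pool.Agent.TH801.LG
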