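import Pool.Agent.TH801.LG.AbsB

/-! Linear relations between ordinates in equal sets. -/

set_option autoImplicit false

open Finset MeasureTheory Complex
open scoped ComplexConjugate

namespace Pool.Agent.TH801.LG

open Pool.Agent.TH801.LU

theorem linB : ∃ C : ℝ, 0 < C ∧ ∀ (η : ℝ) (m : ℕ), 0 < η → 1 ≤ m →
    ∃ K T₀ : ℝ, 0 < K ∧ ∀ T : ℝ, T₀ ≤ T →
    ∀ (n : ℕ) (c : Fin n → ℝ) (A : Fin n → Finset ℝ),
      (∀ k, ∀ γ ∈ A k, 0 < γ ∧ γ ≤ T ∧ ∃ ρ : ℂ, ρ.im = γ ∧ 0 < ρ.re ∧ ρ.re < 1 ∧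
        riemannZeta ρ = 0) →
      (∀ k, η * (T * Real.log T) ≤ (A k).card) →
      ∀ i j, i ≠ j → |c j| ≤ |c i| → (∀ k, k ≠ i → |c k| ≤ |c j|) → c j ≠ 0 →
      ∀ s : ℝ, 0 < s → K * s ≤ |c j| → ∀ (W : Finset (Fin n)) (M : ℕ) (σ : Fin n → ℕ),
      i ∉ W → j ∉ W → (∀ p ∈ W, σ p < M) →
      (∀ l, l < M → (W.filter (fun p => σ p = l)).card = m) →
      (∀ p ∈ W, ∀ q ∈ W, p ≠ q → σ p = σ q → A p = A q ∧ |c p - c q| ≤ s ∧
        K * |c j| ≤ |c p - c q| * (T * Real.log T)) → ∀ y : ℝ,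
      (((Fintype.piFinset A).filter (fun x : Fin n → ℝ => |∑ k, c k * x k - y| ≤
        s / Real.log T)).card : ℝ) ≤
      (K * s / Real.sqrt (∑ k ∈ univ.erase i, c k ^ 2) +
        C / η ^ 2 * Real.sqrt (C / (η * m)) ^ (m * M)) *
        (∏ k, ((A k).card : ℝ)) / (T * Real.log T) := by
  classical
  obtain ⟨C1, hC1, hu1⟩ := u1
  obtain ⟨P1, T3, hP1, hT3, hu3⟩ := u3
  obtain ⟨C, hC, habs⟩ := absmainB C1 P1 hC1 hP1
  refine ⟨C, hC, fun η m hη hm => ?_⟩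
  have hm0 : (0 : ℝ) < m := by exact_mod_cast hm
  obtain ⟨c0, D0, T2, hc0, hc02, hD0, hT2, hz2⟩ := u4 (1 / m) (by positivity)
  obtain ⟨K, T5, hK, hmain⟩ := habs η m hη hm c0 D0 hc0 hc02 hD0
  refine ⟨K, max T3 (max T2 T5), hK, ?_⟩
  intro T hT n c A hA hAc i j hij hji hmax hcj s hs0 hsb W M σ hiW hjW hσM hWm hW y
  have hTT3 : T3 ≤ T := (le_max_left _ _).trans hT
  have hTT2 : T2 ≤ T := (le_max_left _ _).trans ((le_max_right _ _).trans hT)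
  have hTT5 : T5 ≤ T := (le_max_right _ _).trans ((le_max_right _ _).trans hT)
  have hT100 : 100 ≤ T := hT3.trans hTT3
  have hT0 : 0 < T := by linarith
  have hL1 : 1 ≤ Real.log T := by
    rw [Real.le_log_iff_exp_le hT0]
    have := Real.exp_one_lt_d9
    linarith
  refine hmain T (Real.log T) hT0 hL1 (hTT5.trans (le_mul_of_one_le_right hT0.le hL1)) (Gam T)
    (wU T) (fun x hx => wU_one hx) (by rw [Gam_sum]; exact hu1 T (by linarith)) n c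
    (fun _ x => x) A (fun k => Function.injective_id.injOn) ?_
    (fun k => (Gam_pairs T).trans (hu3 T hTT3)) ?_ hAc i j hij hji hmax hcj s hs0 hsb W M σ
    hiW hjW hσM hWm hW ?_ y
  · intro k x hx
    obtain ⟨z, hz, hzx⟩ := mem_Gam.1 hx
    rw [mem_ZZ, hzx] at hz
    exact ⟨hz.2.2.1, hz.2.2.2.1⟩
  · intro k γ hγ
    obtain ⟨h1, h2, z, h3, h4, h5, h6⟩ := hA k γ hγ
    rw [mem_Gam]
    refine ⟨z, ?_, h3⟩
    rw [mem_ZZ, h3]
    exact ⟨h4, h5, h1, h2, h6⟩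
  · intro p _ q _ _ _ v h1 h2
    have h3 := hz2 T hTT2 (v * (c p - c q)) h1 h2
    rw [← Gam_exp] at h3
    refine le_trans (le_of_eq ?_) h3
    congr 1
    refine sum_congr rfl fun x _ => ?_
    have : v * (c p * x - c q * x) = v * (c p - c q) * x := by ring
    rw [this]

end Pool.Agent.TH801.LG
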