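import Pool.Agent.TH801.LG.Zx
import Pool.Agent.TH801.LG.Abs3

/-! Normalising a regular function. -/

set_option autoImplicit false

open Finset MeasureTheory Complex
open scoped ComplexConjugate

namespace Pool.Agent.TH801.LG

open Pool.Agent.TH801.LU
open H370 (Zf zset mult NN mem_Zf NN_eq good_zeta)
open Pool.Agent.TH801.LR (norm_ex cell)

lemma slopes (a T Λ δ : ℝ) (g g1 : ℝ → ℝ) (hΛ : 1 ≤ Λ)
    (d : ∀ x ∈ Set.Icc a T, HasDerivAt g (g1 x) x)
    (lo : ∀ x ∈ Set.Icc a T, 1 / Λ ≤ g1 x) (up : ∀ x ∈ Set.Icc a T, g1 x ≤ δ)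
    (x y : ℝ) (hx : x ∈ Set.Icc a T) (hy : y ∈ Set.Icc a T) (hxy : x < y) :
    y - x ≤ Λ * (g y - g x) ∧ g y - g x ≤ δ * (y - x) := by
  obtain ⟨z, hz, hze⟩ := exists_hasDerivAt_eq_slope g g1 hxy
    (fun t ht => (d t ⟨hx.1.trans ht.1, ht.2.trans hy.2⟩).continuousAt.continuousWithinAt)
    (fun t ht => d t ⟨hx.1.trans ht.1.le, ht.2.le.trans hy.2⟩)
  have hz2 : z ∈ Set.Icc a T := ⟨hx.1.trans hz.1.le, hz.2.le.trans hy.2⟩
  have h1 := lo z hz2
  have h2 := up z hz2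
  have hp : 0 < y - x := by linarith
  have hΛ0 : 0 < Λ := by linarith
  have e1 : g y - g x = g1 z * (y - x) := by
    rw [hze]; field_simp
  rw [e1]
  constructor
  · rw [div_le_iff₀ hΛ0] at h1
    have := mul_le_mul_of_nonneg_right h1 hp.le
    linarith
  · exact mul_le_mul_of_nonneg_right h2 hp.le

lemma gex (a T Λ c : ℝ) (f f1 f2 : ℝ → ℝ) (ha : 0 ≤ a) (hT : 0 < T) (hΛ : 1 ≤ Λ) (haT : a ≤ T)
    (hc : c = f1 T)
    (d1 : ∀ x ∈ Set.Icc a T, HasDerivAt f (f1 x) x)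
    (d2 : ∀ x ∈ Set.Icc a T, HasDerivAt f1 (f2 x) x)
    (b1 : ∀ x ∈ Set.Icc a T, |c| ≤ Λ * |f1 x|)
    (b2 : ∀ x ∈ Set.Icc a T, T * |f2 x| ≤ Λ * |c|) :
    ∃ g : ℝ → ℝ, (∀ x ∈ Set.Icc a T, f x = f a + c * g x) ∧
      (∀ x ∈ Set.Icc a T, ∀ y ∈ Set.Icc a T, |x - y| ≤ Λ * |g x - g y|) ∧
      (∀ x ∈ Set.Icc a T, a < x → 0 < g x ∧ g x ≤ (1 + Λ) * T) := by
  have hΛ0 : 0 < Λ := by linarith
  have hup := der_le a T Λ |c| f1 f2 ha hT hΛ0.le (abs_nonneg _) (by rw [hc]) d2 b2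
  rcases eq_or_ne c 0 with h0 | h0
  · refine ⟨fun x => x - a, ?_, ?_, ?_⟩
    · intro x hx
      rw [h0, zero_mul, add_zero]
      have h3 : ‖f x - f a‖ ≤ 0 * ‖x - a‖ :=
        (convex_Icc a T).norm_image_sub_le_of_norm_hasDerivWithin_le (f := f) (f' := f1)
          (fun y hy => (d1 y hy).hasDerivWithinAt) (fun y hy => by
            have := hup y hy
            rw [h0, abs_zero, mul_zero] at this
            rw [Real.norm_eq_abs]; exact this) ⟨le_rfl, haT⟩ hx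
      rw [zero_mul] at h3
      have h4 := norm_le_zero_iff.1 h3
      linarith
    · intro x _ y _
      have : x - a - (y - a) = x - y := by ring
      show |x - y| ≤ Λ * |x - a - (y - a)|
      rw [this]
      exact le_mul_of_one_le_left (abs_nonneg _) hΛ
    · intro x hx hax
      refine ⟨by show 0 < x - a; linarith, ?_⟩
      show x - a ≤ (1 + Λ) * T
      have h1 : x ≤ T := hx.2
      nlinarith
  · have hca : 0 < |c| := abs_pos.2 h0
    obtain ⟨g, hg⟩ : ∃ g : ℝ → ℝ, ∀ x, g x = (f x - f a) / c := ⟨_, fun _ => rfl⟩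
    obtain ⟨g1, hg1⟩ : ∃ g1 : ℝ → ℝ, ∀ x, g1 x = f1 x / c := ⟨_, fun _ => rfl⟩
    have hgd : ∀ x ∈ Set.Icc a T, HasDerivAt g (g1 x) x := by
      intro x hx
      have e : g = fun x => (f x - f a) / c := funext hg
      rw [e, hg1]
      exact ((d1 x hx).sub_const _).div_const c
    have hne : ∀ x ∈ Set.Icc a T, f1 x ≠ 0 := by
      intro x hx h
      have := b1 x hx
      rw [h, abs_zero, mul_zero] at this
      linarith
    have hcont : ContinuousOn (fun x => f1 x * c) (Set.Icc a T) := fun x hx =>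
      ((d2 x hx).continuousAt.continuousWithinAt).mul continuousWithinAt_const
    have hpos : ∀ x ∈ Set.Icc a T, 0 < f1 x * c := by
      intro x hx
      by_contra hcon
      push Not at hcon
      have h5 := isPreconnected_Icc.intermediate_value (a := x) (b := T) hx ⟨haT, le_rfl⟩ hcont
      have h6 : (0 : ℝ) ∈ Set.Icc (f1 x * c) (f1 T * c) := by
        refine ⟨hcon, ?_⟩
        rw [← hc]
        exact mul_self_nonneg c
      obtain ⟨z, hz, hz0⟩ := h5 h6
      have h7 : f1 z * c = 0 := hz0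
      rcases mul_eq_zero.1 h7 with h | h
      · exact hne z hz h
      · exact h0 h
    have hg1p : ∀ x ∈ Set.Icc a T, g1 x = |f1 x| / |c| := by
      intro x hx
      rw [hg1, ← abs_div]
      have : 0 < f1 x / c := by
        have h8 : f1 x / c = f1 x * c / c ^ 2 := by field_simp
        rw [h8]
        have := hpos x hx
        positivity
      exact (abs_of_pos this).symm
    have hlo : ∀ x ∈ Set.Icc a T, 1 / Λ ≤ g1 x := by
      intro x hx
      rw [hg1p x hx, div_le_div_iff₀ hΛ0 hca]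
      have := b1 x hx
      linarith
    have hupg : ∀ x ∈ Set.Icc a T, g1 x ≤ 1 + Λ := by
      intro x hx
      rw [hg1p x hx, div_le_iff₀ hca]
      exact hup x hx
    have hsl := slopes a T Λ (1 + Λ) g g1 hΛ hgd hlo hupg
    have hga : g a = 0 := by rw [hg, sub_self, zero_div]
    refine ⟨g, ?_, ?_, ?_⟩
    · intro x _
      rw [hg]; field_simp; ring
    · intro x hx y hy
      rcases lt_trichotomy x y with h | h | h
      · have h1 := (hsl x y hx hy h).1
        have h2 : g y - g x ≤ |g x - g y| := by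
          rw [abs_sub_comm]; exact le_abs_self _
        rw [abs_sub_comm, abs_of_pos (by linarith : 0 < y - x)]
        exact h1.trans (mul_le_mul_of_nonneg_left h2 hΛ0.le)
      · rw [h, sub_self, abs_zero]
        positivity
      · have h1 := (hsl y x hy hx h).1
        have h2 : g x - g y ≤ |g x - g y| := le_abs_self _
        rw [abs_of_pos (by linarith : 0 < x - y)]
        exact h1.trans (mul_le_mul_of_nonneg_left h2 hΛ0.le)
    · intro x hx hax
      obtain ⟨h1, h2⟩ := hsl a x ⟨le_rfl, haT⟩ hx hax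
      rw [hga, sub_zero] at h1 h2
      constructor
      · by_contra hcon
        push Not at hcon
        have h3 : Λ * g x ≤ 0 := mul_nonpos_of_nonneg_of_nonpos hΛ0.le hcon
        linarith
      · refine h2.trans (mul_le_mul_of_nonneg_left ?_ (by linarith))
        linarith [hx.2]

lemma pairsB {Γ A : Finset ℝ} (hA : A ⊆ Γ) {P L : ℝ}
    (h : ∑ x ∈ Γ, ∑ y ∈ Γ, (if |x - y| ≤ 1 / L then (1 : ℝ) else 0) ≤ P) :
    ∑ x ∈ A, ∑ y ∈ A, (if |x - y| ≤ 1 / L then (1 : ℝ) else 0) ≤ P := by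
  have hnn : ∀ x y : ℝ, 0 ≤ (if |x - y| ≤ 1 / L then (1 : ℝ) else 0) := fun x y => by
    split_ifs <;> norm_num
  refine ((sum_le_sum fun x _ => sum_le_sum_of_subset_of_nonneg hA
    fun y _ _ => hnn x y).trans ?_).trans h
  exact sum_le_sum_of_subset_of_nonneg hA fun x _ _ => sum_nonneg fun y _ => hnn x y

/-- pairs at a multiple of the mean spacing -/
lemma pairs_scale (Γ : Finset ℝ) (L Λ P : ℝ) (hL : 0 < L)
    (h : ∑ x ∈ Γ, ∑ y ∈ Γ, (if |x - y| ≤ 1 / L then (1 : ℝ) else 0) ≤ P) :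
    ∑ x ∈ Γ, ∑ y ∈ Γ, (if |x - y| ≤ Λ / L then (1 : ℝ) else 0) ≤
      (1 + Λ ^ 2) * (3 * (∑' d : ℤ, 1 / (1 + (d : ℝ) ^ 2)) * P) := by
  obtain ⟨S, hS⟩ : ∃ S : ℝ, S = ∑' d : ℤ, 1 / (1 + (d : ℝ) ^ 2) := ⟨_, rfl⟩
  have hS0 : 0 ≤ S := by rw [hS]; exact tsum_nonneg fun d => by positivity
  have h1 := cell Γ L hL
  rw [← hS] at h1 ⊢
  have h2 : ∀ x y : ℝ, (if |x - y| ≤ Λ / L then (1 : ℝ) else 0) ≤
      (1 + Λ ^ 2) * (1 / (1 + (L * (x - y)) ^ 2)) := by
    intro x y
    split_ifs with hxy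
    · rw [mul_one_div, le_div_iff₀ (by positivity), one_mul]
      rw [le_div_iff₀ hL] at hxy
      have h3 : (L * (x - y)) ^ 2 ≤ Λ ^ 2 := by
        have h4 : (L * (x - y)) ^ 2 = (|x - y| * L) ^ 2 := by
          rw [mul_pow, mul_pow, sq_abs]; ring
        rw [h4]
        exact pow_le_pow_left₀ (by positivity) hxy 2
      linarith
    · positivity
  calc ∑ x ∈ Γ, ∑ y ∈ Γ, (if |x - y| ≤ Λ / L then (1 : ℝ) else 0) ≤
      ∑ x ∈ Γ, ∑ y ∈ Γ, (1 + Λ ^ 2) * (1 / (1 + (L * (x - y)) ^ 2)) :=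
        sum_le_sum fun x _ => sum_le_sum fun y _ => h2 x y
    _ = (1 + Λ ^ 2) * ∑ x ∈ Γ, ∑ y ∈ Γ, 1 / (1 + (L * (x - y)) ^ 2) := by
        rw [mul_sum]
        refine sum_congr rfl fun x _ => ?_
        rw [mul_sum]
    _ ≤ (1 + Λ ^ 2) * (3 * S * P) := by
        refine mul_le_mul_of_nonneg_left (h1.trans ?_) (by positivity)
        exact mul_le_mul_of_nonneg_left h (by positivity)

/-- the ordinates in `(a, T]` -/
noncomputable def Gar (a T : ℝ) : Finset ℝ := (Gam T).filter (fun x => a < x)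

lemma Gar_sum (a T : ℝ) (ha : 1 ≤ a) (G : ℝ → ℂ) : ∑ x ∈ Gar a T, (wU T x : ℂ) * G x =
    ∑ s ∈ Zf riemannZeta a T, (mult riemannZeta s : ℂ) * G s.im := by
  classical
  have h1 := sum_Gam T (fun x => if a < x then G x else 0)
  have h2 : ∑ x ∈ Gam T, (wU T x : ℂ) * (if a < x then G x else 0) =
      ∑ x ∈ Gar a T, (wU T x : ℂ) * G x := by
    unfold Gar
    rw [sum_filter]
    refine sum_congr rfl fun x _ => ?_
    split_ifs <;> simp
  have h3 : ∑ s ∈ ZZ T, (mu s : ℂ) * (if a < s.im then G s.im else 0) =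
      ∑ s ∈ Zf riemannZeta a T, (mult riemannZeta s : ℂ) * G s.im := by
    rw [← filter_eq ha, sum_filter]
    refine sum_congr rfl fun s _ => ?_
    unfold mu
    split_ifs
    · push_cast
      rfl
    · simp
  rw [← h2, ← h3]
  exact h1

end Pool.Agent.TH801.LG
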