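import Pool.Agent.TH801.LG.Samp

/-! Oscillatory integrals and exponential sums over zeros with smooth phases. -/

set_option autoImplicit false

open Finset MeasureTheory Complex
open scoped ComplexConjugate

namespace Pool.Agent.TH801.LG

open Pool.Agent.TH801.LU
open H370 (Zf zset mult NN mem_Zf NN_eq good_zeta)
open Pool.Agent.TH801.LR (norm_ex)

/-- integration by parts for a phase without stationary point -/
lemma osc2 (a b T Λ δ v : ℝ) (h h1 h2 : ℝ → ℝ) (hab : a ≤ b) (hT : 0 < T) (hbT : b - a ≤ T)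
    (hΛ : 1 ≤ Λ) (hδ : 0 < δ) (hv : v ≠ 0)
    (d1 : ∀ x ∈ Set.Icc a b, HasDerivAt h (h1 x) x)
    (d2 : ∀ x ∈ Set.Icc a b, HasDerivAt h1 (h2 x) x)
    (c2 : ContinuousOn h2 (Set.Icc a b))
    (b1 : ∀ x ∈ Set.Icc a b, δ ≤ Λ * |h1 x|)
    (b2 : ∀ x ∈ Set.Icc a b, T * |h2 x| ≤ Λ * δ) :
    ‖∫ x in a..b, cexp (I * ((v * h x : ℝ) : ℂ))‖ ≤ (2 * Λ + Λ ^ 3) / (|v| * δ) := by
  have hΛ0 : 0 < Λ := by linarith
  have hv0 : 0 < |v| := abs_pos.2 hv
  have hne : ∀ x ∈ Set.Icc a b, h1 x ≠ 0 := by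
    intro x hx h0
    have := b1 x hx
    rw [h0, abs_zero, mul_zero] at this
    linarith
  have hlow : ∀ x ∈ Set.Icc a b, δ / Λ ≤ |h1 x| := by
    intro x hx
    rw [div_le_iff₀ hΛ0]
    have := b1 x hx
    linarith
  have hIv : (I * (v : ℂ)) ≠ 0 := mul_ne_zero I_ne_zero (by exact_mod_cast hv)
  obtain ⟨E, hE⟩ : ∃ E : ℝ → ℂ, ∀ x, E x = cexp (I * ((v * h x : ℝ) : ℂ)) := ⟨_, fun _ => rfl⟩
  have hE1 : ∀ x, ‖E x‖ = 1 := fun x => by rw [hE]; exact norm_ex _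
  have hEd : ∀ x ∈ Set.Icc a b, HasDerivAt E (E x * (I * v * h1 x)) x := by
    intro x hx
    have e1 : HasDerivAt (fun x : ℝ => ((v * h x : ℝ) : ℂ)) ((v * h1 x : ℝ) : ℂ) x :=
      ((d1 x hx).const_mul v).ofReal_comp
    have e2 := (e1.const_mul I).cexp
    have e3 : E = fun x => cexp (I * ((v * h x : ℝ) : ℂ)) := funext hE
    rw [e3]
    refine e2.congr_deriv ?_
    push_cast
    ring
  obtain ⟨H, hH⟩ : ∃ H : ℝ → ℂ, ∀ x, H x = E x * (I * v * h1 x)⁻¹ := ⟨_, fun _ => rfl⟩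
  obtain ⟨R, hR⟩ : ∃ R : ℝ → ℂ, ∀ x, R x = E x * ((h2 x : ℂ) * (I * v * (h1 x : ℂ) ^ 2)⁻¹) :=
    ⟨_, fun _ => rfl⟩
  have hHd : ∀ x ∈ Set.Icc a b, HasDerivAt H (E x - R x) x := by
    intro x hx
    have n1 : (h1 x : ℂ) ≠ 0 := by exact_mod_cast hne x hx
    have n2 : I * (v : ℂ) * h1 x ≠ 0 := mul_ne_zero hIv n1
    have e1 : HasDerivAt (fun x : ℝ => I * (v : ℂ) * (h1 x : ℂ)) (I * v * (h2 x : ℂ)) x :=
      (d2 x hx).ofReal_comp.const_mul _
    have e2 := (hEd x hx).mul (e1.inv n2)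
    have e3 : H = E * fun x : ℝ => (I * (v : ℂ) * (h1 x : ℂ))⁻¹ := funext hH
    rw [e3]
    refine e2.congr_deriv ?_
    rw [hR, Pi.inv_apply]
    have nv : (v : ℂ) ≠ 0 := by exact_mod_cast hv
    have f1 : E x * (I * (v : ℂ) * (h1 x : ℂ)) * (I * (v : ℂ) * (h1 x : ℂ))⁻¹ = E x := by
      rw [mul_assoc, mul_inv_cancel₀ n2, mul_one]
    have f2 : -(I * (v : ℂ) * (h2 x : ℂ)) / (I * (v : ℂ) * (h1 x : ℂ)) ^ 2 =
        -((h2 x : ℂ) * (I * v * (h1 x : ℂ) ^ 2)⁻¹) := by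
      have : (I * (v : ℂ) * (h1 x : ℂ)) ^ 2 = (I * v) * (I * v * (h1 x : ℂ) ^ 2) := by ring
      rw [this, neg_div, mul_div_mul_left _ _ hIv, div_eq_mul_inv]
    rw [f1, f2]
    ring
  have cE : ContinuousOn E (Set.Icc a b) := fun x hx => (hEd x hx).continuousAt.continuousWithinAt
  have c1 : ContinuousOn h1 (Set.Icc a b) := fun x hx => (d2 x hx).continuousAt.continuousWithinAt
  have cR : ContinuousOn R (Set.Icc a b) := by
    have e3 : R = fun x => E x * ((h2 x : ℂ) * (I * v * (h1 x : ℂ) ^ 2)⁻¹) := funext hR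
    rw [e3]
    have c1' : ContinuousOn (fun x => (h1 x : ℂ)) (Set.Icc a b) :=
      Complex.continuous_ofReal.comp_continuousOn c1
    have c2' : ContinuousOn (fun x => (h2 x : ℂ)) (Set.Icc a b) :=
      Complex.continuous_ofReal.comp_continuousOn c2
    refine cE.mul (c2'.mul (ContinuousOn.inv₀ (continuousOn_const.mul (c1'.pow 2)) ?_))
    intro x hx
    have n1 : (h1 x : ℂ) ≠ 0 := by exact_mod_cast hne x hx
    exact mul_ne_zero hIv (pow_ne_zero 2 n1)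
  have iE : IntervalIntegrable E volume a b := cE.intervalIntegrable_of_Icc hab
  have iR : IntervalIntegrable R volume a b := cR.intervalIntegrable_of_Icc hab
  have hmain : ∫ x in a..b, (E x - R x) = H b - H a :=
    intervalIntegral.integral_eq_sub_of_hasDerivAt (fun x hx => hHd x (by
      rwa [Set.uIcc_of_le hab] at hx)) (iE.sub iR)
  rw [intervalIntegral.integral_sub iE iR] at hmain
  have hHn : ∀ x ∈ Set.Icc a b, ‖H x‖ ≤ Λ / (|v| * δ) := by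
    intro x hx
    rw [hH, norm_mul, hE1, one_mul, norm_inv, norm_mul, norm_mul, Complex.norm_I, one_mul,
      Complex.norm_real, Complex.norm_real, Real.norm_eq_abs, Real.norm_eq_abs, ← one_div,
      div_le_div_iff₀ (mul_pos hv0 (abs_pos.2 (hne x hx))) (mul_pos hv0 hδ)]
    have := mul_le_mul_of_nonneg_left (b1 x hx) hv0.le
    linarith
  have hRn : ∀ x ∈ Set.Icc a b, ‖R x‖ ≤ Λ ^ 3 / (|v| * δ) / T := by
    intro x hx
    rw [hR, norm_mul, hE1, one_mul, norm_mul, norm_inv, norm_mul, norm_mul, norm_pow,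
      Complex.norm_I, one_mul, Complex.norm_real, Complex.norm_real, Complex.norm_real,
      Real.norm_eq_abs, Real.norm_eq_abs, Real.norm_eq_abs]
    have n0 : 0 < |h1 x| := abs_pos.2 (hne x hx)
    have e1 : |h2 x| ≤ Λ * δ / T := by
      rw [le_div_iff₀ hT]
      have := b2 x hx
      linarith
    have e2 : (|v| * |h1 x| ^ 2)⁻¹ ≤ Λ ^ 2 / (|v| * δ ^ 2) := by
      rw [← one_div, div_le_div_iff₀ (by positivity) (by positivity)]
      have h3 : δ ^ 2 ≤ (Λ * |h1 x|) ^ 2 := pow_le_pow_left₀ hδ.le (b1 x hx) 2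
      have := mul_le_mul_of_nonneg_left h3 hv0.le
      calc 1 * (|v| * δ ^ 2) = |v| * δ ^ 2 := one_mul _
        _ ≤ |v| * (Λ * |h1 x|) ^ 2 := this
        _ = _ := by ring
    calc |h2 x| * (|v| * |h1 x| ^ 2)⁻¹ ≤ Λ * δ / T * (Λ ^ 2 / (|v| * δ ^ 2)) :=
          mul_le_mul e1 e2 (by positivity) (by positivity)
      _ = _ := by field_simp
  have hRi : ‖∫ x in a..b, R x‖ ≤ Λ ^ 3 / (|v| * δ) := by
    have h3 := intervalIntegral.norm_integral_le_of_norm_le_const (a := a) (b := b) (f := R)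
      (C := Λ ^ 3 / (|v| * δ) / T) (fun x hx => hRn x (by
        rw [Set.uIoc_of_le hab] at hx
        exact ⟨hx.1.le, hx.2⟩))
    refine h3.trans ?_
    rw [abs_of_nonneg (by linarith : 0 ≤ b - a), div_mul_eq_mul_div, div_le_iff₀ hT]
    exact mul_le_mul_of_nonneg_left hbT (by positivity)
  have e4 : (∫ x in a..b, cexp (I * ((v * h x : ℝ) : ℂ))) = H b - H a + ∫ x in a..b, R x := by
    have : (∫ x in a..b, cexp (I * ((v * h x : ℝ) : ℂ))) = ∫ x in a..b, E x := by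
      refine intervalIntegral.integral_congr fun x _ => ?_
      exact (hE x).symm
    rw [this, ← hmain]
    ring
  rw [e4]
  refine (norm_add_le _ _).trans ?_
  have h5 : ‖H b - H a‖ ≤ Λ / (|v| * δ) + Λ / (|v| * δ) :=
    (norm_sub_le _ _).trans (add_le_add (hHn b ⟨hab, le_rfl⟩) (hHn a ⟨le_rfl, hab⟩))
  have e5 : (2 * Λ + Λ ^ 3) / (|v| * δ) = Λ / (|v| * δ) + Λ / (|v| * δ) + Λ ^ 3 / (|v| * δ) := by
    ring
  rw [e5]
  exact add_le_add h5 hRi

/-- the derivative is bounded -/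
lemma der_le (a T Λ δ : ℝ) (h1 h2 : ℝ → ℝ) (ha : 0 ≤ a) (hT : 0 < T) (hΛ : 0 ≤ Λ) (hδ : 0 ≤ δ)
    (hδT : |h1 T| = δ)
    (d2 : ∀ x ∈ Set.Icc a T, HasDerivAt h1 (h2 x) x)
    (b2 : ∀ x ∈ Set.Icc a T, T * |h2 x| ≤ Λ * δ) (x : ℝ) (hx : x ∈ Set.Icc a T) :
    |h1 x| ≤ (1 + Λ) * δ := by
  have hx0 : 0 ≤ x := ha.trans hx.1
  have h3 : ‖h1 T - h1 x‖ ≤ Λ * δ / T * (T - x) := by
    have hcv : Convex ℝ (Set.Icc a T) := convex_Icc a T
    have h4 := hcv.norm_image_sub_le_of_norm_hasDerivWithin_le (f := h1) (f' := h2)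
      (C := Λ * δ / T) (fun y hy => (d2 y hy).hasDerivWithinAt) (fun y hy => by
        rw [Real.norm_eq_abs, le_div_iff₀ hT]
        have := b2 y hy
        linarith) hx ⟨hx.1.trans hx.2, le_rfl⟩
    rw [Real.norm_of_nonneg (by linarith [hx.2] : 0 ≤ T - x)] at h4
    exact h4
  have h5 : Λ * δ / T * (T - x) ≤ Λ * δ := by
    rw [div_mul_eq_mul_div, div_le_iff₀ hT]
    exact mul_le_mul_of_nonneg_left (by linarith) (by positivity)
  rw [Real.norm_eq_abs] at h3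
  have h6 : |h1 x| ≤ |h1 T| + |h1 T - h1 x| := by
    have : h1 x = h1 T - (h1 T - h1 x) := by ring
    calc |h1 x| = |h1 T - (h1 T - h1 x)| := by rw [← this]
      _ ≤ _ := abs_sub _ _
  rw [hδT] at h6
  linarith

/-- Lipschitz bound for the exponential of a smooth phase -/
lemma lip2 (a T Λ δ v : ℝ) (h h1 : ℝ → ℝ)
    (d1 : ∀ x ∈ Set.Icc a T, HasDerivAt h (h1 x) x)
    (b1 : ∀ x ∈ Set.Icc a T, |h1 x| ≤ (1 + Λ) * δ) (x y : ℝ) (hx : x ∈ Set.Icc a T)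
    (hy : y ∈ Set.Icc a T) :
    ‖cexp (I * ((v * h x : ℝ) : ℂ)) - cexp (I * ((v * h y : ℝ) : ℂ))‖ ≤
      |v| * ((1 + Λ) * δ) * |x - y| := by
  have hcv : Convex ℝ (Set.Icc a T) := convex_Icc a T
  have h4 := hcv.norm_image_sub_le_of_norm_hasDerivWithin_le (f := h) (f' := h1)
    (C := (1 + Λ) * δ) (fun y hy => (d1 y hy).hasDerivWithinAt) (fun y hy => by
      rw [Real.norm_eq_abs]; exact b1 y hy) hy hx
  rw [Real.norm_eq_abs, Real.norm_eq_abs] at h4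
  have e1 : cexp (I * ((v * h x : ℝ) : ℂ)) - cexp (I * ((v * h y : ℝ) : ℂ)) =
      cexp (I * ((v * h y : ℝ) : ℂ)) * (cexp (I * ((v * (h x - h y) : ℝ) : ℂ)) - 1) := by
    rw [mul_sub, mul_one, ← Complex.exp_add]
    congr 2
    push_cast
    ring
  rw [e1, norm_mul, norm_ex, one_mul]
  have h5 : ‖cexp (I * ((v * (h x - h y) : ℝ) : ℂ)) - 1‖ ≤ ‖v * (h x - h y)‖ :=
    Real.norm_exp_I_mul_ofReal_sub_one_le
  refine h5.trans ?_
  rw [Real.norm_eq_abs, abs_mul, mul_assoc]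
  exact mul_le_mul_of_nonneg_left h4 (abs_nonneg v)

end Pool.Agent.TH801.LG
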