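import Pool.Agent.TH801.LU.Eq2

/-! Sums of a slowly varying function over the ordinates. -/

set_option autoImplicit false

open Finset MeasureTheory Complex
open scoped ComplexConjugate

namespace Pool.Agent.TH801.LG

open Pool.Agent.TH801.LU
open H370 (Zf zset mult NN mem_Zf NN_eq good_zeta)
open Pool.Agent.TH801.LR (norm_ex)
open Pool.Agent.TH850.UV (cnt NS mS nv cnt_eq sq_int)

/-- the smoothed number of zeros deviates little from its expectation -/
theorem dev (ε : ℝ) (hε : 0 < ε) : ∃ a C2 T0 : ℝ, 1 ≤ a ∧ 0 < C2 ∧ 100 ≤ T0 ∧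
    ∀ X : ℝ, T0 ≤ X → ∃ h : ℝ, h = 2 * Real.pi * a / Real.log X ∧ 0 < h ∧ h ≤ 1 ∧
      1 ≤ Real.log X ∧
      (∑ s ∈ (Zf riemannZeta X (2 * X)).filter (fun s => s.im ≤ X + 1), mu s ≤
        C2 * (3 * Real.log X)) ∧
      ∫ t, |(∑ s ∈ Zf riemannZeta X (2 * X), mu s * ind h s t) -
        a * (Set.Ioc X (2 * X)).indicator (fun _ => (1 : ℝ)) t| ≤
          X * (ε * a) + h * (C2 * (3 * Real.log X)) := by
  classical
  obtain ⟨C, T1, hC, hT1, hnv⟩ := nv 1 le_rfl
  obtain ⟨C2, hC2, hnear⟩ := near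
  obtain ⟨a, ha⟩ : ∃ a : ℝ, a = (C + 1) / ε ^ 2 + 1 := ⟨_, rfl⟩
  have ha1 : 1 ≤ a := by
    rw [ha]
    have : 0 < (C + 1) / ε ^ 2 := by positivity
    linarith
  have ha0 : 0 < a := by linarith
  have haε : C + Real.log a ≤ (ε * a) ^ 2 := by
    have h1 : Real.log a ≤ a := (Real.log_le_sub_one_of_pos ha0).trans (by linarith)
    have h2 : (C + 1) / ε ^ 2 ≤ a := by rw [ha]; linarith
    rw [div_le_iff₀ (by positivity)] at h2
    have h3 : a * (C + 1) ≤ a * (a * ε ^ 2) := mul_le_mul_of_nonneg_left h2 ha0.le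
    have h4 : C ≤ a * C := le_mul_of_one_le_left hC.le ha1
    calc C + Real.log a ≤ a * (C + 1) := by linarith
      _ ≤ _ := h3
      _ = _ := by ring
  have hpi := Real.pi_pos
  have hpi3 := Real.pi_gt_three
  have hloga : 0 ≤ Real.log a := Real.log_nonneg ha1
  refine ⟨a, C2, max (max T1 100) (Real.exp (2 * Real.pi * a + a * Real.log a)),
    ha1, hC2, (le_max_right _ _).trans (le_max_left _ _), ?_⟩
  intro X hX
  have hXT1 : T1 ≤ X := (le_max_left _ _).trans ((le_max_left _ _).trans hX)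
  have hX100 : 100 ≤ X := (le_max_right _ _).trans ((le_max_left _ _).trans hX)
  have hXe : Real.exp (2 * Real.pi * a + a * Real.log a) ≤ X := (le_max_right _ _).trans hX
  have hX0 : 0 < X := by linarith
  have hLe : 2 * Real.pi * a + a * Real.log a ≤ Real.log X := (Real.le_log_iff_exp_le hX0).2 hXe
  have hala : 0 ≤ a * Real.log a := mul_nonneg ha0.le hloga
  obtain ⟨hnvi, hnvb⟩ := hnv X hXT1 a ha1 (by rw [one_mul]; nlinarith)
  obtain ⟨L, hL⟩ : ∃ L : ℝ, L = Real.log X := ⟨_, rfl⟩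
  rw [← hL] at hLe hnvi hnvb ⊢
  have hL2 : 2 * Real.pi * a ≤ L := by linarith
  have hL1 : 1 ≤ L := by nlinarith
  have hL0 : 0 < L := by linarith
  obtain ⟨h, hh⟩ : ∃ h : ℝ, h = 2 * Real.pi * a / L := ⟨_, rfl⟩
  rw [← hh] at hnvi hnvb
  have hh0 : 0 < h := by rw [hh]; positivity
  have hh1 : h ≤ 1 := by rw [hh, div_le_one hL0]; exact hL2
  refine ⟨h, hh, hh0, hh1, hL1, ?_⟩
  obtain ⟨S3, hS3⟩ : ∃ S3 : Finset ℂ, S3 = Zf riemannZeta X (3 * X) := ⟨_, rfl⟩
  obtain ⟨B, hB⟩ : ∃ B : Finset ℂ, B = Zf riemannZeta X (2 * X) := ⟨_, rfl⟩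
  rw [← hB]
  have mS3 : ∀ s, s ∈ S3 ↔ 0 < s.re ∧ s.re < 1 ∧ X < s.im ∧ s.im ≤ 3 * X ∧ riemannZeta s = 0 := by
    intro s
    rw [hS3, mem_Zf good_zeta (by linarith)]
    rfl
  have mB : ∀ s, s ∈ B ↔ 0 < s.re ∧ s.re < 1 ∧ X < s.im ∧ s.im ≤ 2 * X ∧ riemannZeta s = 0 := by
    intro s
    rw [hB, mem_Zf good_zeta (by linarith)]
    rfl
  have hBS : B ⊆ S3 := by
    intro s hs
    rw [mB] at hs
    rw [mS3]
    exact ⟨hs.1, hs.2.1, hs.2.2.1, by linarith [hs.2.2.2.1], hs.2.2.2.2⟩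
  obtain ⟨E, hE⟩ : ∃ E : Finset ℂ, E = S3.filter
    (fun s => s.im ≤ X + 1 ∨ (2 * X < s.im ∧ s.im ≤ 2 * X + 1)) := ⟨_, rfl⟩
  have hEs : ∑ s ∈ E, mu s ≤ C2 * (3 * L) := by
    have h1 : E ⊆ (ZZ (X + 1)).filter (fun s => X - 1 < s.im) ∪
        (ZZ (2 * X + 1)).filter (fun s => 2 * X - 1 < s.im) := by
      intro s hs
      rw [hE, mem_filter, mS3] at hs
      obtain ⟨⟨b1, b2, b3, b4, b5⟩, b6⟩ := hs
      rw [mem_union, mem_filter, mem_filter, mem_ZZ, mem_ZZ]
      rcases b6 with b6 | b6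
      · left; exact ⟨⟨b1, b2, by linarith, b6, b5⟩, by linarith⟩
      · right; exact ⟨⟨b1, b2, by linarith, b6.2, b5⟩, by linarith [b6.1]⟩
    have h2 := hnear X (by linarith)
    have h3 := hnear (2 * X) (by linarith)
    have h4 : Real.log (2 * X) ≤ 2 * L := by
      rw [hL, Real.log_mul (by norm_num) hX0.ne']
      have : Real.log 2 ≤ Real.log X := Real.log_le_log (by norm_num) (by linarith)
      linarith
    have h5 : ∑ s ∈ E, mu s ≤ ∑ s ∈ (ZZ (X + 1)).filter (fun s => X - 1 < s.im), mu s +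
        ∑ s ∈ (ZZ (2 * X + 1)).filter (fun s => 2 * X - 1 < s.im), mu s := by
      refine (sum_le_sum_of_subset_of_nonneg h1 fun s _ _ => mu_nonneg s).trans ?_
      have := sum_union_inter (s₁ := (ZZ (X + 1)).filter (fun s => X - 1 < s.im))
        (s₂ := (ZZ (2 * X + 1)).filter (fun s => 2 * X - 1 < s.im)) (f := mu)
      have h6 : 0 ≤ ∑ s ∈ (ZZ (X + 1)).filter (fun s => X - 1 < s.im) ∩
        (ZZ (2 * X + 1)).filter (fun s => 2 * X - 1 < s.im), mu s :=
        sum_nonneg fun s _ => mu_nonneg s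
      linarith
    rw [← hL] at h2
    have h6 : C2 * Real.log (2 * X) ≤ C2 * (2 * L) := mul_le_mul_of_nonneg_left h4 hC2.le
    linarith
  -- the functions
  obtain ⟨NB, hNB⟩ : ∃ NB : ℝ → ℝ, NB = fun t => ∑ s ∈ B, mu s * ind h s t := ⟨_, rfl⟩
  obtain ⟨J, hJ⟩ : ∃ J : ℝ → ℝ, J = (Set.Ioc X (2 * X)).indicator (fun _ => (1 : ℝ)) := ⟨_, rfl⟩
  have hJint : Integrable J := by
    rw [hJ, integrable_indicator_iff measurableSet_Ioc]
    exact integrableOn_const (by rw [Real.volume_Ioc]; exact ENNReal.ofReal_ne_top)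
  have hNBint : Integrable NB := by
    rw [hNB]
    exact integrable_finsetSum _ fun s _ => (ind_int h s).const_mul _
  have hNBnn : ∀ t, 0 ≤ NB t := fun t => by
    rw [hNB]; exact sum_nonneg fun s _ => mul_nonneg (mu_nonneg s) (ind_nonneg h s t)
  have hNSs : ∀ t, NS S3 h t = ∑ s ∈ S3, mu s * ind h s t := fun t => NS_ind S3 h t
  have hmn : ∀ (s : ℂ) (t : ℝ), 0 ≤ mu s * ind h s t := fun s t =>
    mul_nonneg (mu_nonneg s) (ind_nonneg h s t)
  have hind1 : ∀ (s : ℂ) (t : ℝ), ind h s t ≠ 0 → t < s.im ∧ s.im ≤ t + h := by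
    intro s t h1
    unfold ind at h1
    have h2 : t ∈ Set.Ico (s.im - h) s.im := by
      by_contra h3
      exact h1 (Set.indicator_of_notMem h3 _)
    exact ⟨h2.2, by linarith [h2.1]⟩
  have hpt : ∀ t, |NB t - a * J t| ≤ J t * |NS S3 h t - a| + ∑ s ∈ E, mu s * ind h s t := by
    intro t
    by_cases ht : t ∈ Set.Ioc X (2 * X)
    · have hJ1 : J t = 1 := by rw [hJ]; exact Set.indicator_of_mem ht _
      rw [hJ1, mul_one, one_mul]
      have h1 : NS S3 h t - NB t ≤ ∑ s ∈ E, mu s * ind h s t := by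
        rw [hNSs, hNB]
        show ∑ s ∈ S3, mu s * ind h s t - ∑ s ∈ B, mu s * ind h s t ≤ _
        rw [← sum_sdiff hBS, add_sub_cancel_right]
        have h2 : ∑ s ∈ S3 \ B, mu s * ind h s t =
            ∑ s ∈ (S3 \ B).filter (fun s => ind h s t ≠ 0), mu s * ind h s t := by
          symm
          apply sum_filter_of_ne
          intro s _ h3 h4
          rw [h4, mul_zero] at h3
          exact h3 rfl
        rw [h2]
        refine sum_le_sum_of_subset_of_nonneg ?_ fun s _ _ => hmn s t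
        intro s hs
        rw [mem_filter, mem_sdiff] at hs
        obtain ⟨⟨hs1, hs2⟩, hs3⟩ := hs
        obtain ⟨h4, h5⟩ := hind1 s t hs3
        rw [hE, mem_filter]
        refine ⟨hs1, Or.inr ⟨?_, by linarith [ht.2]⟩⟩
        by_contra h6
        push Not at h6
        rw [mS3] at hs1
        exact hs2 ((mB s).2 ⟨hs1.1, hs1.2.1, hs1.2.2.1, h6, hs1.2.2.2.2⟩)
      have h2 : 0 ≤ NS S3 h t - NB t := by
        rw [hNSs, hNB]
        have := sum_le_sum_of_subset_of_nonneg hBS (f := fun s => mu s * ind h s t)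
          fun s _ _ => hmn s t
        show 0 ≤ ∑ s ∈ S3, mu s * ind h s t - ∑ s ∈ B, mu s * ind h s t
        linarith
      have h3 : NB t - a = (NS S3 h t - a) - (NS S3 h t - NB t) := by ring
      rw [h3]
      refine (abs_sub _ _).trans ?_
      rw [abs_of_nonneg h2]
      linarith
    · have hJ0 : J t = 0 := by rw [hJ]; exact Set.indicator_of_notMem ht _
      rw [hJ0, mul_zero, sub_zero, zero_mul, zero_add, abs_of_nonneg (hNBnn t), hNB]
      show ∑ s ∈ B, mu s * ind h s t ≤ _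
      have h2 : ∑ s ∈ B, mu s * ind h s t =
          ∑ s ∈ B.filter (fun s => ind h s t ≠ 0), mu s * ind h s t := by
        symm
        apply sum_filter_of_ne
        intro s _ h3 h4
        rw [h4, mul_zero] at h3
        exact h3 rfl
      rw [h2]
      refine sum_le_sum_of_subset_of_nonneg ?_ fun s _ _ => hmn s t
      intro s hs
      rw [mem_filter] at hs
      obtain ⟨hs1, hs3⟩ := hs
      obtain ⟨h4, h5⟩ := hind1 s t hs3
      have hs2 := (mB s).1 hs1
      rw [hE, mem_filter]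
      refine ⟨hBS hs1, Or.inl ?_⟩
      have h6 : t ≤ X := by
        by_contra h7
        push Not at h7
        exact ht ⟨h7, by linarith [hs2.2.2.2.1]⟩
      linarith
  have hpt2 : ∀ t, |NB t - a * J t| ≤ (ε * a / 2) * J t +
      (Set.Ioc X (2 * X)).indicator (fun t => (NS S3 h t - a) ^ 2 / (2 * (ε * a))) t +
        ∑ s ∈ E, mu s * ind h s t := by
    intro t
    refine (hpt t).trans ?_
    by_cases ht : t ∈ Set.Ioc X (2 * X)
    · have hJ1 : J t = 1 := by rw [hJ]; exact Set.indicator_of_mem ht _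
      rw [hJ1, Set.indicator_of_mem ht, one_mul, mul_one]
      have := abs_quad (NS S3 h t - a) (ε * a) (by positivity)
      linarith
    · have hJ0 : J t = 0 := by rw [hJ]; exact Set.indicator_of_notMem ht _
      rw [hJ0, Set.indicator_of_notMem ht]
      linarith
  have hi2 : Integrable ((Set.Ioc X (2 * X)).indicator
      (fun t => (NS S3 h t - a) ^ 2 / (2 * (ε * a)))) := by
    rw [integrable_indicator_iff measurableSet_Ioc]
    have h1 := (sq_int S3 h a X (2 * X)).div_const (2 * (ε * a))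
    rw [intervalIntegrable_iff_integrableOn_Ioc_of_le (by linarith)] at h1
    exact h1
  have hi3 : Integrable (fun t => ∑ s ∈ E, mu s * ind h s t) :=
    integrable_finsetSum _ fun s _ => (ind_int h s).const_mul _
  have hDint : Integrable (fun t => NB t - a * J t) := hNBint.sub (hJint.const_mul a)
  have hJv : ∫ t, J t = X := by
    rw [hJ, integral_indicator measurableSet_Ioc, setIntegral_const, smul_eq_mul, mul_one,
      Measure.real, Real.volume_Ioc, ENNReal.toReal_ofReal (by linarith)]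
    ring
  have hsqv : ∫ t, (Set.Ioc X (2 * X)).indicator
      (fun t => (NS S3 h t - a) ^ 2 / (2 * (ε * a))) t ≤ X * (ε * a) / 2 := by
    rw [integral_indicator measurableSet_Ioc, ← intervalIntegral.integral_of_le (by linarith),
      intervalIntegral.integral_div]
    have e1 : ∫ t in X..(2 * X), (NS S3 h t - a) ^ 2 = ∫ t in X..(2 * X),
        ((cnt t h : ℝ) - a) ^ 2 := by
      refine intervalIntegral.integral_congr fun t ht => ?_
      rw [Set.uIcc_of_le (by linarith)] at ht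
      show (NS S3 h t - a) ^ 2 = ((cnt t h : ℝ) - a) ^ 2
      rw [cnt_eq (A := X) (B := 3 * X) (by linarith) ht.1 (by linarith [ht.2]), hS3]
    rw [e1]
    have h1 := (abs_le.1 hnvb).2
    have h2 : X / Real.pi ^ 2 * Real.log a ≤ X * Real.log a := by
      refine mul_le_mul_of_nonneg_right ?_ hloga
      exact div_le_self hX0.le (by nlinarith)
    have h3 : ∫ t in X..(2 * X), ((cnt t h : ℝ) - a) ^ 2 ≤ X * (ε * a) ^ 2 := by
      have h4 : X * (C + Real.log a) ≤ X * (ε * a) ^ 2 := mul_le_mul_of_nonneg_left haε hX0.le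
      linarith
    rw [div_le_iff₀ (by positivity)]
    refine h3.trans (le_of_eq ?_)
    ring
  have hEv : ∫ t, ∑ s ∈ E, mu s * ind h s t ≤ h * (C2 * (3 * L)) := by
    rw [integral_finsetSum _ fun s _ => (ind_int h s).const_mul _]
    have e1 : ∀ s ∈ E, ∫ t, mu s * ind h s t = mu s * h := by
      intro s _
      rw [integral_const_mul, ind_val h hh0.le]
    rw [sum_congr rfl e1, ← sum_mul, mul_comm]
    exact mul_le_mul_of_nonneg_left hEs hh0.le
  have hD1 : ∫ t, |NB t - a * J t| ≤ X * (ε * a) + h * (C2 * (3 * L)) := by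
    have h1 := integral_mono hDint.abs (((hJint.const_mul (ε * a / 2)).add hi2).add hi3) hpt2
    have h2 : ∫ t, ((ε * a / 2) * J t +
        (Set.Ioc X (2 * X)).indicator (fun t => (NS S3 h t - a) ^ 2 / (2 * (ε * a))) t +
        ∑ s ∈ E, mu s * ind h s t) = (∫ t, ((ε * a / 2) * J t +
        (Set.Ioc X (2 * X)).indicator (fun t => (NS S3 h t - a) ^ 2 / (2 * (ε * a))) t)) +
        ∫ t, ∑ s ∈ E, mu s * ind h s t :=
      integral_add ((hJint.const_mul (ε * a / 2)).add hi2) hi3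
    have h3 : ∫ t, ((ε * a / 2) * J t +
        (Set.Ioc X (2 * X)).indicator (fun t => (NS S3 h t - a) ^ 2 / (2 * (ε * a))) t) =
        (∫ t, (ε * a / 2) * J t) + ∫ t, (Set.Ioc X (2 * X)).indicator
          (fun t => (NS S3 h t - a) ^ 2 / (2 * (ε * a))) t :=
      integral_add (hJint.const_mul (ε * a / 2)) hi2
    have h4 : ∫ t, (ε * a / 2) * J t = ε * a / 2 * X := by rw [integral_const_mul, hJv]
    have h5 : ∫ t, |NB t - a * J t| ≤ ((ε * a / 2 * X) + ∫ t, (Set.Ioc X (2 * X)).indicator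
      (fun t => (NS S3 h t - a) ^ 2 / (2 * (ε * a))) t) + ∫ t, ∑ s ∈ E, mu s * ind h s t := by
      rw [← h4, ← h3, ← h2]
      exact h1
    linarith
  constructor
  · refine le_trans (sum_le_sum_of_subset_of_nonneg ?_ fun s _ _ => mu_nonneg s) hEs
    intro s hs
    rw [mem_filter] at hs
    rw [hE, mem_filter]
    exact ⟨hBS hs.1, Or.inl hs.2⟩
  · rw [hNB, hJ] at hD1
    exact hD1

lemma ind_zero (h : ℝ) (s : ℂ) (t : ℝ) (ht : t ∉ Set.Ico (s.im - h) s.im) : ind h s t = 0 := by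
  unfold ind
  exact Set.indicator_of_notMem ht _

/-- the window of one zero -/
lemma one_win (h X M : ℝ) (hh : 0 < h) (F : ℝ → ℂ)
    (hF : ContinuousOn F (Set.Icc X (2 * X)))
    (hFl : ∀ x ∈ Set.Icc X (2 * X), ∀ y ∈ Set.Icc X (2 * X), ‖F x - F y‖ ≤ M * |x - y|)
    (hM : 0 ≤ M) (s : ℂ) (h1 : X ≤ s.im - h) (h2 : s.im ≤ 2 * X) :
    ‖(∫ t, (Set.Icc X (2 * X)).indicator F t * (ind h s t : ℂ)) - h * F s.im‖ ≤ h * (M * h) := by
  have e1 : (fun t => (Set.Icc X (2 * X)).indicator F t * (ind h s t : ℂ)) =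
      (Set.Ico (s.im - h) s.im).indicator F := by
    funext t
    by_cases ht : t ∈ Set.Ico (s.im - h) s.im
    · have ht2 : t ∈ Set.Icc X (2 * X) := ⟨h1.trans ht.1, ht.2.le.trans h2⟩
      rw [Set.indicator_of_mem ht, Set.indicator_of_mem ht2]
      unfold ind
      rw [Set.indicator_of_mem ht]
      simp
    · rw [Set.indicator_of_notMem ht, ind_zero h s t ht]
      simp
  have hcont : ContinuousOn F (Set.uIcc (s.im - h) s.im) := by
    apply hF.mono
    rw [Set.uIcc_of_le (by linarith)]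
    exact Set.Icc_subset_Icc h1 h2
  have e2 : ∫ t, (Set.Icc X (2 * X)).indicator F t * (ind h s t : ℂ) =
      ∫ t in (s.im - h)..s.im, F t := by
    rw [e1, integral_indicator measurableSet_Ico, ← integral_Icc_eq_integral_Ico,
      integral_Icc_eq_integral_Ioc, ← intervalIntegral.integral_of_le (by linarith)]
  have e3 : (h : ℂ) * F s.im = ∫ _t in (s.im - h)..s.im, F s.im := by
    rw [intervalIntegral.integral_const]
    have : s.im - (s.im - h) = h := by ring
    rw [this]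
    rfl
  rw [e2, e3, ← intervalIntegral.integral_sub hcont.intervalIntegrable
    intervalIntegrable_const]
  have h3 := intervalIntegral.norm_integral_le_of_norm_le_const (a := s.im - h) (b := s.im)
    (f := fun t => F t - F s.im) (C := M * h) (by
      intro t ht
      rw [Set.uIoc_of_le (by linarith)] at ht
      refine (hFl t ⟨by linarith [ht.1], by linarith [ht.2]⟩ s.im ⟨by linarith, h2⟩).trans ?_
      apply mul_le_mul_of_nonneg_left _ hM
      rw [abs_le]
      constructor <;> linarith [ht.1, ht.2])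
  refine h3.trans (le_of_eq ?_)
  have : |s.im - (s.im - h)| = h := by
    have : s.im - (s.im - h) = h := by ring
    rw [this, abs_of_pos hh]
  rw [this]
  ring

lemma fin_ar2 (Dn h a L X ε c C1 C2 : ℝ) (hh : h = 2 * Real.pi * a / L) (ha : 1 ≤ a) (hL : 1 ≤ L)
    (hX : 0 < X) (hε : 0 < ε) (hC2 : 0 < C2) (hC1 : 0 < C1)
    (hXC : 72 * C2 ≤ ε * X) (hc : c = ε / (16 * Real.pi * a * C1))
    (hD : h * Dn ≤ (C1 * (2 * (X * L))) * (h * (c * L * h)) + 2 * (h * (C2 * (3 * L))) +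
      (X * (ε * a) + h * (C2 * (3 * L)))) : Dn ≤ ε * (X * L) := by
  have hpi := Real.pi_gt_three
  have hpi0 := Real.pi_pos
  have hL0 : 0 < L := by linarith
  have hh0 : 0 < h := by rw [hh]; positivity
  have h1 : (C1 * (2 * (X * L))) * (h * (c * L * h)) = h * (ε / 4 * (X * L)) := by
    rw [hc, hh]
    field_simp
    norm_num
  have h2 : X * (ε * a) ≤ h * (ε / 6 * (X * L)) := by
    have e2 : h * (ε / 6 * (X * L)) = Real.pi / 3 * (X * (ε * a)) := by
      rw [hh]; field_simp; norm_num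
    rw [e2]
    have : 0 < X * (ε * a) := by positivity
    nlinarith
  have h3 : 3 * (h * (C2 * (3 * L))) ≤ h * (ε / 8 * (X * L)) := by
    have e1 : 3 * (h * (C2 * (3 * L))) = h * (9 * C2 * L) := by ring
    rw [e1]
    refine mul_le_mul_of_nonneg_left ?_ hh0.le
    have : 72 * C2 * L ≤ ε * X * L := mul_le_mul_of_nonneg_right hXC hL0.le
    nlinarith
  have h7 : h * Dn ≤ h * (ε * (X * L)) := by
    have : 0 ≤ h * (ε * (X * L)) := by positivity
    linarith
  exact le_of_mul_le_mul_left h7 hh0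

/-- sums of a slowly varying function over the zeros with ordinates in `(X, 2X]` -/
theorem samp (ε : ℝ) (hε : 0 < ε) : ∃ c T0 : ℝ, 0 < c ∧ 100 ≤ T0 ∧
    ∀ X : ℝ, T0 ≤ X → ∀ F : ℝ → ℂ, ContinuousOn F (Set.Icc X (2 * X)) →
      (∀ t ∈ Set.Icc X (2 * X), ‖F t‖ ≤ 1) →
      (∀ x ∈ Set.Icc X (2 * X), ∀ y ∈ Set.Icc X (2 * X),
        ‖F x - F y‖ ≤ c * Real.log X * |x - y|) →
      ‖∑ s ∈ Zf riemannZeta X (2 * X), (mult riemannZeta s : ℂ) * F s.im -
        (Real.log X / (2 * Real.pi) : ℝ) * ∫ t in X..(2 * X), F t‖ ≤ ε * (X * Real.log X) := by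
  classical
  obtain ⟨a, C2, T1, ha, hC2, hT1, hdev⟩ := dev ε hε
  obtain ⟨C1, hC1, hNN⟩ := H370.NN_crude good_zeta
  have hpi := Real.pi_pos
  obtain ⟨c, hc⟩ : ∃ c : ℝ, c = ε / (16 * Real.pi * a * C1) := ⟨_, rfl⟩
  have ha0 : 0 < a := by linarith
  have hc0 : 0 < c := by rw [hc]; positivity
  refine ⟨c, max T1 (72 * C2 / ε), hc0, hT1.trans (le_max_left _ _), ?_⟩
  intro X hX F hFc hF1 hFl
  have hXT1 : T1 ≤ X := (le_max_left _ _).trans hX
  have hXC : 72 * C2 / ε ≤ X := (le_max_right _ _).trans hX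
  have hX100 : 100 ≤ X := hT1.trans hXT1
  have hX0 : 0 < X := by linarith
  obtain ⟨h, hh, hh0, hh1, hL1, hEd, hD⟩ := hdev X hXT1
  have hNb := hNN X (by linarith) X (2 * X) le_rfl (by linarith)
  rw [NN_eq good_zeta (by linarith), Nat.cast_sum] at hNb
  obtain ⟨L, hL⟩ : ∃ L : ℝ, L = Real.log X := ⟨_, rfl⟩
  rw [← hL] at hh hL1 hEd hD hFl hNb ⊢
  have hL0 : 0 < L := by linarith
  obtain ⟨B, hB⟩ : ∃ B : Finset ℂ, B = Zf riemannZeta X (2 * X) := ⟨_, rfl⟩
  rw [← hB] at hEd hD hNb ⊢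
  have mB : ∀ s, s ∈ B → X < s.im ∧ s.im ≤ 2 * X := by
    intro s hs
    rw [hB, mem_Zf good_zeta (by linarith)] at hs
    exact ⟨hs.2.2.1, hs.2.2.2.1⟩
  have hNb2 : ∑ s ∈ B, mu s ≤ C1 * (X * L) := hNb
  obtain ⟨G, hG⟩ : ∃ G : ℝ → ℂ, G = (Set.Icc X (2 * X)).indicator F := ⟨_, rfl⟩
  have hGint : Integrable G := by
    rw [hG, integrable_indicator_iff measurableSet_Icc]
    exact hFc.integrableOn_Icc
  have hGm : AEStronglyMeasurable G := hGint.aestronglyMeasurable
  have hG1 : ∀ t, ‖G t‖ ≤ 1 := by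
    intro t
    rw [hG]
    by_cases ht : t ∈ Set.Icc X (2 * X)
    · rw [Set.indicator_of_mem ht]; exact hF1 t ht
    · rw [Set.indicator_of_notMem ht]; simp
  have hbm : ∀ f : ℝ → ℝ, Integrable f → Integrable (fun t : ℝ => G t * (f t : ℂ)) := by
    intro f hf
    exact hf.ofReal.bdd_mul (c := 1) hGm (Filter.Eventually.of_forall hG1)
  -- one zero
  have hone : ∀ s ∈ B, ‖(∫ t, G t * (ind h s t : ℂ)) - h * F s.im‖ ≤
      h * (c * L * h) + (if s.im ≤ X + 1 then 2 * h else 0) := by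
    intro s hs
    obtain ⟨b1, b2⟩ := mB s hs
    split_ifs with hs1
    · have h1 : ‖∫ t, G t * (ind h s t : ℂ)‖ ≤ h := by
        refine (norm_integral_le_integral_norm _).trans (le_trans ?_ (ind_val h hh0.le s).le)
        refine integral_mono (hbm _ (ind_int h s)).norm (ind_int h s) fun t => ?_
        show ‖G t * (ind h s t : ℂ)‖ ≤ ind h s t
        rw [norm_mul, Complex.norm_real, Real.norm_of_nonneg (ind_nonneg h s t)]
        exact mul_le_of_le_one_left (ind_nonneg h s t) (hG1 t)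
      have h2 : ‖(h : ℂ) * F s.im‖ ≤ h := by
        rw [norm_mul, Complex.norm_real, Real.norm_of_nonneg hh0.le]
        exact mul_le_of_le_one_right hh0.le (hF1 _ ⟨b1.le, b2⟩)
      have h3 : 0 ≤ h * (c * L * h) := by positivity
      refine (norm_sub_le _ _).trans ?_
      linarith
    · push Not at hs1
      rw [add_zero, hG]
      exact one_win h X (c * L) hh0 F hFc hFl (by positivity) s (by linarith) b2
  have hsumB : ‖∑ s ∈ B, (mu s : ℂ) * ((∫ t, G t * (ind h s t : ℂ)) - h * F s.im)‖ ≤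
      (C1 * (2 * (X * L))) * (h * (c * L * h)) + 2 * (h * (C2 * (3 * L))) := by
    refine (norm_sum_le _ _).trans ?_
    have h1 : ∀ s ∈ B, ‖(mu s : ℂ) * ((∫ t, G t * (ind h s t : ℂ)) - h * F s.im)‖ ≤
        mu s * (h * (c * L * h)) + (if s.im ≤ X + 1 then mu s else 0) * (2 * h) := by
      intro s hs
      rw [norm_mul, Complex.norm_real, Real.norm_of_nonneg (mu_nonneg s)]
      refine (mul_le_mul_of_nonneg_left (hone s hs) (mu_nonneg s)).trans (le_of_eq ?_)
      split_ifs <;> ring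
    refine (sum_le_sum h1).trans ?_
    rw [sum_add_distrib, ← sum_mul, ← sum_mul, ← sum_filter]
    have h2 : 0 ≤ h * (c * L * h) := by positivity
    have h3 := mul_le_mul_of_nonneg_right hNb2 h2
    have h4 := mul_le_mul_of_nonneg_right hEd (show 0 ≤ 2 * h by linarith)
    have h5 : C1 * (X * L) * (h * (c * L * h)) ≤ (C1 * (2 * (X * L))) * (h * (c * L * h)) := by
      refine mul_le_mul_of_nonneg_right ?_ h2
      have : 0 ≤ C1 * (X * L) := by positivity
      linarith
    linarith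
  -- the integral
  have hNBint : Integrable (fun t => ∑ s ∈ B, mu s * ind h s t) :=
    integrable_finsetSum _ fun s _ => (ind_int h s).const_mul _
  have hJint : Integrable ((Set.Ioc X (2 * X)).indicator (fun _ => (1 : ℝ))) := by
    rw [integrable_indicator_iff measurableSet_Ioc]
    exact integrableOn_const (by rw [Real.volume_Ioc]; exact ENNReal.ofReal_ne_top)
  have hI1 : ∫ t, G t * ((∑ s ∈ B, mu s * ind h s t : ℝ) : ℂ) =
      ∑ s ∈ B, (mu s : ℂ) * ∫ t, G t * (ind h s t : ℂ) := by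
    have e1 : ∀ t : ℝ, G t * ((∑ s ∈ B, mu s * ind h s t : ℝ) : ℂ) =
        ∑ s ∈ B, (mu s : ℂ) * (G t * (ind h s t : ℂ)) := by
      intro t
      push_cast
      rw [mul_sum]
      refine sum_congr rfl fun s _ => ?_
      ring
    simp_rw [e1]
    rw [integral_finsetSum _ fun s _ => (hbm _ (ind_int h s)).const_mul _]
    refine sum_congr rfl fun s _ => ?_
    rw [integral_const_mul]
  have hI2 : ∫ t, G t * ((a * (Set.Ioc X (2 * X)).indicator (fun _ => (1 : ℝ)) t : ℝ) : ℂ) =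
      a * ∫ t in X..(2 * X), F t := by
    have e1 : (fun t : ℝ => G t * ((a * (Set.Ioc X (2 * X)).indicator (fun _ => (1 : ℝ)) t : ℝ) :
        ℂ)) = fun t : ℝ => (a : ℂ) * (Set.Ioc X (2 * X)).indicator F t := by
      funext t
      rw [hG]
      by_cases ht : t ∈ Set.Ioc X (2 * X)
      · rw [Set.indicator_of_mem ht, Set.indicator_of_mem ht,
          Set.indicator_of_mem (Set.Ioc_subset_Icc_self ht)]
        push_cast; ring
      · rw [Set.indicator_of_notMem ht, Set.indicator_of_notMem ht]; push_cast; ring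
    rw [e1, integral_const_mul, integral_indicator measurableSet_Ioc,
      ← intervalIntegral.integral_of_le (by linarith)]
  have hI3 : ‖∫ t, G t * (((∑ s ∈ B, mu s * ind h s t) -
      a * (Set.Ioc X (2 * X)).indicator (fun _ => (1 : ℝ)) t : ℝ) : ℂ)‖ ≤
      X * (ε * a) + h * (C2 * (3 * L)) := by
    refine (norm_integral_le_integral_norm _).trans (le_trans ?_ hD)
    refine integral_mono (hbm _ (hNBint.sub (hJint.const_mul a))).norm
      (hNBint.sub (hJint.const_mul a)).abs fun t => ?_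
    show ‖G t * (((∑ s ∈ B, mu s * ind h s t) -
      a * (Set.Ioc X (2 * X)).indicator (fun _ => (1 : ℝ)) t : ℝ) : ℂ)‖ ≤
      |(∑ s ∈ B, mu s * ind h s t) - a * (Set.Ioc X (2 * X)).indicator (fun _ => (1 : ℝ)) t|
    rw [norm_mul, Complex.norm_real, Real.norm_eq_abs]
    exact mul_le_of_le_one_left (abs_nonneg _) (hG1 t)
  have hI4 : ∫ t, G t * (((∑ s ∈ B, mu s * ind h s t) -
      a * (Set.Ioc X (2 * X)).indicator (fun _ => (1 : ℝ)) t : ℝ) : ℂ) =
      (∑ s ∈ B, (mu s : ℂ) * ∫ t, G t * (ind h s t : ℂ)) - a * ∫ t in X..(2 * X), F t := by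
    rw [← hI1, ← hI2, ← integral_sub (hbm _ hNBint) (hbm _ (hJint.const_mul a))]
    congr 1
    funext t
    push_cast
    ring
  rw [hI4] at hI3
  have hmu : ∀ s : ℂ, ((mu s : ℝ) : ℂ) = (mult riemannZeta s : ℂ) := by
    intro s
    unfold mu
    exact Complex.ofReal_natCast _
  have hfin : h * ‖∑ s ∈ B, (mult riemannZeta s : ℂ) * F s.im -
        (L / (2 * Real.pi) : ℝ) * ∫ t in X..(2 * X), F t‖ ≤
      (C1 * (2 * (X * L))) * (h * (c * L * h)) + 2 * (h * (C2 * (3 * L))) +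
      (X * (ε * a) + h * (C2 * (3 * L))) := by
    have e0 : (h : ℝ) * (L / (2 * Real.pi)) = a := by rw [hh]; field_simp
    have e1 : (h : ℂ) * (∑ s ∈ B, (mult riemannZeta s : ℂ) * F s.im -
        (L / (2 * Real.pi) : ℝ) * ∫ t in X..(2 * X), F t) =
        ((∑ s ∈ B, (mu s : ℂ) * ∫ t, G t * (ind h s t : ℂ)) - a * ∫ t in X..(2 * X), F t) -
        ∑ s ∈ B, (mu s : ℂ) * ((∫ t, G t * (ind h s t : ℂ)) - h * F s.im) := by
      have e2 : (a : ℂ) = (h : ℂ) * ((L / (2 * Real.pi) : ℝ) : ℂ) := by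
        rw [← Complex.ofReal_mul, e0]
      rw [e2]
      have e3 : ∑ s ∈ B, (mu s : ℂ) * ((∫ t, G t * (ind h s t : ℂ)) - h * F s.im) =
          (∑ s ∈ B, (mu s : ℂ) * ∫ t, G t * (ind h s t : ℂ)) -
          h * ∑ s ∈ B, (mult riemannZeta s : ℂ) * F s.im := by
        rw [mul_sum, ← sum_sub_distrib]
        refine sum_congr rfl fun s _ => ?_
        rw [← hmu]; ring
      rw [e3]
      ring
    have e4 : h * ‖∑ s ∈ B, (mult riemannZeta s : ℂ) * F s.im -
        (L / (2 * Real.pi) : ℝ) * ∫ t in X..(2 * X), F t‖ =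
        ‖(h : ℂ) * (∑ s ∈ B, (mult riemannZeta s : ℂ) * F s.im -
        (L / (2 * Real.pi) : ℝ) * ∫ t in X..(2 * X), F t)‖ := by
      rw [norm_mul, Complex.norm_real, Real.norm_of_nonneg hh0.le]
    rw [e4, e1]
    refine (norm_sub_le _ _).trans ?_
    linarith
  exact fin_ar2 _ h a L X ε c C1 C2 hh ha hL1 hX0 hε hC2 hC1
    (by rw [div_le_iff₀ hε] at hXC; linarith) hc hfin

end Pool.Agent.TH801.LG
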