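import Pool.Agent.TH801.LG.Clu3
import Pool.Agent.TH801.LG.Cnt3
import Pool.Agent.TH801.LU.Fin2

/-! Products of exponential sums with general phases; images under injective maps. -/

set_option autoImplicit false

open Finset MeasureTheory Complex
open scoped ComplexConjugate

namespace Pool.Agent.TH801.LG

open Pool.Agent.TH801.LR (Sx Sx_le)

/-- product over the cells -/
lemma prod_cellsI {ι : Type*} (V : Finset ι) (f : ι → ℕ) (m q : ℕ) (hf : ∀ v ∈ V, f v ∈ range m)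
    (F G : ι → ℝ) (ε : ℝ) (hε0 : 0 ≤ 1 - ε) (hε1 : 1 - ε ≤ 1) (hF : ∀ v, 0 ≤ F v)
    (hG : ∀ v, 0 ≤ G v)
    (h : ∀ y ∈ range m, ∏ v ∈ V.filter (fun v => f v = y), F v ≤
      (1 - ε) ^ ((V.filter (fun v => f v = y)).card - q) *
        ∏ v ∈ V.filter (fun v => f v = y), G v) :
    ∏ v ∈ V, F v ≤ (1 - ε) ^ (V.card - q * m) * ∏ v ∈ V, G v := by
  classical
  rw [← prod_fiberwise_of_maps_to hf F, ← prod_fiberwise_of_maps_to hf G]
  refine (prod_le_prod (fun y _ => prod_nonneg fun v _ => hF v) h).trans ?_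
  rw [prod_mul_distrib, prod_pow_eq_pow_sum]
  refine mul_le_mul_of_nonneg_right ?_ (prod_nonneg fun y _ => prod_nonneg fun v _ => hG v)
  apply pow_le_pow_of_le_one hε0 hε1
  have h1 : V.card = ∑ y ∈ range m, (V.filter (fun v => f v = y)).card :=
    card_eq_sum_card_fiberwise hf
  have h2 : ∑ y ∈ range m, (V.filter (fun v => f v = y)).card ≤
      ∑ y ∈ range m, (((V.filter (fun v => f v = y)).card - q) + q) :=
    sum_le_sum fun y _ => by omega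
  rw [sum_add_distrib, sum_const, card_range, smul_eq_mul] at h2
  rw [h1]
  have h3 : m * q = q * m := Nat.mul_comm _ _
  omega

/-- the cluster bound at one frequency -/
lemma step2g {n : ℕ} (A : Fin n → Finset ℝ) (φ : Fin n → ℝ → ℝ) (Γ : Finset ℝ) (wt : ℝ → ℝ)
    (N η ε : ℝ) (K q : ℕ) (hN : 0 < N) (hw : ∀ x ∈ Γ, 1 ≤ wt x) (hwN : ∑ x ∈ Γ, wt x ≤ N)
    (hε : 0 < ε) (hε1 : ε < 1)
    (hclu : ∀ (Γ : Finset ℝ) (w : ℝ → ℝ) (N : ℝ), 0 < N → (∀ x ∈ Γ, 1 ≤ w x) → ∑ x ∈ Γ, w x ≤ N →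
      ∀ (ι : Type) (J : Finset ι) (A : ι → Finset ℝ) (lam : ι → ℝ → ℝ),
      (∀ i ∈ J, A i ⊆ Γ ∧ η * N ≤ (A i).card) →
      (∀ i ∈ J, ∀ j ∈ J, i ≠ j → ∀ k : ℤ, k ≠ 0 → |k| ≤ K →
        ‖∑ x ∈ Γ, (w x : ℂ) * cexp (I * ((k * (lam i x - lam j x) : ℝ) : ℂ))‖ ≤ ε * N) →
      ∏ i ∈ J, ‖Sf (A i) (lam i)‖ ≤ (1 - ε) ^ (J.card - q) * ∏ i ∈ J, ((A i).card : ℝ))
    (hA : ∀ i, A i ⊆ Γ ∧ η * N ≤ (A i).card) (R V : Finset (Fin n))
    (hV : V ⊆ R) (f : Fin n → ℕ) (m : ℕ) (hf : ∀ v ∈ V, f v ∈ range m)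
    (hsup : ∀ v ∈ V, ∀ v' ∈ V, v ≠ v' → f v = f v' → ∀ k : ℤ, k ≠ 0 → |k| ≤ K →
      ‖∑ x ∈ Γ, (wt x : ℂ) * cexp (I * ((k * (φ v x - φ v' x) : ℝ) : ℂ))‖ ≤ ε * N) :
    ∏ i ∈ R, ‖Sf (A i) (φ i)‖ ≤ (1 - ε) ^ (V.card - q * m) * ∏ i ∈ R, ((A i).card : ℝ) := by
  classical
  have h1 := prod_cellsI V f m q hf (fun v => ‖Sf (A v) (φ v)‖)
    (fun v => ((A v).card : ℝ)) ε (by linarith) (by linarith) (fun v => norm_nonneg _)
    (fun v => Nat.cast_nonneg _) (by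
      intro y _
      refine hclu Γ wt N hN hw hwN (Fin n) (V.filter (fun v => f v = y)) (fun v => A v)
        (fun v => φ v) (fun v _ => hA v) ?_
      intro v hv v' hv' hvv k hk hkK
      rw [mem_filter] at hv hv'
      exact hsup v hv.1 v' hv'.1 hvv (hv.2.trans hv'.2.symm) k hk hkK)
  rw [← prod_sdiff hV, ← prod_sdiff (f := fun i => ((A i).card : ℝ)) hV]
  have h2 : ∏ i ∈ R \ V, ‖Sf (A i) (φ i)‖ ≤ ∏ i ∈ R \ V, ((A i).card : ℝ) :=
    prod_le_prod (fun i _ => norm_nonneg _) fun i _ => Sf_le _ _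
  have h3 : 0 ≤ ∏ i ∈ R \ V, ((A i).card : ℝ) := prod_nonneg fun i _ => Nat.cast_nonneg _
  calc (∏ i ∈ R \ V, ‖Sf (A i) (φ i)‖) * ∏ i ∈ V, ‖Sf (A i) (φ i)‖ ≤
      (∏ i ∈ R \ V, ((A i).card : ℝ)) *
        ((1 - ε) ^ (V.card - q * m) * ∏ i ∈ V, ((A i).card : ℝ)) :=
        mul_le_mul h2 h1 (prod_nonneg fun _ _ => norm_nonneg _) h3
    _ = _ := by ring

lemma Sx_image (A : Finset ℝ) (g : ℝ → ℝ) (hg : Set.InjOn g A) (v : ℝ) :
    Sx (A.image g) v = Sf A (fun x => v * g x) := by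
  classical
  unfold Sx Sf
  rw [sum_image hg]

lemma pairs_image (Γ A : Finset ℝ) (hA : A ⊆ Γ) (g : ℝ → ℝ) (hg : Set.InjOn g Γ) {P L : ℝ}
    (h : ∑ x ∈ Γ, ∑ y ∈ Γ, (if |g x - g y| ≤ 1 / L then (1 : ℝ) else 0) ≤ P) :
    ∑ x ∈ A.image g, ∑ y ∈ A.image g, (if |x - y| ≤ 1 / L then (1 : ℝ) else 0) ≤ P := by
  classical
  have hnn : ∀ x y : ℝ, 0 ≤ (if |g x - g y| ≤ 1 / L then (1 : ℝ) else 0) := fun x y => by
    split_ifs <;> norm_num
  have hgA : Set.InjOn g A := hg.mono (coe_subset.2 hA)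
  rw [sum_image hgA]
  have e1 : ∀ x ∈ A, ∑ y ∈ A.image g, (if |g x - y| ≤ 1 / L then (1 : ℝ) else 0) =
      ∑ y ∈ A, (if |g x - g y| ≤ 1 / L then (1 : ℝ) else 0) := fun x _ => sum_image hgA
  rw [sum_congr rfl e1]
  refine ((sum_le_sum fun x _ => sum_le_sum_of_subset_of_nonneg hA
    fun y _ _ => hnn x y).trans ?_).trans h
  exact sum_le_sum_of_subset_of_nonneg hA fun x _ _ => sum_nonneg fun y _ => hnn x y

lemma card_tuples {n : ℕ} (A : Fin n → Finset ℝ) (g : Fin n → ℝ → ℝ)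
    (hg : ∀ k, Set.InjOn (g k) (A k)) (c : Fin n → ℝ) (y w : ℝ) :
    (((Fintype.piFinset A).filter (fun x : Fin n → ℝ => |∑ k, c k * g k (x k) - y| ≤
        w)).card : ℝ) ≤
    (((Fintype.piFinset fun k => (A k).image (g k)).filter (fun x : Fin n → ℝ =>
      |∑ k, c k * x k - y| ≤ w)).card : ℝ) := by
  classical
  have : ((Fintype.piFinset A).filter (fun x : Fin n → ℝ => |∑ k, c k * g k (x k) - y| ≤
        w)).card ≤ ((Fintype.piFinset fun k => (A k).image (g k)).filter (fun x : Fin n → ℝ =>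
      |∑ k, c k * x k - y| ≤ w)).card := by
    refine card_le_card_of_injOn (fun x k => g k (x k)) ?_ ?_
    · intro x hx
      rw [mem_coe, mem_filter, Fintype.mem_piFinset] at hx ⊢
      exact ⟨fun k => mem_image_of_mem _ (hx.1 k), hx.2⟩
    · intro x hx x' hx' h
      rw [mem_coe, mem_filter, Fintype.mem_piFinset] at hx hx'
      funext k
      exact hg k (hx.1 k) (hx'.1 k) (congrFun h k)
  exact_mod_cast this

end Pool.Agent.TH801.LG
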