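import Pool.Agent.TH801.LG.Osc

/-! Exponential sums with smooth phases over the zeros with ordinates in `(T / 2 ^ r, T]`. -/

set_option autoImplicit false

open Finset MeasureTheory Complex
open scoped ComplexConjugate

namespace Pool.Agent.TH801.LG

open Pool.Agent.TH801.LU
open H370 (Zf zset mult NN mem_Zf NN_eq good_zeta)
open Pool.Agent.TH801.LR (norm_ex)

lemma Zf_split {a m b : ℝ} (ha : 1 ≤ a) (ham : a ≤ m) (hmb : m ≤ b) (g : ℂ → ℂ) :
    ∑ s ∈ Zf riemannZeta a b, g s =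
      ∑ s ∈ Zf riemannZeta a m, g s + ∑ s ∈ Zf riemannZeta m b, g s := by
  have h1 := split (a := a) (b := b) ha (ham.trans hmb) g
  have h2 := split (a := a) (b := m) ha ham g
  have h3 := split (a := m) (b := b) (ha.trans ham) hmb g
  rw [h3, h2, add_assoc] at h1
  exact (add_left_cancel h1).symm

lemma Zf_self {a : ℝ} (ha : 1 ≤ a) (g : ℂ → ℂ) : ∑ s ∈ Zf riemannZeta a a, g s = 0 := by
  have h1 := split (a := a) (b := a) ha le_rfl g
  exact (left_eq_add.1 h1)

lemma num_step (N1 N2 J X T L LX Q M ε vd D0 π2 : ℝ) (hT : 0 < T) (hX0 : 0 ≤ X)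
    (hLX : LX ≤ L) (hLX0 : 0 ≤ LX) (hε : 0 ≤ ε) (hD0 : 0 < D0)
    (hπ2 : 1 ≤ π2) (hQ : 0 ≤ Q) (hJ0 : 0 ≤ J) (hJ : J ≤ Q / vd) (hvd : D0 / T ≤ vd)
    (hM : M = L * (Q * T / D0)) (h1 : N1 ≤ N2 + LX / π2 * J) (h2 : N2 ≤ ε * (X * LX)) :
    N1 ≤ ε * (X * L) + M := by
  have hvd0 : 0 < vd := lt_of_lt_of_le (by positivity) hvd
  have h3 : Q / vd ≤ Q * T / D0 := by
    rw [div_le_div_iff₀ hvd0 hD0]
    rw [div_le_iff₀ hT] at hvd
    calc Q * D0 ≤ Q * (vd * T) := mul_le_mul_of_nonneg_left hvd hQ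
      _ = _ := by ring
  have h4 : LX / π2 * J ≤ L * (Q * T / D0) := by
    refine mul_le_mul ?_ (hJ.trans h3) hJ0 (hLX0.trans hLX)
    rw [div_le_iff₀ (by linarith)]
    have : L * 1 ≤ L * π2 := mul_le_mul_of_nonneg_left hπ2 (hLX0.trans hLX)
    linarith
  have h5 : ε * (X * LX) ≤ ε * (X * L) :=
    mul_le_mul_of_nonneg_left (mul_le_mul_of_nonneg_left hLX hX0) hε
  rw [hM]
  linarith

theorem zexp (ε Λ : ℝ) (r : ℕ) (hε : 0 < ε) (hΛ : 1 ≤ Λ) :
    ∃ c0 D0 T0 : ℝ, 0 < c0 ∧ c0 ≤ 1 / 2 ∧ 0 < D0 ∧ 4 ≤ T0 ∧ ∀ T : ℝ, T0 ≤ T →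
    ∀ (h h1 h2 : ℝ → ℝ) (δ v : ℝ), 0 < δ → |h1 T| = δ →
      (∀ x ∈ Set.Icc (T / 2 ^ r) T, HasDerivAt h (h1 x) x) →
      (∀ x ∈ Set.Icc (T / 2 ^ r) T, HasDerivAt h1 (h2 x) x) →
      ContinuousOn h2 (Set.Icc (T / 2 ^ r) T) →
      (∀ x ∈ Set.Icc (T / 2 ^ r) T, δ ≤ Λ * |h1 x|) →
      (∀ x ∈ Set.Icc (T / 2 ^ r) T, T * |h2 x| ≤ Λ * δ) →
      D0 / T ≤ |v| * δ → |v| * δ ≤ c0 * Real.log T →
      ‖∑ s ∈ Zf riemannZeta (T / 2 ^ r) T, (mult riemannZeta s : ℂ) *
        cexp (I * ((v * h s.im : ℝ) : ℂ))‖ ≤ ε * (T * Real.log T) := by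
  obtain ⟨c, T1, hc, hT1, hs⟩ := samp (ε / 2) (by positivity)
  have hpi := Real.pi_pos
  obtain ⟨c0, hc0⟩ : ∃ c0 : ℝ, c0 = min (c / (2 * (1 + Λ))) (1 / 2) := ⟨_, rfl⟩
  have hc00 : 0 < c0 := by rw [hc0]; exact lt_min (by positivity) (by norm_num)
  have hc01 : c0 ≤ 1 / 2 := by rw [hc0]; exact min_le_right _ _
  have hc02 : c0 * (1 + Λ) ≤ c / 2 := by
    have h1 : c0 ≤ c / (2 * (1 + Λ)) := by rw [hc0]; exact min_le_left _ _
    have h2 := mul_le_mul_of_nonneg_right h1 (show 0 ≤ 1 + Λ by linarith)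
    refine h2.trans (le_of_eq ?_)
    field_simp
  obtain ⟨Q, hQ⟩ : ∃ Q : ℝ, Q = 2 * Λ + Λ ^ 3 := ⟨_, rfl⟩
  have hQ0 : 0 < Q := by rw [hQ]; positivity
  obtain ⟨D0, hD0⟩ : ∃ D0 : ℝ, D0 = 2 * (r + 1) * Q / ε := ⟨_, rfl⟩
  have hD00 : 0 < D0 := by rw [hD0]; positivity
  have h2r : (1 : ℝ) ≤ 2 ^ r := one_le_pow₀ (by norm_num)
  refine ⟨c0, D0, max (2 ^ r * T1) (4 ^ r), hc00, hc01, hD00, ?_, ?_⟩
  · refine le_trans ?_ (le_max_left _ _)
    nlinarith
  intro T hT h h1 h2 δ v hδ hδT d1 d2 cc2 b1 b2 hv1 hv2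
  have hTa : 2 ^ r * T1 ≤ T := (le_max_left _ _).trans hT
  have hTb : (4 : ℝ) ^ r ≤ T := (le_max_right _ _).trans hT
  have hT100 : 100 ≤ T := by nlinarith
  have hT0 : 0 < T := by linarith
  have hL0 : 0 < Real.log T := Real.log_pos (by linarith)
  have hv : v ≠ 0 := by
    intro h0
    rw [h0, abs_zero, zero_mul] at hv1
    have : 0 < D0 / T := by positivity
    linarith
  have hb1' := der_le (T / 2 ^ r) T Λ δ h1 h2 (by positivity) hT0 (by linarith) hδ.le hδT d2 b2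
  obtain ⟨M, hM⟩ : ∃ M : ℝ, M = Real.log T * (Q * T / D0) := ⟨_, rfl⟩
  obtain ⟨F, hF⟩ : ∃ F : ℝ → ℂ, ∀ x, F x = cexp (I * ((v * h x : ℝ) : ℂ)) := ⟨_, fun _ => rfl⟩
  have hF1 : ∀ x, ‖F x‖ = 1 := fun x => by rw [hF]; exact norm_ex _
  have key : ∀ k : ℕ, k ≤ r → ‖∑ s ∈ Zf riemannZeta (T / 2 ^ k) T, (mult riemannZeta s : ℂ) *
      F s.im‖ ≤ ε / 2 * ((1 - 1 / 2 ^ k) * T * Real.log T) + k * M := by
    intro k
    induction k with
    | zero =>
      intro _
      rw [pow_zero, div_one, Zf_self (by linarith)]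
      simp
    | succ k ih =>
      intro hk
      have ihk := ih (by omega)
      obtain ⟨X, hX⟩ : ∃ X : ℝ, X = T / 2 ^ (k + 1) := ⟨_, rfl⟩
      have h2X : 2 * X = T / 2 ^ k := by
        rw [hX, pow_succ]; field_simp
      have hp1 : (2 : ℝ) ^ (k + 1) ≤ 2 ^ r := pow_le_pow_right₀ (by norm_num) hk
      have hXr : T / 2 ^ r ≤ X := by
        rw [hX]; exact div_le_div_of_nonneg_left hT0.le (by positivity) hp1
      have hXT1 : T1 ≤ X := by
        refine le_trans ?_ hXr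
        rw [le_div_iff₀ (by positivity)]
        linarith
      have hX0 : 0 < X := by linarith
      have h2XT : 2 * X ≤ T := by
        rw [h2X, div_le_iff₀ (by positivity)]
        have : (1 : ℝ) ≤ 2 ^ k := one_le_pow₀ (by norm_num)
        nlinarith
      have hsub : Set.Icc X (2 * X) ⊆ Set.Icc (T / 2 ^ r) T := Set.Icc_subset_Icc hXr h2XT
      have hlogX : Real.log T / 2 ≤ Real.log X := by
        have h3 : T ≤ X ^ 2 := by
          have h4 : (T / 2 ^ r) ^ 2 ≤ X ^ 2 := pow_le_pow_left₀ (by positivity) hXr 2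
          refine le_trans ?_ h4
          rw [div_pow, le_div_iff₀ (by positivity)]
          have : ((2 : ℝ) ^ r) ^ 2 = 4 ^ r := by
            rw [← pow_mul, mul_comm, pow_mul]; norm_num
          rw [this, sq]
          exact mul_le_mul_of_nonneg_left hTb hT0.le
        have h5 := Real.log_le_log hT0 h3
        rw [Real.log_pow] at h5
        push_cast at h5
        linarith
      have hlogXT : Real.log X ≤ Real.log T := Real.log_le_log hX0 (by linarith)
      have hLX0 : 0 ≤ Real.log X := by linarith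
      have hcont : ContinuousOn F (Set.Icc X (2 * X)) := by
        have : F = fun x => cexp (I * ((v * h x : ℝ) : ℂ)) := funext hF
        rw [this]
        have ch : ContinuousOn h (Set.Icc X (2 * X)) := fun x hx =>
          (d1 x (hsub hx)).continuousAt.continuousWithinAt
        have ch2 : ContinuousOn (fun x => ((v * h x : ℝ) : ℂ)) (Set.Icc X (2 * X)) :=
          Complex.continuous_ofReal.comp_continuousOn (continuousOn_const.mul ch)
        exact (continuousOn_const.mul ch2).cexp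
      have h7 := hs X hXT1 F hcont (fun t _ => (hF1 t).le) (by
        intro x hx y hy
        rw [hF, hF]
        refine (lip2 (T / 2 ^ r) T Λ δ v h h1 d1 hb1' x y (hsub hx) (hsub hy)).trans ?_
        refine mul_le_mul_of_nonneg_right ?_ (abs_nonneg _)
        calc |v| * ((1 + Λ) * δ) = |v| * δ * (1 + Λ) := by ring
          _ ≤ c0 * Real.log T * (1 + Λ) := mul_le_mul_of_nonneg_right hv2 (by linarith)
          _ = c0 * (1 + Λ) * Real.log T := by ring
          _ ≤ c / 2 * Real.log T := mul_le_mul_of_nonneg_right hc02 hL0.le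
          _ = c * (Real.log T / 2) := by ring
          _ ≤ _ := mul_le_mul_of_nonneg_left hlogX hc.le)
      have h8 := osc2 X (2 * X) T Λ δ v h h1 h2 (by linarith) hT0 (by linarith) hΛ hδ hv
        (fun x hx => d1 x (hsub hx)) (fun x hx => d2 x (hsub hx)) (cc2.mono hsub)
        (fun x hx => b1 x (hsub hx)) (fun x hx => b2 x (hsub hx))
      have h9 : ‖∫ t in X..(2 * X), F t‖ ≤ Q / (|v| * δ) := by
        have : (∫ t in X..(2 * X), F t) = ∫ x in X..(2 * X), cexp (I * ((v * h x : ℝ) : ℂ)) :=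
          intervalIntegral.integral_congr fun x _ => hF x
        rw [this, hQ]; exact h8
      have h10 : ‖∑ s ∈ Zf riemannZeta X (2 * X), (mult riemannZeta s : ℂ) * F s.im‖ ≤
          ‖∑ s ∈ Zf riemannZeta X (2 * X), (mult riemannZeta s : ℂ) * F s.im -
            (Real.log X / (2 * Real.pi) : ℝ) * ∫ t in X..(2 * X), F t‖ +
          Real.log X / (2 * Real.pi) * ‖∫ t in X..(2 * X), F t‖ := by
        have h11 : ‖((Real.log X / (2 * Real.pi) : ℝ) : ℂ) * ∫ t in X..(2 * X), F t‖ =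
            Real.log X / (2 * Real.pi) * ‖∫ t in X..(2 * X), F t‖ := by
          rw [norm_mul, Complex.norm_real, Real.norm_of_nonneg (by positivity)]
        rw [← h11]
        have h12 := norm_add_le (∑ s ∈ Zf riemannZeta X (2 * X), (mult riemannZeta s : ℂ) *
            F s.im - ((Real.log X / (2 * Real.pi) : ℝ) : ℂ) * ∫ t in X..(2 * X), F t)
          (((Real.log X / (2 * Real.pi) : ℝ) : ℂ) * ∫ t in X..(2 * X), F t)
        rw [sub_add_cancel] at h12
        exact h12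
      have h13 := num_step _ _ _ X T (Real.log T) (Real.log X) Q M (ε / 2) (|v| * δ) D0
        (2 * Real.pi) hT0 hX0.le hlogXT hLX0 (by positivity) hD00
        (by have := Real.pi_gt_three; linarith) hQ0.le (norm_nonneg _) h9 hv1 hM h10 h7
      rw [← hX, Zf_split (a := X) (m := 2 * X) (b := T) (by linarith) (by linarith) h2XT, h2X]
      rw [h2X] at h13
      refine (norm_add_le _ _).trans ((add_le_add h13 ihk).trans (le_of_eq ?_))
      rw [hX]
      push_cast
      rw [pow_succ]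
      field_simp
      ring
  have hk := key r le_rfl
  have e1 : ∀ s ∈ Zf riemannZeta (T / 2 ^ r) T, (mult riemannZeta s : ℂ) *
      cexp (I * ((v * h s.im : ℝ) : ℂ)) = (mult riemannZeta s : ℂ) * F s.im := fun s _ => by
    rw [hF]
  rw [sum_congr rfl e1]
  refine hk.trans ?_
  have h3 : (r : ℝ) * M ≤ ε / 2 * (T * Real.log T) := by
    rw [hM, hD0]
    have e2 : (r : ℝ) * (Real.log T * (Q * T / (2 * (r + 1) * Q / ε))) =
        (r / (r + 1) : ℝ) * (ε / 2 * (T * Real.log T)) := by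
      field_simp
    rw [e2]
    apply mul_le_of_le_one_left (by positivity)
    rw [div_le_one (by positivity)]
    linarith
  have h4 : ε / 2 * ((1 - 1 / 2 ^ r) * T * Real.log T) ≤ ε / 2 * (T * Real.log T) := by
    apply mul_le_mul_of_nonneg_left _ (by positivity)
    rw [mul_assoc]
    apply mul_le_of_le_one_left (by positivity)
    have : (0 : ℝ) ≤ 1 / 2 ^ r := by positivity
    linarith
  linarith

end Pool.Agent.TH801.LG
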